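import Pool.Agent.AML.Defs

/-!
# Side (H): linear model of hyperbolic space, flag cones

* `HV = Fin 4 → ℝ`, coordinates `(p, q, x, y)` of the Hermitian form `((p, x+y√-2), (x-y√-2, q))`,
* `toM : HV → Matrix`, `rho : SL(2,ℂ) →* (HV ≃ₗ[ℝ] HV)` the action `H ↦ g H gᴴ`,
* `PP` the open convex cone of positive definite forms,
* `NR u` the rank one form `u uᴴ` of `u ∈ O2²`, `mulV g u` the action of `SL(2,O2)` on vectors,
* `E p X` the vertices of the flag cone `p`.
-/

set_option linter.style.longLine false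

open Matrix Topology
open scoped MatrixGroups ComplexConjugate ComplexOrder

namespace Pool.AML.HH

noncomputable section

/-- real vectors `(p, q, x, y)`. -/
abbrev HV : Type := Fin 4 → ℝ

/-- `√-2` in `ℂ`. -/
def s2 : ℂ := Complex.I * (Real.sqrt 2 : ℂ)

/-- the Hermitian matrix of a vector. -/
def toM (v : HV) : Matrix (Fin 2) (Fin 2) ℂ :=
  !![(v 0 : ℂ), (v 2 : ℂ) + (v 3 : ℂ) * s2; (v 2 : ℂ) - (v 3 : ℂ) * s2, (v 1 : ℂ)]

/-- the vector of a Hermitian matrix. -/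
def frM (H : Matrix (Fin 2) (Fin 2) ℂ) : HV :=
  ![(H 0 0).re, (H 1 1).re, (H 0 1).re, (H 0 1).im / Real.sqrt 2]

/-- the determinant of the form. -/
def qd (v : HV) : ℝ := v 0 * v 1 - v 2 ^ 2 - 2 * v 3 ^ 2

/-- positive definite forms. -/
def PP : Set HV := {v | 0 < v 0 ∧ 0 < qd v}

theorem sqrt2_ne : (Real.sqrt 2) ≠ 0 := by positivity

theorem sqrt2_sq : (Real.sqrt 2) * (Real.sqrt 2) = 2 := Real.mul_self_sqrt (by norm_num)

theorem frM_toM (v : HV) : frM (toM v) = v := by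
  ext i
  fin_cases i <;> simp [frM, toM, s2]

theorem toM_inj : Function.Injective toM := fun v w h => by
  rw [← frM_toM v, ← frM_toM w, h]

theorem toM_herm (v : HV) : (toM v).IsHermitian := by
  ext i j
  fin_cases i <;> fin_cases j <;> simp [toM, s2, Matrix.conjTranspose_apply] <;> ring

theorem toM_frM (H : Matrix (Fin 2) (Fin 2) ℂ) (hH : H.IsHermitian) : toM (frM H) = H := by
  have h00 : (H 0 0).im = 0 := by
    have := congrArg Complex.im (hH.apply 0 0); simp at this; linarith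
  have h11 : (H 1 1).im = 0 := by
    have := congrArg Complex.im (hH.apply 1 1); simp at this; linarith
  have h10 : H 1 0 = star (H 0 1) := (hH.apply 1 0).symm
  ext i j
  fin_cases i <;> fin_cases j
  · apply Complex.ext <;> simp [toM, frM, s2, h00]
  · apply Complex.ext <;> simp [toM, frM, s2]
  · apply Complex.ext <;> simp [toM, frM, s2, h10]
  · apply Complex.ext <;> simp [toM, frM, s2, h11]

theorem toM_add (v w : HV) : toM (v + w) = toM v + toM w := by
  ext i j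
  fin_cases i <;> fin_cases j <;> simp [toM] <;> ring

theorem toM_smul (c : ℝ) (v : HV) : toM (c • v) = (c : ℂ) • toM v := by
  ext i j
  fin_cases i <;> fin_cases j <;> simp [toM] <;> ring

theorem frM_add (H K : Matrix (Fin 2) (Fin 2) ℂ) : frM (H + K) = frM H + frM K := by
  ext i
  fin_cases i <;> simp [frM, add_div]

theorem frM_smul (c : ℝ) (H : Matrix (Fin 2) (Fin 2) ℂ) : frM ((c : ℂ) • H) = c • frM H := by
  ext i
  fin_cases i <;> simp [frM, mul_div_assoc]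

theorem conj_herm (g : Matrix (Fin 2) (Fin 2) ℂ) (v : HV) : (g * toM v * gᴴ).IsHermitian :=
  Matrix.isHermitian_mul_mul_conjTranspose g (toM_herm v)

/-- the action of a matrix on vectors. -/
def rhoF (g : Matrix (Fin 2) (Fin 2) ℂ) : HV →ₗ[ℝ] HV where
  toFun v := frM (g * toM v * gᴴ)
  map_add' v w := by rw [toM_add, Matrix.mul_add, Matrix.add_mul, frM_add]
  map_smul' c v := by
    rw [toM_smul, Matrix.mul_smul, Matrix.smul_mul, frM_smul]; rfl

theorem toM_rhoF (g : Matrix (Fin 2) (Fin 2) ℂ) (v : HV) : toM (rhoF g v) = g * toM v * gᴴ :=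
  toM_frM _ (conj_herm g v)

theorem rhoF_mul (g h : Matrix (Fin 2) (Fin 2) ℂ) (v : HV) : rhoF (g * h) v = rhoF g (rhoF h v) := by
  apply toM_inj
  rw [toM_rhoF, toM_rhoF, toM_rhoF, Matrix.conjTranspose_mul]
  simp only [Matrix.mul_assoc]

theorem rhoF_one (v : HV) : rhoF 1 v = v := by
  apply toM_inj
  rw [toM_rhoF]; simp

theorem sl_mul_val {R : Type*} [CommRing R] (g h : SL(2, R)) : (g * h).1 = g.1 * h.1 := rfl

theorem sl_one_val {R : Type*} [CommRing R] : (1 : SL(2, R)).1 = 1 := rfl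

theorem rhoF_mul' (g h : SL(2, ℂ)) (v : HV) : rhoF (g * h).1 v = rhoF g.1 (rhoF h.1 v) :=
  rhoF_mul g.1 h.1 v

theorem rhoF_one' (v : HV) : rhoF (1 : SL(2, ℂ)).1 v = v := rhoF_one v

/-- the action of one element as an equivalence. -/
def rhoE (g : SL(2, ℂ)) : HV ≃ₗ[ℝ] HV where
  toFun := rhoF g.1
  map_add' := (rhoF g.1).map_add
  map_smul' := (rhoF g.1).map_smul
  invFun := rhoF (g⁻¹).1
  left_inv := fun v => by rw [← rhoF_mul', inv_mul_cancel, rhoF_one']
  right_inv := fun v => by rw [← rhoF_mul', mul_inv_cancel, rhoF_one']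

theorem rhoE_apply (g : SL(2, ℂ)) (v : HV) : rhoE g v = rhoF g.1 v := rfl

/-- the action `H ↦ g H gᴴ` on vectors. -/
def rho : SL(2, ℂ) →* (HV ≃ₗ[ℝ] HV) where
  toFun g := rhoE g
  map_one' := by
    apply LinearEquiv.ext
    intro v
    rw [rhoE_apply, rhoF_one']; rfl
  map_mul' g h := by
    apply LinearEquiv.ext
    intro v
    rw [rhoE_apply, rhoF_mul']; rfl

theorem toM_rho (g : SL(2, ℂ)) (v : HV) : toM (rho g v) = g.1 * toM v * g.1ᴴ := toM_rhoF g.1 v

/-- integral rank one form. -/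
def nv (u : O2 × O2) : Fin 4 → ℤ :=
  ![u.1.norm, u.2.norm, (u.1 * star u.2).re, (u.1 * star u.2).im]

/-- rank one form `u uᴴ`. -/
def NR (u : O2 × O2) : HV := fun i => ((nv u i : ℤ) : ℝ)

/-- action of `SL(2, O2)` on vectors. -/
def mulV (g : SL(2, O2)) (u : O2 × O2) : O2 × O2 :=
  (g.1 0 0 * u.1 + g.1 0 1 * u.2, g.1 1 0 * u.1 + g.1 1 1 * u.2)

/-- `det (u, u')`. -/
def dt (u u' : O2 × O2) : O2 := u.1 * u'.2 - u.2 * u'.1

/-- the vector at infinity. -/
def uI : O2 × O2 := (1, 0)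

/-- the vector whose edge midpoint is the `M`-vertex of the flag. -/
def uM (p : Flag) : O2 × O2 := if p.1 then v0 p.2 else v1 p.2

/-- the third vector of the tile. -/
def uB (p : Flag) : O2 × O2 := if p.1 then v1 p.2 else v0 p.2

/-- the vector of the `c`-vertex. -/
def uC (p : Flag) : O2 × O2 := vc p.2

/-- the vertices of the flag cone `p`, transformed by `g`. -/
def EG (g : SL(2, O2)) (p : Flag) (X : Fin 4) : HV :=
  match X with
  | 0 => NR (mulV g uI)
  | 1 => (1 / 2 : ℝ) • (NR (mulV g uI) + NR (mulV g (uM p)))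
  | 2 => (1 / 3 : ℝ) • (NR (mulV g uI) + NR (mulV g (uM p)) + NR (mulV g (uB p)))
  | 3 => NR (mulV g (uC p))

/-- the vertices of the flag cone `p`. -/
def E (p : Flag) (X : Fin 4) : HV :=
  match X with
  | 0 => NR uI
  | 1 => (1 / 2 : ℝ) • (NR uI + NR (uM p))
  | 2 => (1 / 3 : ℝ) • (NR uI + NR (uM p) + NR (uB p))
  | 3 => NR (uC p)

/-- matrix with columns the vertices of the flag cone. -/
def Em (p : Flag) : Matrix (Fin 4) (Fin 4) ℝ := Matrix.of fun i X => E p X i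

/-- `μ ↦ Σ μ_X E_p(X)`. -/
def Sp (p : Flag) (μ : Fin 4 → ℝ) : HV := ∑ X, μ X • E p X

/-! ### integer versions -/

/-- `(1,2,3,1)`-scaled integral vertices, transformed by the matrix `g = (a,b,c,d)`. -/
def mulQ (g : O2 × O2 × O2 × O2) (u : O2 × O2) : O2 × O2 :=
  (g.1 * u.1 + g.2.1 * u.2, g.2.2.1 * u.1 + g.2.2.2 * u.2)

/-- integral vertices (scaled by `1, 2, 3, 1`). -/
def EZ (g : O2 × O2 × O2 × O2) (p : Flag) (X : Fin 4) : Fin 4 → ℤ :=
  match X with
  | 0 => nv (mulQ g uI)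
  | 1 => nv (mulQ g uI) + nv (mulQ g (uM p))
  | 2 => nv (mulQ g uI) + nv (mulQ g (uM p)) + nv (mulQ g (uB p))
  | 3 => nv (mulQ g (uC p))

/-- explicit `4 × 4` determinant. -/
def det4 {R : Type*} [CommRing R] (a b c d : Fin 4 → R) : R :=
  a 0 * (b 1 * (c 2 * d 3 - c 3 * d 2) - b 2 * (c 1 * d 3 - c 3 * d 1) + b 3 * (c 1 * d 2 - c 2 * d 1))
  - a 1 * (b 0 * (c 2 * d 3 - c 3 * d 2) - b 2 * (c 0 * d 3 - c 3 * d 0) + b 3 * (c 0 * d 2 - c 2 * d 0))
  + a 2 * (b 0 * (c 1 * d 3 - c 3 * d 1) - b 1 * (c 0 * d 3 - c 3 * d 0) + b 3 * (c 0 * d 1 - c 1 * d 0))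
  - a 3 * (b 0 * (c 1 * d 2 - c 2 * d 1) - b 1 * (c 0 * d 2 - c 2 * d 0) + b 2 * (c 0 * d 1 - c 1 * d 0))

end

end Pool.AML.HH
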