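import Pool.Agent.AML.H.L1
set_option linter.style.longLine false
open Matrix Topology
open scoped MatrixGroups ComplexConjugate ComplexOrder

namespace Pool.AML.HH

/-!
Row AMH-C1 (neighbours). `E'(Y) := rho (slC (glS p X)) (E (fl p X) Y)`.
`gl_E`: by linearity and `rho_NR`, `E'(Y) i = (1, 1/2, 1/3, 1)_Y * EZ (glM p X) (fl p X) Y i` (note `mulV (glS p X) u = mulQ (glM p X) u`).
For `Y ≠ X` this is `E p Y` by `num_share`, `E_eq`.
`co_nbg`: let `μ = co s v`, `v = rho (slC s.2) (Σ μ_Y E s.1 Y)` (`Sp_Lf`). With `μ_X = 0`: `= rho (slC s.2) (Σ_{Y≠X} μ_Y rho (slC gl) (E (fl p X) Y)) = rho (slC (s.2 gl)) (Sp (fl p X) μ)`,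
so `co (nbg s X) v = μ` (`Lf_Sp`).
-/

theorem C1_mulV (p : Flag) (X : Fin 4) (u : O2 × O2) :
    mulV (glS p X) u = mulQ (glM p X) u := by
  simp [mulV, mulQ, glS]

theorem C1_rhoE (p q : Flag) (X Y i : Fin 4) :
    rho (slC (glS p X)) (E q Y) i =
      (![1, 1 / 2, 1 / 3, 1] : Fin 4 → ℝ) Y * ((EZ (glM p X) q Y i : ℤ) : ℝ) := by
  fin_cases Y <;> simp [E, EZ, map_add, map_smul, rho_NR, C1_mulV, NR, mul_add]

theorem C1_rho_mul (a b : SL(2, ℂ)) (v : HV) : rho (a * b) v = rho a (rho b v) := by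
  rw [map_mul, LinearEquiv.mul_apply]

theorem C1_rho_inv_apply (a : SL(2, ℂ)) (v : HV) : rho a⁻¹ (rho a v) = v := by
  rw [← C1_rho_mul, inv_mul_cancel, map_one]; rfl

theorem C1_rho_apply_inv (a : SL(2, ℂ)) (v : HV) : rho a (rho a⁻¹ v) = v := by
  rw [← C1_rho_mul, mul_inv_cancel, map_one]; rfl

theorem gl_E (p : Flag) (X Y : Fin 4) (h : Y ≠ X) :
    rho (slC (glS p X)) (E (fl p X) Y) = E p Y := by
  ext i
  rw [C1_rhoE, E_eq, num_share p X Y h i]

theorem co_nbg (s : Flag × SL(2, O2)) (X : Fin 4) (v : HV) (h : co s v X = 0) :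
    co (nbg s X) v = co s v := by
  have h1 : rho (slC s.2)⁻¹ v = Sp s.1 (co s v) := by
    rw [co, Sp_Lf]
  have h2 : rho (slC (glS s.1 X)) (Sp (fl s.1 X) (co s v)) = Sp s.1 (co s v) := by
    simp only [Sp, map_sum, map_smul]
    refine Finset.sum_congr rfl fun Y _ => ?_
    by_cases hY : Y = X
    · subst hY
      rw [h, zero_smul, zero_smul]
    · rw [gl_E s.1 X Y hY]
  have h3 : rho (slC (s.2 * glS s.1 X))⁻¹ v = Sp (fl s.1 X) (co s v) := by
    rw [map_mul, _root_.mul_inv_rev, C1_rho_mul, h1, ← h2, C1_rho_inv_apply]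
  change Lf (fl s.1 X) (rho (slC (s.2 * glS s.1 X))⁻¹ v) = co s v
  rw [h3, Lf_Sp]

/-- the coordinates only depend on the element up to sign. -/
theorem co_neg (p : Flag) (g : SL(2, O2)) (v : HV) : co (p, -g) v = co (p, g) v := by
  change Lf p (rho (slC (-g))⁻¹ v) = Lf p (rho (slC g)⁻¹ v)
  rw [slC_neg, map_inv, map_inv, rho_neg]

/-- equivariance of the coordinates. -/
theorem co_mul (p : Flag) (g h : SL(2, O2)) (v : HV) :
    co (p, g * h) (rho (slC g) v) = co (p, h) v := by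
  change Lf p (rho (slC (g * h))⁻¹ (rho (slC g) v)) = Lf p (rho (slC h)⁻¹ v)
  rw [map_mul, _root_.mul_inv_rev, C1_rho_mul, C1_rho_inv_apply]

theorem nbg_nbg (s : Flag × SL(2, O2)) (X : Fin 4) :
    nbg (nbg s X) X = s ∨ nbg (nbg s X) X = (s.1, -s.2) := by
  have e : nbg (nbg s X) X = (s.1, s.2 * (glS s.1 X * glS (fl s.1 X) X)) := by
    change (fl (fl s.1 X) X, s.2 * glS s.1 X * glS (fl s.1 X) X) = _
    rw [(num_fl s.1 X).1, mul_assoc]
  rw [e]
  rcases num_inv s.1 X with h | h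
  · left
    rw [h, mul_one]
  · right
    rw [h, mul_neg, mul_one]

end Pool.AML.HH
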