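import Pool.Agent.AML.H.C1
set_option linter.style.longLine false
open Matrix Topology
open scoped MatrixGroups ComplexConjugate ComplexOrder

namespace Pool.AML.HH

/-!
Row AMH-C2 (the neighbour lies on the other side). `E'(Y) := rho (slC (glS p X)) (E (fl p X) Y)`, `E'(Y) = E p Y` for `Y ≠ X` (`gl_E`), and
`E'(X) i = (1, 1/2, 1/3, 1)_X * EZ (glM p X) (fl p X) X i` (linearity, `rho_NR`, `mulV (glS p X) u = mulQ (glM p X) u`).
`side`: in general `co (nbg s X) v X = μ_X * r`, `r := (Lf (fl p X) (rho (slC (glS p X))⁻¹ (E p X))) X`. Conversely `E'(X) = Σ n_Y E p Y` with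
`n_X = det(E p with X replaced by E'(X)) / det (E p) < 0` (`num_side`, Cramer: `Matrix.cramer`, or `det4` of a linear combination), and
`n_X * r = 1` (the `X`-coordinate of `E'(X)` in its own basis is `1`; the other terms contribute `0` as `E p Y = E'(Y)` for `Y ≠ X`). So `k = -r > 0`.
-/

theorem C2_Lf_E (p : Flag) (Y X : Fin 4) : Lf p (E p Y) X = if X = Y then 1 else 0 := by
  have h : E p Y = Sp p (Pi.single Y 1) := by
    simp [Sp, Pi.single_apply]
  rw [h, Lf_Sp, Pi.single_apply]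

/-- the moved vertex of the neighbour. -/
noncomputable def C2_EX (p : Flag) (X : Fin 4) : HV := rho (slC (glS p X)) (E (fl p X) X)

theorem C2_gen (p : Flag) (X : Fin 4) (μ : Fin 4 → ℝ) :
    Lf (fl p X) (rho (slC (glS p X))⁻¹ (Sp p μ)) X =
      μ X * Lf (fl p X) (rho (slC (glS p X))⁻¹ (E p X)) X := by
  have h1 : Lf (fl p X) (rho (slC (glS p X))⁻¹ (Sp p μ)) X =
      ∑ Y, μ Y * Lf (fl p X) (rho (slC (glS p X))⁻¹ (E p Y)) X := by
    simp only [Sp, map_sum, map_smul]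
    simp [Finset.sum_apply]
  rw [h1]
  refine Finset.sum_eq_single_of_mem X (Finset.mem_univ _) fun Y _ hY => ?_
  rw [← gl_E p X Y hY, C1_rho_inv_apply, C2_Lf_E, if_neg (Ne.symm hY), mul_zero]

theorem C2_ent (p : Flag) (X i Y : Fin 4) : (Em p).updateCol X (C2_EX p X) i Y =
    (![1, 1 / 2, 1 / 3, 1] : Fin 4 → ℝ) Y * ((EZr p X Y i : ℤ) : ℝ) := by
  by_cases h : Y = X
  · subst h
    rw [Matrix.updateCol_self, C2_EX, C1_rhoE, EZr, if_pos rfl]
  · rw [Matrix.updateCol_ne h, EZr, if_neg h]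
    exact E_eq p Y i

theorem C2_det (p : Flag) (X : Fin 4) : ((Em p).updateCol X (C2_EX p X)).det =
    (1 / 6) * ((det4 (EZr p X 0) (EZr p X 1) (EZr p X 2) (EZr p X 3) : ℤ) : ℝ) := by
  rw [det_four]
  simp only [C2_ent, det4]
  push_cast
  simp
  ring

theorem C2_cramer (p : Flag) (X : Fin 4) : ((Em p).updateCol X (C2_EX p X)).det =
    Lf p (C2_EX p X) X * (Em p).det := by
  have h : C2_EX p X = fun k => ∑ i, (Lf p (C2_EX p X) i) • (Em p) k i := by
    funext k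
    conv_lhs => rw [← Sp_Lf p (C2_EX p X)]
    simp [Sp, Em, Finset.sum_apply]
  conv_lhs => rw [h]
  rw [Matrix.det_updateCol_sum, smul_eq_mul]

theorem C2_neg (p : Flag) (X : Fin 4) : Lf p (C2_EX p X) X < 0 := by
  have h1 := C2_cramer p X
  rw [C2_det, det_Em] at h1
  have h2 := num_side p X
  have h3 : ((det4 (EZr p X 0) (EZr p X 1) (EZr p X 2) (EZr p X 3) : ℤ) : ℝ) *
      ((det4 (EZ q1 p 0) (EZ q1 p 1) (EZ q1 p 2) (EZ q1 p 3) : ℤ) : ℝ) < 0 := by
    exact_mod_cast h2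
  generalize ((det4 (EZr p X 0) (EZr p X 1) (EZr p X 2) (EZr p X 3) : ℤ) : ℝ) = a at h1 h3
  generalize ((det4 (EZ q1 p 0) (EZ q1 p 1) (EZ q1 p 2) (EZ q1 p 3) : ℤ) : ℝ) = b at h1 h3
  have h4 : a = Lf p (C2_EX p X) X * b := by linarith
  rw [h4] at h3
  by_contra hc
  push Not at hc
  nlinarith [mul_nonneg hc (mul_self_nonneg b)]

theorem side (p : Flag) (X : Fin 4) : ∃ k : ℝ, 0 < k ∧ ∀ (g : SL(2, O2)) (v : HV),
    co (nbg (p, g) X) v X = -k * co (p, g) v X := by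
  set r := Lf (fl p X) (rho (slC (glS p X))⁻¹ (E p X)) X with hr
  have h1 : Lf p (C2_EX p X) X * r = 1 := by
    have h := C2_gen p X (Lf p (C2_EX p X))
    rw [Sp_Lf, C2_EX, C1_rho_inv_apply, C2_Lf_E, if_pos rfl] at h
    exact h.symm
  have h2 := C2_neg p X
  have h3 : r < 0 := by
    by_contra hc
    push Not at hc
    nlinarith
  refine ⟨-r, by linarith, fun g v => ?_⟩
  have h4 : rho (slC g)⁻¹ v = Sp p (co (p, g) v) := by
    rw [co, Sp_Lf]
  change Lf (fl p X) (rho (slC (g * glS p X))⁻¹ v) X = _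
  rw [map_mul, _root_.mul_inv_rev, C1_rho_mul, h4, C2_gen, ← hr]
  ring

end Pool.AML.HH
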