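import Pool.Agent.AML.H.Num

/-!
# Side (H): coordinates of the flag cones, cells, interface of the tiling
-/

set_option linter.style.longLine false

open Matrix Topology
open scoped MatrixGroups ComplexConjugate ComplexOrder

namespace Pool.AML.HH

noncomputable section

theorem det_four {R : Type*} [CommRing R] (M : Matrix (Fin 4) (Fin 4) R) :
    M.det = det4 (fun i => M i 0) (fun i => M i 1) (fun i => M i 2) (fun i => M i 3) := by
  rw [← Matrix.det_transpose]
  simp [Matrix.det_succ_row_zero, Fin.sum_univ_succ, det4, Matrix.transpose_apply, Fin.succAbove]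
  ring

theorem mulQ_q1 (u : O2 × O2) : mulQ q1 u = u := by
  simp [mulQ, q1]

theorem E_eq (p : Flag) (X i : Fin 4) :
    E p X i = (![1, 1 / 2, 1 / 3, 1] : Fin 4 → ℝ) X * ((EZ q1 p X i : ℤ) : ℝ) := by
  fin_cases X <;> simp [E, EZ, mulQ_q1, NR, mul_add]

theorem det_Em (p : Flag) : (Em p).det =
    (1 / 6) * ((det4 (EZ q1 p 0) (EZ q1 p 1) (EZ q1 p 2) (EZ q1 p 3) : ℤ) : ℝ) := by
  rw [det_four]
  simp only [Em, Matrix.of_apply, E_eq, det4]
  push_cast
  simp
  ring

theorem det_Em_ne (p : Flag) : (Em p).det ≠ 0 := by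
  rw [det_Em]
  have := num_det p
  have h : ((det4 (EZ q1 p 0) (EZ q1 p 1) (EZ q1 p 2) (EZ q1 p 3) : ℤ) : ℝ) ≠ 0 := by
    exact_mod_cast this
  positivity

/-- coordinates with respect to the vertices of the flag cone. -/
def Lf (p : Flag) : HV ≃ₗ[ℝ] (Fin 4 → ℝ) :=
  (Matrix.toLinearEquiv' (Em p)
    ((Em p).invertibleOfIsUnitDet (isUnit_iff_ne_zero.2 (det_Em_ne p)))).symm

theorem Lf_symm (p : Flag) (μ : Fin 4 → ℝ) : (Lf p).symm μ = Sp p μ := by
  ext i
  simp only [Lf, LinearEquiv.symm_symm, Sp]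
  change (Matrix.toLin' (Em p) μ) i = _
  rw [Matrix.toLin'_apply, Matrix.mulVec, dotProduct]
  simp [Em, mul_comm]

theorem Lf_Sp (p : Flag) (μ : Fin 4 → ℝ) : Lf p (Sp p μ) = μ := by
  rw [← Lf_symm, LinearEquiv.apply_symm_apply]

theorem Sp_Lf (p : Flag) (v : HV) : Sp p (Lf p v) = v := by
  rw [← Lf_symm, LinearEquiv.symm_apply_apply]

/-- coordinates of `v` in the cell `s = (p, g)` (the cone `g · C_p`). -/
def co (s : Flag × SL(2, O2)) (v : HV) : Fin 4 → ℝ := Lf s.1 (rho (slC s.2)⁻¹ v)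

/-- `v` lies in the cell `s`. -/
def InC (v : HV) (s : Flag × SL(2, O2)) : Prop := ∀ X, 0 ≤ co s v X

/-- the neighbour of the cell `s` across the facet opposite to the vertex `X`. -/
def nbg (s : Flag × SL(2, O2)) (X : Fin 4) : Flag × SL(2, O2) := (fl s.1 X, s.2 * glS s.1 X)

/-- one step through a facet containing `v`. -/
def Rst (v : HV) (s t : Flag × SL(2, O2)) : Prop := ∃ X, co s v X = 0 ∧ t = nbg s X

/-- the properties of the group used for the tiling. -/
structure GoodGrp (Γ : Subgroup SL(2, O2)) : Prop where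
  gl : ∀ p X, glS p X ∈ Γ
  neg : (-1 : SL(2, O2)) ∈ Γ
  cusp : ∀ g ∈ Γ, g.1 1 0 = 0 → ∃ t, InLam t ∧ (g = Tm t ∨ g = -Tm t)
  cc : ∀ g ∈ Γ, ∀ p : Flag, (mulV g (uC p)).2 ≠ 0

end

end Pool.AML.HH
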