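import Pool.Agent.AML.H.L2
set_option linter.style.longLine false
open Matrix Topology
open scoped MatrixGroups ComplexConjugate ComplexOrder

namespace Pool.AML.HH

/-!
Row AMH-L3 (finiteness).
* `fin_norm`: `norm z = re^2 + 2 im^2 ≤ R` bounds `|re|, |im| ≤ ⌈R⌉ + 1`: the set is contained in the image of a finite box.
* `fin_pair`: `g ↦ (mulV g u, mulV g u')` is injective (`dt u u' ≠ 0`: `g.1 i 0`, `g.1 i 1` solve a linear system with determinant `dt u u'` in the domain `O2`),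
  with values in a finite set.
-/

private theorem l3_abs_le_sq (a : ℤ) : |a| ≤ a * a := by
  rcases eq_or_ne a 0 with rfl | h
  · simp
  · have h1 : 1 ≤ |a| := Int.one_le_abs h
    calc |a| = |a| * 1 := (mul_one _).symm
      _ ≤ |a| * |a| := mul_le_mul_of_nonneg_left h1 (abs_nonneg a)
      _ = a * a := abs_mul_abs_self a

private theorem l3_norm (z : O2) : |z.re| ≤ z.norm ∧ |z.im| ≤ z.norm ∧ 0 ≤ z.norm := by
  have h1 := l3_abs_le_sq z.re
  have h2 := l3_abs_le_sq z.im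
  have h3 : 0 ≤ z.re * z.re := mul_self_nonneg _
  have h4 : 0 ≤ z.im * z.im := mul_self_nonneg _
  rw [Zsqrtd.norm_def]
  refine ⟨by linarith, by linarith, by linarith⟩

theorem fin_norm (R : ℝ) : {u : O2 × O2 | ((u.1.norm : ℝ) + (u.2.norm : ℝ)) ≤ R}.Finite := by
  let K : ℤ := ⌈R⌉
  let f : (ℤ × ℤ) × (ℤ × ℤ) → O2 × O2 := fun x => (⟨x.1.1, x.1.2⟩, ⟨x.2.1, x.2.2⟩)
  have hfin : (f '' ((Set.Icc (-K) K ×ˢ Set.Icc (-K) K) ×ˢ (Set.Icc (-K) K ×ˢ Set.Icc (-K) K))).Finite :=
    Set.Finite.image _ (((Set.finite_Icc _ _).prod (Set.finite_Icc _ _)).prod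
      ((Set.finite_Icc _ _).prod (Set.finite_Icc _ _)))
  refine hfin.subset ?_
  rintro ⟨a, b⟩ h
  have h1 : ((a.norm : ℝ) + (b.norm : ℝ)) ≤ R := h
  obtain ⟨ha1, ha2, ha3⟩ := l3_norm a
  obtain ⟨hb1, hb2, hb3⟩ := l3_norm b
  have h2 : a.norm + b.norm ≤ K := by
    have h3 : (((a.norm + b.norm : ℤ)) : ℝ) ≤ (K : ℝ) := by
      push_cast
      exact h1.trans (Int.le_ceil R)
    exact_mod_cast h3
  refine ⟨((a.re, a.im), (b.re, b.im)), ⟨⟨?_, ?_⟩, ⟨?_, ?_⟩⟩, rfl⟩
  · exact abs_le.1 (by linarith)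
  · exact abs_le.1 (by linarith)
  · exact abs_le.1 (by linarith)
  · exact abs_le.1 (by linarith)

private theorem l3_zero (z w : O2) (hw : w ≠ 0) (h : z * w = 0) : z = 0 := by
  by_contra hz
  have h1 := norm_one_le z hz
  have h2 := norm_one_le w hw
  have h3 : z.norm * w.norm = 0 := by
    rw [← Zsqrtd.norm_mul, h]
    rfl
  nlinarith

theorem fin_pair (u u' : O2 × O2) (h : dt u u' ≠ 0) (R : ℝ) :
    {g : SL(2, O2) | (((mulV g u).1.norm : ℝ) + ((mulV g u).2.norm : ℝ)) ≤ R ∧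
      (((mulV g u').1.norm : ℝ) + ((mulV g u').2.norm : ℝ)) ≤ R}.Finite := by
  let φ : SL(2, O2) → (O2 × O2) × (O2 × O2) := fun g => (mulV g u, mulV g u')
  have hinj : Function.Injective φ := by
    intro g k hgk
    have h1 : mulV g u = mulV k u := congrArg Prod.fst hgk
    have h2 : mulV g u' = mulV k u' := congrArg Prod.snd hgk
    have key : ∀ i : Fin 2, g.1 i 0 * u.1 + g.1 i 1 * u.2 = k.1 i 0 * u.1 + k.1 i 1 * u.2 →
        g.1 i 0 * u'.1 + g.1 i 1 * u'.2 = k.1 i 0 * u'.1 + k.1 i 1 * u'.2 →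
        g.1 i 0 = k.1 i 0 ∧ g.1 i 1 = k.1 i 1 := by
      intro i e1 e2
      constructor
      · apply sub_eq_zero.1
        apply l3_zero _ (dt u u') h
        simp only [dt]
        linear_combination u'.2 * e1 - u.2 * e2
      · apply sub_eq_zero.1
        apply l3_zero _ (dt u u') h
        simp only [dt]
        linear_combination u.1 * e2 - u'.1 * e1
    have k0 := key 0 (congrArg Prod.fst h1) (congrArg Prod.fst h2)
    have k1 := key 1 (congrArg Prod.snd h1) (congrArg Prod.snd h2)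
    apply Subtype.ext
    refine Matrix.ext fun i j => ?_
    fin_cases i <;> fin_cases j
    · exact k0.1
    · exact k0.2
    · exact k1.1
    · exact k1.2
  have hfin := ((fin_norm R).prod (fin_norm R)).preimage (f := φ) hinj.injOn
  refine hfin.subset ?_
  intro g hg
  exact ⟨hg.1, hg.2⟩

end Pool.AML.HH
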