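import Pool.Agent.AML.H.Fdef
import Pool.Agent.AML.H.L3
set_option linter.style.longLine false
open Matrix Topology
open scoped MatrixGroups ComplexConjugate ComplexOrder

namespace Pool.AML.HH

/-!
Row AMH-D1 (proper discontinuity). `K, L ⊂ H3` compact. The continuous functions `tr H = (hvv H) 0 + (hvv H) 1` are bounded on `K` and `L` by `M` (`≥ 1`).
For `H ∈ H3` with `v = hvv H`, `v ∈ PP`, `qd v = 1`, `tr ≤ M`: for every `u ∈ ℂ²`: `uᴴ H u ≥ M⁻¹ |u|²` (the smaller eigenvalue is `1 / larger ≥ 1/M`; directly: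
`adj H = tr H - H` is positive definite with the same properties and `H * adj H = 1`...). Simplest: if `g H gᴴ = H'`, `tr H' ≤ M`, then
`tr (g H gᴴ) = Σ_rows r H rᴴ ≥ M⁻¹ (|g00|² + |g01|² + |g10|² + |g11|²)`: for a row `r = (a, b)`: `r H rᴴ = p |a|² + q |b|² + 2 Re(a z b̄) `, with `p q - |z|² = 1`, `p + q ≤ M`:
`(p+q)(r H rᴴ) - |r|² = |p a + z̄ b|² + |z a + q b|²`-type identity (`H² = tr H · H - 1`, so `r H rᴴ tr H = r H² rᴴ + r rᴴ`, `r H² rᴴ = |r H|² ≥ 0`). So `|r|² ≤ M · r H rᴴ`.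
Hence all entries of `g` are bounded: `norm` of the entries (in `O2`) is `≤ M²`: finitely many `g : SL(2, O2)` (`fin_pair` with `u = (1,0)`, `u' = (0,1)`), so finitely many elements of `Γ.map slC`.
-/

private theorem D1_cont_hvv : Continuous hvv := by
  have h1 : Continuous (fun H : H3 => H.1) := continuous_subtype_val
  have h2 : ∀ i j : Fin 2, Continuous (fun H : H3 => H.1 i j) := fun i j => h1.matrix_elem i j
  apply continuous_pi
  intro i
  fin_cases i
  · exact Complex.continuous_re.comp (h2 0 0)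
  · exact Complex.continuous_re.comp (h2 1 1)
  · exact Complex.continuous_re.comp (h2 0 1)
  · exact (Complex.continuous_im.comp (h2 0 1)).div_const _

private theorem D1_pos_one {v : HV} (hv : v ∈ PP) : 0 < v 1 := by
  have h0 := hv.1
  have h1 := hv.2
  unfold qd at h1
  by_contra h
  have h' : v 1 ≤ 0 := not_lt.1 h
  nlinarith [sq_nonneg (v 2), sq_nonneg (v 3), mul_nonneg h0.le (neg_nonneg.2 h')]

private theorem D1_ineq (v : HV) (hv : v ∈ PP) (h1 : qd v = 1) (g : SL(2, O2)) :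
    (((mulV g (1, 0)).1.norm : ℝ) + ((mulV g (1, 0)).2.norm : ℝ)) +
      (((mulV g (0, 1)).1.norm : ℝ) + ((mulV g (0, 1)).2.norm : ℝ)) ≤
    (v 0 + v 1) * (rho (slC g) v 0 + rho (slC g) v 1) := by
  have hp := hv.1
  have hq := D1_pos_one hv
  set T := v 0 + v 1 with hT
  have hT0 : 0 < T := by positivity
  set t := T⁻¹ with ht
  have ht0 : 0 < t := inv_pos.2 hT0
  have htT : t * T = 1 := inv_mul_cancel₀ hT0.ne'
  set w : HV := v - t • (NR (1, 0) + NR (0, 1)) with hw
  have w0 : w 0 = v 0 - t := by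
    simp [hw, NR, nv, Zsqrtd.norm_def]
  have w1 : w 1 = v 1 - t := by
    simp [hw, NR, nv, Zsqrtd.norm_def]
  have w2 : w 2 = v 2 := by
    simp [hw, NR, nv]
  have w3 : w 3 = v 3 := by
    simp [hw, NR, nv]
  have hwP : w ∈ PP := by
    unfold qd at h1
    refine ⟨?_, ?_⟩
    · rw [w0]
      have h2 : 1 ≤ v 0 * v 1 := by nlinarith [sq_nonneg (v 2), sq_nonneg (v 3)]
      have h3 : 1 < v 0 * T := by rw [hT]; nlinarith
      have h4 : t * 1 < t * (v 0 * T) := mul_lt_mul_of_pos_left h3 ht0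
      have h5 : t * (v 0 * T) = v 0 := by
        calc t * (v 0 * T) = v 0 * (t * T) := by ring
          _ = v 0 := by rw [htT, mul_one]
      linarith
    · unfold qd
      rw [w0, w1, w2, w3]
      have : (v 0 - t) * (v 1 - t) - v 2 ^ 2 - 2 * v 3 ^ 2 = 1 - t * T + t ^ 2 := by
        rw [hT]; linarith
      rw [this, htT]
      positivity
  have hgP := PP_rho (slC g) hwP
  have e : rho (slC g) w = rho (slC g) v - t • (NR (mulV g (1, 0)) + NR (mulV g (0, 1))) := by
    rw [hw, map_sub, map_smul, map_add, rho_NR, rho_NR]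
  have g0 := hgP.1
  have g1 := D1_pos_one hgP
  rw [e] at g0 g1
  have n0 : (rho (slC g) v - t • (NR (mulV g (1, 0)) + NR (mulV g (0, 1)))) 0 =
      rho (slC g) v 0 - t * (((mulV g (1, 0)).1.norm : ℝ) + ((mulV g (0, 1)).1.norm : ℝ)) := by
    simp [NR, nv]
    ring
  have n1 : (rho (slC g) v - t • (NR (mulV g (1, 0)) + NR (mulV g (0, 1)))) 1 =
      rho (slC g) v 1 - t * (((mulV g (1, 0)).2.norm : ℝ) + ((mulV g (0, 1)).2.norm : ℝ)) := by
    simp [NR, nv]
    ring
  rw [n0] at g0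
  rw [n1] at g1
  set a : ℝ := ((mulV g (1, 0)).1.norm : ℝ)
  set b : ℝ := ((mulV g (1, 0)).2.norm : ℝ)
  set c : ℝ := ((mulV g (0, 1)).1.norm : ℝ)
  set d : ℝ := ((mulV g (0, 1)).2.norm : ℝ)
  have h6 : t * (a + b + (c + d)) ≤ rho (slC g) v 0 + rho (slC g) v 1 := by linarith
  have h7 : T * (t * (a + b + (c + d))) ≤ T * (rho (slC g) v 0 + rho (slC g) v 1) :=
    mul_le_mul_of_nonneg_left h6 hT0.le
  have h8 : T * (t * (a + b + (c + d))) = a + b + (c + d) := by
    calc T * (t * (a + b + (c + d))) = (t * T) * (a + b + (c + d)) := by ring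
      _ = _ := by rw [htT, one_mul]
  rw [h8] at h7
  exact h7

private theorem D1_norm_nonneg (z : O2) : (0 : ℝ) ≤ (z.norm : ℝ) := by
  have : 0 ≤ z.norm := by
    rw [Zsqrtd.norm_def]
    nlinarith [mul_self_nonneg z.re, mul_self_nonneg z.im]
  exact_mod_cast this

theorem propDisc (Γ : Subgroup SL(2, O2)) : ProperlyDiscontinuousSMul (Γ.map slC) H3 := by
  constructor
  intro K L hK hL
  have hc : Continuous (fun H : H3 => hvv H 0 + hvv H 1) :=
    ((continuous_apply 0).comp D1_cont_hvv).add ((continuous_apply 1).comp D1_cont_hvv)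
  obtain ⟨M, hM⟩ := (hK.image hc).bddAbove
  obtain ⟨N, hN⟩ := (hL.image hc).bddAbove
  have hfin := fin_pair (1, 0) (0, 1) (by simp [dt]) (M * N)
  apply ((hfin.image slC).preimage (f := fun γ : Γ.map slC => γ.1) Subtype.val_injective.injOn).subset
  rintro ⟨γ, hγ⟩ hne
  obtain ⟨g, hg, rfl⟩ := Subgroup.mem_map.1 hγ
  refine ⟨g, ?_, rfl⟩
  obtain ⟨H', ⟨H, hHK, hHH⟩, hHL⟩ := hne
  have hHH' : slC g • H = H' := hHH
  subst hHH'
  have hb1 : hvv H 0 + hvv H 1 ≤ M := hM ⟨H, hHK, rfl⟩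
  have hb2 : hvv (slC g • H) 0 + hvv (slC g • H) 1 ≤ N := hN ⟨_, hHL, rfl⟩
  rw [hvv_smul] at hb2
  have hin := D1_ineq (hvv H) (hvv_mem H) (qd_hvv H) g
  have hp0 := (hvv_mem H).1
  have hp1 := D1_pos_one (hvv_mem H)
  have hr0 := (PP_rho (slC g) (hvv_mem H)).1
  have hr1 := D1_pos_one (PP_rho (slC g) (hvv_mem H))
  have hMN : (hvv H 0 + hvv H 1) * (rho (slC g) (hvv H) 0 + rho (slC g) (hvv H) 1) ≤ M * N :=
    mul_le_mul hb1 hb2 (by linarith) (by linarith)
  have na := D1_norm_nonneg (mulV g (1, 0)).1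
  have nb := D1_norm_nonneg (mulV g (1, 0)).2
  have nc := D1_norm_nonneg (mulV g (0, 1)).1
  have nd := D1_norm_nonneg (mulV g (0, 1)).2
  constructor
  · linarith
  · linarith

end Pool.AML.HH
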