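import Pool.Agent.AML.H.Edef
set_option linter.style.longLine false
open Matrix Topology
open scoped MatrixGroups

namespace Pool.AML.HH

/-!
Row AMH-E1 (rounding). `O2 = ℤ√(-2)`, `norm z = z.re^2 + 2 z.im^2 ≥ 0` (see `Zsqrtd.norm_def`,
`Zsqrtd.norm_mul`, `Zsqrtd.norm_eq_mul_conj`).

Proofs. Write `n = c.norm > 0` (`norm c = 0 ↔ c = 0` since `re^2+2im^2 = 0`), `z = a * star c`.
`rd_add`: `(a+t c) star c = z + t n` (as `c * star c = n`), so `re ↦ z.re + t.re n`,
`(2 (z.re + t.re n) + n)/(2n) = (2 z.re + n)/(2n) + t.re` by `Int.add_mul_ediv_right`.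
`rd_neg`: `(-a) star (-c) = a star c`, `norm (-c) = norm c`.
`rd_lt`: with `r = rd a c`: `2 z.re + n = 2 n r.re + ρ`, `0 ≤ ρ < 2n` (`Int.emod_nonneg`, `Int.ediv_add_emod`), so
`|2 (z.re - n r.re)| ≤ n`, same for `im`; `norm((a - r c) star c) = norm(z - r n) = (z.re - n r.re)^2 + 2 (z.im - n r.im)^2 ≤ 3n²/4 < n²`
and `norm ((a - r c) * star c) = norm (a - r c) * n`; divide by `n`.
`rd_zero`: if `-n ≤ 2 z.re < n` and `-n ≤ 2 z.im < n` then both quotients are `0` (`Int.ediv_eq_zero_of_lt`).
-/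

theorem norm_pos_of_ne (c : O2) (hc : c ≠ 0) : 0 < c.norm := by
  rw [Zsqrtd.norm_def]
  by_contra h
  have h1 : c.re * c.re + 2 * (c.im * c.im) ≤ 0 := by linarith
  have h2 : 0 ≤ c.re * c.re := mul_self_nonneg _
  have h3 : 0 ≤ c.im * c.im := mul_self_nonneg _
  have h4 : c.re = 0 := by
    have : c.re * c.re = 0 := by linarith
    exact mul_self_eq_zero.1 this
  have h5 : c.im = 0 := by
    have : c.im * c.im = 0 := by linarith
    exact mul_self_eq_zero.1 this
  exact hc (Zsqrtd.ext h4 h5)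

private theorem e1_cc (c : O2) : c * star c = (c.norm : O2) := (Zsqrtd.norm_eq_mul_conj c).symm

theorem rd_add (a c t : O2) (hc : c ≠ 0) : rd (a + t * c) c = rd a c + t := by
  have hn := norm_pos_of_ne c hc
  have h1 : (a + t * c) * star c = a * star c + t * (c.norm : O2) := by
    rw [← e1_cc]
    ring
  have h2 : ((a + t * c) * star c).re = (a * star c).re + t.re * c.norm := by
    rw [h1]
    simp [Zsqrtd.re_add, Zsqrtd.re_mul]
  have h3 : ((a + t * c) * star c).im = (a * star c).im + t.im * c.norm := by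
    rw [h1]
    simp [Zsqrtd.im_add, Zsqrtd.im_mul]
  have hne : 2 * c.norm ≠ 0 := by omega
  apply Zsqrtd.ext
  · change (2 * ((a + t * c) * star c).re + c.norm) / (2 * c.norm) =
      (2 * (a * star c).re + c.norm) / (2 * c.norm) + t.re
    rw [h2, ← Int.add_mul_ediv_right _ _ hne]
    congr 1
    ring
  · change (2 * ((a + t * c) * star c).im + c.norm) / (2 * c.norm) =
      (2 * (a * star c).im + c.norm) / (2 * c.norm) + t.im
    rw [h3, ← Int.add_mul_ediv_right _ _ hne]
    congr 1
    ring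

theorem rd_neg (a c : O2) : rd (-a) (-c) = rd a c := by
  have h1 : -a * star (-c) = a * star c := by
    rw [star_neg]
    ring
  have h2 : (-c).norm = c.norm := Zsqrtd.norm_neg c
  unfold rd
  rw [h1, h2]

private theorem e1_rem (z n : ℤ) (hn : 0 < n) :
    4 * (z - n * ((2 * z + n) / (2 * n))) ^ 2 ≤ n ^ 2 := by
  have h1 := Int.emod_nonneg (2 * z + n) (show 2 * n ≠ 0 by omega)
  have h2 := Int.emod_lt_of_pos (2 * z + n) (show 0 < 2 * n by omega)
  have h3 := Int.mul_ediv_add_emod (2 * z + n) (2 * n)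
  set r := (2 * z + n) / (2 * n) with hr
  set m := (2 * z + n) % (2 * n) with hm
  have h4 : 2 * (z - n * r) = m - n := by linarith
  have h5 : -n ≤ m - n := by linarith
  have h6 : m - n ≤ n := by linarith
  have h7 : 4 * (z - n * r) ^ 2 = (m - n) ^ 2 := by
    rw [← h4]
    ring
  rw [h7]
  exact sq_le_sq' h5 h6

theorem rd_lt (a c : O2) (hc : c ≠ 0) : (a - rd a c * c).norm < c.norm := by
  have hn := norm_pos_of_ne c hc
  have h1 : (a - rd a c * c) * star c = a * star c - rd a c * (c.norm : O2) := by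
    rw [← e1_cc]
    ring
  have h2 : (a - rd a c * c).norm * c.norm = (a * star c - rd a c * (c.norm : O2)).norm := by
    rw [← h1, Zsqrtd.norm_mul, Zsqrtd.norm_conj]
  have h3 : (a * star c - rd a c * (c.norm : O2)).re =
      (a * star c).re - c.norm * ((2 * (a * star c).re + c.norm) / (2 * c.norm)) := by
    rw [Zsqrtd.re_sub, Zsqrtd.re_mul]
    simp [rd, mul_comm]
  have h4 : (a * star c - rd a c * (c.norm : O2)).im =
      (a * star c).im - c.norm * ((2 * (a * star c).im + c.norm) / (2 * c.norm)) := by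
    rw [Zsqrtd.im_sub, Zsqrtd.im_mul]
    simp [rd, mul_comm]
  rw [Zsqrtd.norm_def (a * star c - rd a c * (c.norm : O2)), h3, h4] at h2
  have h5 := e1_rem (a * star c).re c.norm hn
  have h6 := e1_rem (a * star c).im c.norm hn
  set N := c.norm
  set M := (a - rd a c * c).norm
  by_contra hlt
  push Not at hlt
  have h7 : N * N ≤ M * N := mul_le_mul_of_nonneg_right hlt hn.le
  have h8 : 0 < N * N := mul_pos hn hn
  nlinarith

/-- the rounding equals `(x, y)` as soon as `a * star c` lies in the corresponding box. -/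
theorem rd_eq (a c : O2) (hc : c ≠ 0) (x y : ℤ)
    (h1 : (2 * x - 1) * c.norm ≤ 2 * (a * star c).re) (h2 : 2 * (a * star c).re < (2 * x + 1) * c.norm)
    (h3 : (2 * y - 1) * c.norm ≤ 2 * (a * star c).im) (h4 : 2 * (a * star c).im < (2 * y + 1) * c.norm) :
    rd a c = ⟨x, y⟩ := by
  have hn := norm_pos_of_ne c hc
  have key : ∀ z w : ℤ, (2 * w - 1) * c.norm ≤ 2 * z → 2 * z < (2 * w + 1) * c.norm →
      (2 * z + c.norm) / (2 * c.norm) = w := by
    intro z w ha hb
    apply le_antisymm
    · apply Int.lt_add_one_iff.1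
      apply Int.ediv_lt_of_lt_mul (by omega)
      nlinarith
    · apply Int.le_ediv_of_mul_le (by omega)
      nlinarith
  apply Zsqrtd.ext
  · exact key _ _ h1 h2
  · exact key _ _ h3 h4

end Pool.AML.HH
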