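import Pool.Agent.AML.H.E1
set_option linter.style.longLine false
open Matrix Topology
open scoped MatrixGroups

namespace Pool.AML.HH

/-!
Row AMH-E2 (existence of the normal form map). Define by recursion on the fuel `n`
`F 0 M = 1`, `F (n+1) M = if M.1 1 0 = 0 then tw A U (M.1 0 0 * M.1 0 1) else tw A U q * B * F n (Sm⁻¹ * (Tm (-q) * M))`,
`q = rd (M.1 0 0) (M.1 1 0)`, and `f M = F ((M.1 1 0).norm.natAbs + 1) M`.
The lower left entry of `Sm⁻¹ * (Tm (-q) * M)` is `-(a - q c)` or `(a - q c)` up to sign (compute with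
`Matrix.mul_fin_two`, `Sm⁻¹ = (0 1; -1 0)`), its norm is `< norm c` by `rd_lt`. By induction on `n`:
`F n M = F m M` for all `n, m > norm(c).natAbs`. Then `succ` follows.
(Alternatively: well founded recursion with `termination_by (M.1 1 0).norm.natAbs`.)
-/

/-- fuel version of the normal form map. -/
noncomputable def FpiE2 {G : Type*} [Group G] (A B U : G) : ℕ → SL(2, O2) → G
  | 0, _ => 1
  | n + 1, M => open Classical in if M.1 1 0 = 0 then tw A U (M.1 0 0 * M.1 0 1) else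
      tw A U (rd (M.1 0 0) (M.1 1 0)) * B *
        FpiE2 A B U n (Sm⁻¹ * (Tm (-(rd (M.1 0 0) (M.1 1 0))) * M))

theorem Sm_inv_entriesE2 (q : O2) (M : SL(2, O2)) :
    (Sm⁻¹ * (Tm (-q) * M)).1 1 0 = -(M.1 0 0 - q * M.1 1 0) := by
  have h : (Sm⁻¹ * (Tm (-q) * M)).1 = Sm⁻¹.1 * ((Tm (-q)).1 * M.1) := rfl
  rw [h, Matrix.SpecialLinearGroup.coe_inv]
  simp only [Sm, Tm, Matrix.mul_apply, Fin.sum_univ_two, Matrix.adjugate_fin_two]
  simp
  ring

theorem step_ltE2 (M : SL(2, O2)) (hc : M.1 1 0 ≠ 0) :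
    ((Sm⁻¹ * (Tm (-(rd (M.1 0 0) (M.1 1 0))) * M)).1 1 0).norm.natAbs < (M.1 1 0).norm.natAbs := by
  rw [Sm_inv_entriesE2]
  have h1 := rd_lt (M.1 0 0) (M.1 1 0) hc
  rw [Zsqrtd.norm_neg]
  have h3 : 0 ≤ (M.1 0 0 - rd (M.1 0 0) (M.1 1 0) * M.1 1 0).norm :=
    Zsqrtd.norm_nonneg (by norm_num) _
  omega

theorem FpiE2_eq {G : Type*} [Group G] (A B U : G) : ∀ (k n m : ℕ) (M : SL(2, O2)),
    (M.1 1 0).norm.natAbs < k → k ≤ n → k ≤ m → FpiE2 A B U n M = FpiE2 A B U m M := by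
  intro k
  induction k with
  | zero => intro n m M h; omega
  | succ k ih =>
    intro n m M hk hn hm
    obtain ⟨n, rfl⟩ : ∃ n', n = n' + 1 := ⟨n - 1, by omega⟩
    obtain ⟨m, rfl⟩ : ∃ m', m = m' + 1 := ⟨m - 1, by omega⟩
    simp only [FpiE2]
    by_cases hc : M.1 1 0 = 0
    · simp [hc]
    · rw [if_neg hc, if_neg hc]
      rw [ih n m _ (lt_of_lt_of_le (step_ltE2 M hc) (by omega)) (by omega) (by omega)]

theorem exists_pi {G : Type*} [Group G] (A B U : G) : ∃ f : SL(2, O2) → G, IsPi A B U f := by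
  refine ⟨fun M => FpiE2 A B U ((M.1 1 0).norm.natAbs + 1) M, ?_, ?_⟩
  · intro M hM
    simp [FpiE2, hM]
  · intro M hM
    have h1 := step_ltE2 M hM
    change FpiE2 A B U ((M.1 1 0).norm.natAbs + 1) M = _
    rw [FpiE2, if_neg hM]
    congr 1
    exact FpiE2_eq A B U _ _ _ _ (Nat.lt_succ_self _) (by omega) le_rfl

end Pool.AML.HH
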