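import Pool.Agent.AML.H.E1
set_option linter.style.longLine false
open Matrix Topology
open scoped MatrixGroups

namespace Pool.AML.HH

/-!
Row AMH-E3 (equivariance of the normal form map).

`tw_add`: `A`, `U` commute, so `A^(x+x') U^(y+y') = A^x U^y A^x' U^y'` (`Commute.zpow_zpow`).
`pi_T`: `Tm t * M` has the same second row `(c, d)` and first row `(a + t c, b + t d)`.
 If `c = 0`: `a d = 1`, `d = a` is `±1` (`a * d = 1` in `O2`: `norm a * norm d = 1`, so `norm a = 1`, `a.re = ±1`, `a.im = 0`),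
 `(a)(b + t d) = a b + t` and `tw_add`. If `c ≠ 0`: `rd (a + t c) c = rd a c + t` (`rd_add`) and
 `Tm (-(q + t)) * (Tm t * M) = Tm (-q) * M`; `tw_add`.
`pi_neg`: strong induction on `norm(c).natAbs` : if `c = 0` then `(-a)(-b) = a b`; if `c ≠ 0` then `rd (-a) (-c) = rd a c` (`rd_neg`),
 `Sm⁻¹ * (Tm (-q) * (-M)) = -(Sm⁻¹ * (Tm (-q) * M))` whose lower left entry has norm `< norm c` (`rd_lt`).
-/

theorem tw_add {G : Type*} [Group G] {A U : G} (hAU : A * U = U * A) (s t : O2) :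
    tw A U (s + t) = tw A U s * tw A U t := by
  have hc : Commute A U := hAU
  have h1 : A ^ t.re * U ^ s.im = U ^ s.im * A ^ t.re := (hc.zpow_zpow t.re s.im).eq
  simp only [tw, Zsqrtd.re_add, Zsqrtd.im_add, _root_.zpow_add]
  calc A ^ s.re * A ^ t.re * (U ^ s.im * U ^ t.im)
      = A ^ s.re * (A ^ t.re * U ^ s.im) * U ^ t.im := by simp only [mul_assoc]
    _ = A ^ s.re * (U ^ s.im * A ^ t.re) * U ^ t.im := by rw [h1]
    _ = _ := by simp only [mul_assoc]

/-- units of `ℤ[√-2]`. -/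
theorem unit_O2 {a d : O2} (h : a * d = 1) : (a = 1 ∧ d = 1) ∨ (a = -1 ∧ d = -1) := by
  have h1 : a.norm * d.norm = 1 := by rw [← Zsqrtd.norm_mul, h]; simp
  have ha : 0 ≤ a.norm := Zsqrtd.norm_nonneg (by norm_num) _
  have h2 : a.norm = 1 := by
    rcases Int.eq_one_or_neg_one_of_mul_eq_one h1 with h | h
    · exact h
    · omega
  rw [Zsqrtd.norm_def] at h2
  have him : a.im = 0 := by
    have : a.im * a.im < 1 := by nlinarith [mul_self_nonneg a.re, mul_self_nonneg a.im]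
    have h3 : a.im * a.im = 0 := le_antisymm (by omega) (mul_self_nonneg _)
    exact mul_self_eq_zero.1 h3
  rw [him] at h2
  have hre : a.re * a.re = 1 := by linarith
  rcases mul_self_eq_one_iff.1 hre with h4 | h4
  · left
    have : a = 1 := Zsqrtd.ext h4 him
    refine ⟨this, ?_⟩
    rw [this, one_mul] at h
    exact h
  · right
    have : a = -1 := Zsqrtd.ext (by simpa using h4) (by simpa using him)
    refine ⟨this, ?_⟩
    rw [this] at h
    linear_combination -h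

theorem det_O2E3 (M : SL(2, O2)) : M.1 0 0 * M.1 1 1 - M.1 0 1 * M.1 1 0 = 1 := by
  rw [← Matrix.det_fin_two]; exact M.2

/-- upper triangular elements. -/
theorem upper_O2 (M : SL(2, O2)) (h : M.1 1 0 = 0) :
    (M = Tm (M.1 0 0 * M.1 0 1) ∨ M = -Tm (M.1 0 0 * M.1 0 1)) := by
  have hd := det_O2E3 M
  rw [h, mul_zero, sub_zero] at hd
  rcases unit_O2 hd with ⟨h1, h2⟩ | ⟨h1, h2⟩
  · left
    apply Subtype.ext
    apply Matrix.ext
    intro i j
    fin_cases i <;> fin_cases j <;> simp [Tm, h, h1, h2]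
  · right
    apply Subtype.ext
    rw [Matrix.SpecialLinearGroup.coe_neg]
    apply Matrix.ext
    intro i j
    fin_cases i <;> fin_cases j <;> simp [Tm, h, h1, h2]

theorem Tm_mul_entriesE3 (t : O2) (M : SL(2, O2)) :
    (Tm t * M).1 0 0 = M.1 0 0 + t * M.1 1 0 ∧ (Tm t * M).1 0 1 = M.1 0 1 + t * M.1 1 1 ∧
    (Tm t * M).1 1 0 = M.1 1 0 ∧ (Tm t * M).1 1 1 = M.1 1 1 := by
  have h : (Tm t * M).1 = (Tm t).1 * M.1 := rfl
  rw [h]
  simp only [Tm, Matrix.mul_apply, Fin.sum_univ_two]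
  simp

theorem Tm_addE3 (s t : O2) : Tm (s + t) = Tm s * Tm t := by
  apply Subtype.ext
  have h : (Tm s * Tm t).1 = (Tm s).1 * (Tm t).1 := rfl
  rw [h]
  apply Matrix.ext
  intro i j
  fin_cases i <;> fin_cases j <;> simp [Tm, Matrix.mul_apply, Fin.sum_univ_two, add_comm]

theorem Tm_zeroE3 : Tm 0 = 1 := by
  apply Subtype.ext
  apply Matrix.ext
  intro i j
  fin_cases i <;> fin_cases j <;> simp [Tm]

theorem pi_T {G : Type*} [Group G] {A B U : G} (hAU : A * U = U * A) {f : SL(2, O2) → G}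
    (hf : IsPi A B U f) (t : O2) (M : SL(2, O2)) : f (Tm t * M) = tw A U t * f M := by
  obtain ⟨e1, e2, e3, e4⟩ := Tm_mul_entriesE3 t M
  by_cases hc : M.1 1 0 = 0
  · have hd := det_O2E3 M
    rw [hc, mul_zero, sub_zero] at hd
    rw [hf.zero M hc, hf.zero (Tm t * M) (by rw [e3, hc]), e1, e2, hc, mul_zero, add_zero, ← tw_add hAU]
    congr 1
    rcases unit_O2 hd with ⟨h1, h2⟩ | ⟨h1, h2⟩ <;> rw [h1, h2] <;> ring
  · rw [hf.succ M hc, hf.succ (Tm t * M) (by rw [e3]; exact hc), e1, e3, rd_add _ _ _ hc]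
    have h1 : Tm (-(rd (M.1 0 0) (M.1 1 0) + t)) * (Tm t * M) = Tm (-(rd (M.1 0 0) (M.1 1 0))) * M := by
      rw [← mul_assoc, ← Tm_addE3]
      congr 2
      ring
    rw [h1, add_comm, tw_add hAU]
    simp only [mul_assoc]

theorem lowerE3 (q : O2) (M : SL(2, O2)) :
    (Sm⁻¹ * (Tm (-q) * M)).1 1 0 = -(M.1 0 0 - q * M.1 1 0) := by
  have h : (Sm⁻¹ * (Tm (-q) * M)).1 = Sm⁻¹.1 * ((Tm (-q)).1 * M.1) := rfl
  rw [h, Matrix.SpecialLinearGroup.coe_inv]
  simp only [Sm, Tm, Matrix.mul_apply, Fin.sum_univ_two, Matrix.adjugate_fin_two]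
  simp
  ring

theorem step_ltE3 (M : SL(2, O2)) (hc : M.1 1 0 ≠ 0) :
    ((Sm⁻¹ * (Tm (-(rd (M.1 0 0) (M.1 1 0))) * M)).1 1 0).norm.natAbs < (M.1 1 0).norm.natAbs := by
  rw [lowerE3]
  have h1 := rd_lt (M.1 0 0) (M.1 1 0) hc
  rw [Zsqrtd.norm_neg]
  have h3 : 0 ≤ (M.1 0 0 - rd (M.1 0 0) (M.1 1 0) * M.1 1 0).norm :=
    Zsqrtd.norm_nonneg (by norm_num) _
  omega

theorem pi_negE3 {G : Type*} [Group G] {A B U : G} {f : SL(2, O2) → G}
    (hf : IsPi A B U f) : ∀ (n : ℕ) (M : SL(2, O2)), (M.1 1 0).norm.natAbs < n → f (-M) = f M := by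
  intro n
  induction n with
  | zero => intro M h; omega
  | succ n ih =>
    intro M hM
    have e : (-M).1 = -M.1 := Matrix.SpecialLinearGroup.coe_neg M
    by_cases hc : M.1 1 0 = 0
    · rw [hf.zero M hc, hf.zero (-M) (by rw [e]; simp [hc]), e]
      simp
    · rw [hf.succ M hc, hf.succ (-M) (by rw [e]; simp [hc]), e]
      simp only [Matrix.neg_apply]
      rw [rd_neg, mul_neg, mul_neg, ih _ (lt_of_lt_of_le (step_ltE3 M hc) (by omega))]

theorem pi_neg {G : Type*} [Group G] {A B U : G} {f : SL(2, O2) → G}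
    (hf : IsPi A B U f) (M : SL(2, O2)) : f (-M) = f M :=
  pi_negE3 hf _ M (Nat.lt_succ_self _)

end Pool.AML.HH
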