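import Pool.Agent.AML.H.E3
set_option linter.style.longLine false
open Matrix Topology
open scoped MatrixGroups

namespace Pool.AML.HH

/-! Row AMH-E4: the main claim `f (S M) = B f M`, by strong induction on `norm a + norm c`. -/

theorem Tm_col (t : O2) (M : SL(2, O2)) :
    (Tm t * M).1 0 0 = M.1 0 0 + t * M.1 1 0 ∧ (Tm t * M).1 1 0 = M.1 1 0 := by
  constructor <;> simp [Tm, Matrix.mul_apply, Fin.sum_univ_two]

theorem Sm_col (M : SL(2, O2)) :
    (Sm * M).1 0 0 = -M.1 1 0 ∧ (Sm * M).1 1 0 = M.1 0 0 := by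
  constructor <;> simp [Sm, Matrix.mul_apply, Fin.sum_univ_two]

theorem Sm_inv_val : (Sm⁻¹).1 = !![0, 1; -1, 0] := by
  change (Sm.1).adjugate = _
  rw [Sm, Matrix.adjugate_fin_two_of]
  simp

theorem Smi_col (M : SL(2, O2)) :
    (Sm⁻¹ * M).1 0 0 = M.1 1 0 ∧ (Sm⁻¹ * M).1 1 0 = -M.1 0 0 := by
  rw [sl_mul_val, Sm_inv_val]
  constructor <;> simp [Matrix.mul_apply, Fin.sum_univ_two]

theorem sl_neg_val (g : SL(2, O2)) : (-g).1 = -g.1 := rfl

theorem Sm_sq (M : SL(2, O2)) : Sm * (Sm * M) = -M := by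
  apply Subtype.ext
  rw [sl_neg_val, ← mul_assoc, sl_mul_val, sl_mul_val]
  apply Matrix.ext
  intro i j
  fin_cases i <;> fin_cases j <;> simp [Sm, Matrix.mul_apply, Fin.sum_univ_two]

/-- `S⁻¹ T(-e) S = ± T(e) S T(e)`. -/
theorem rel1 (e : ℤ) (he : e = 1 ∨ e = -1) (M : SL(2, O2)) :
    Sm⁻¹ * (Tm ⟨-e, 0⟩ * (Sm * M)) = Tm ⟨e, 0⟩ * (Sm * (Tm ⟨e, 0⟩ * M)) ∨
    Sm⁻¹ * (Tm ⟨-e, 0⟩ * (Sm * M)) = -(Tm ⟨e, 0⟩ * (Sm * (Tm ⟨e, 0⟩ * M))) := by
  rcases he with rfl | rfl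
  · left
    simp only [← mul_assoc]
    congr 1
    apply Subtype.ext
    simp only [sl_mul_val, Sm_inv_val]
    decide
  · right
    rw [← Sm_sq]
    simp only [← mul_assoc]
    congr 1
    apply Subtype.ext
    simp only [sl_mul_val, Sm_inv_val]
    decide

/-- `S⁻¹ T(-e w) S = T(-e w) S T(e w) S T(-e w)`. -/
theorem rel2 (e : ℤ) (he : e = 1 ∨ e = -1) (M : SL(2, O2)) :
    Sm⁻¹ * (Tm ⟨0, -e⟩ * (Sm * M)) =
      Tm ⟨0, -e⟩ * (Sm * (Tm ⟨0, e⟩ * (Sm * (Tm ⟨0, -e⟩ * M)))) := by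
  rcases he with rfl | rfl
  · simp only [← mul_assoc]
    congr 1
    apply Subtype.ext
    simp only [sl_mul_val, Sm_inv_val]
    decide
  · simp only [← mul_assoc]
    congr 1
    apply Subtype.ext
    simp only [sl_mul_val, Sm_inv_val]
    decide

section
variable {G : Type*} [Group G] {A B U : G}

theorem tw_re (e : ℤ) : tw A U ⟨e, 0⟩ = A ^ e := by simp [tw]
theorem tw_im (e : ℤ) : tw A U ⟨0, e⟩ = U ^ e := by simp [tw]

theorem Binv (hR : Rels A B U) : B⁻¹ = B := inv_eq_of_mul_eq_one_left hR.BB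

theorem wordA (hR : Rels A B U) (e : ℤ) (he : e = 1 ∨ e = -1) (g : G) :
    A ^ e * (B * (A ^ e * (B * (A ^ e * g)))) = B * g := by
  have h1 : A * B * A * B * A * B = 1 := by
    have := hR.AB
    simpa [pow_succ, mul_assoc] using this
  have hb := Binv hR
  rcases he with rfl | rfl
  · rw [zpow_one]
    have h2 : A * B * A * B * A = B⁻¹ := eq_inv_of_mul_eq_one_left h1
    rw [hb] at h2
    conv_rhs => rw [← h2]
    simp only [mul_assoc]
  · rw [_root_.zpow_neg_one]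
    have h2 : (A * B * A * B * A) = B⁻¹ := eq_inv_of_mul_eq_one_left h1
    have h3 : A⁻¹ * B⁻¹ * A⁻¹ * B⁻¹ * A⁻¹ = B := by
      have := congrArg (·⁻¹) h2
      simpa [_root_.mul_inv_rev, mul_assoc] using this
    rw [hb] at h3
    conv_rhs => rw [← h3]
    simp only [mul_assoc]

theorem wordU (hR : Rels A B U) (e : ℤ) (he : e = 1 ∨ e = -1) (g : G) :
    U ^ e * (B * (U ^ (-e) * (B * (U ^ e * (B * (U ^ (-e) * g)))))) = B * g := by
  have hb := Binv hR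
  -- B commutes with U B U⁻¹
  have h1 : B * U * B * U⁻¹ * B * U * B * U⁻¹ = 1 := by
    have := hR.UB
    simpa [pow_succ, mul_assoc] using this
  have hBB := hR.BB
  have h2 : U * B * U⁻¹ * B * U * B * U⁻¹ = B := by
    have : B * (U * B * U⁻¹ * B * U * B * U⁻¹) = B * B := by
      rw [hBB, ← h1]; simp only [mul_assoc]
    exact mul_left_cancel this
  rcases he with rfl | rfl
  · rw [zpow_one, _root_.zpow_neg_one]
    conv_rhs => rw [← h2]
    simp only [mul_assoc]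
  · rw [neg_neg, zpow_one, _root_.zpow_neg_one]
    -- U⁻¹ B U B U⁻¹ B U = B
    have h3 : U⁻¹ * B * U * B * U⁻¹ * B * U = B := by
      have h4 : B * U * B * U⁻¹ * B = U * B * U⁻¹ := by
        have := congrArg (fun x => B * x * (U * B⁻¹ * U⁻¹)) h2
        have h5 : B * (U * B * U⁻¹ * B * U * B * U⁻¹) * (U * B⁻¹ * U⁻¹) = B * U * B * U⁻¹ * B := by group
        have h6 : B * B * (U * B⁻¹ * U⁻¹) = U * B * U⁻¹ := by rw [hBB, hb]; group
        exact h5.symm.trans (this.trans h6)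
      have h7 : U⁻¹ * B * U * B * U⁻¹ * B * U = U⁻¹ * (B * U * B * U⁻¹ * B) * U := by group
      rw [h7, h4]; group
    conv_rhs => rw [← h3]
    simp only [mul_assoc]

/-- `f X = B f (S⁻¹ X)` if the rounding is zero. -/
theorem lemZ {f : SL(2, O2) → G} (hf : IsPi A B U f) (X : SL(2, O2)) (h : X.1 1 0 ≠ 0)
    (hr : rd (X.1 0 0) (X.1 1 0) = 0) : f X = B * f (Sm⁻¹ * X) := by
  rw [hf.succ X h, hr]
  have h1 : tw A U (0 : O2) = 1 := by simp [tw]
  have h2 : Tm (-0) * X = X := by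
    have : Tm (-0) = 1 := by
      apply Subtype.ext
      apply Matrix.ext
      intro i j
      fin_cases i <;> fin_cases j <;> simp [Tm]
    rw [this, one_mul]
  rw [h1, h2, one_mul]

theorem lemA (hR : Rels A B U) {f : SL(2, O2) → G} (hf : IsPi A B U f) (M : SL(2, O2))
    (e : ℤ) (he : e = 1 ∨ e = -1)
    (hN : f (Tm ⟨-e, 0⟩ * (Sm * M)) = B * f (Sm⁻¹ * (Tm ⟨-e, 0⟩ * (Sm * M))))
    (h1 : f (Sm * (Tm ⟨e, 0⟩ * M)) = B * f (Tm ⟨e, 0⟩ * M)) :
    f (Sm * M) = B * f M := by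
  have e0 : Sm * M = Tm ⟨e, 0⟩ * (Tm ⟨-e, 0⟩ * (Sm * M)) := by
    rw [← mul_assoc]
    have : Tm ⟨e, 0⟩ * Tm ⟨-e, 0⟩ = 1 := by
      rcases he with rfl | rfl <;> exact Subtype.ext (by decide)
    rw [this, one_mul]
  have e1 : f (Sm⁻¹ * (Tm ⟨-e, 0⟩ * (Sm * M))) = f (Tm ⟨e, 0⟩ * (Sm * (Tm ⟨e, 0⟩ * M))) := by
    rcases rel1 e he M with h | h
    · rw [h]
    · rw [h, pi_neg hf]
  rw [e0, pi_T hR.AU hf, hN, e1, pi_T hR.AU hf, h1, pi_T hR.AU hf, tw_re]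
  exact wordA hR e he (f M)

theorem lemB (hR : Rels A B U) {f : SL(2, O2) → G} (hf : IsPi A B U f) (M : SL(2, O2))
    (e : ℤ) (he : e = 1 ∨ e = -1)
    (hN : f (Tm ⟨0, -e⟩ * (Sm * M)) = B * f (Sm⁻¹ * (Tm ⟨0, -e⟩ * (Sm * M))))
    (h1 : f (Sm * (Tm ⟨0, e⟩ * (Sm * (Tm ⟨0, -e⟩ * M)))) =
      B * f (Tm ⟨0, e⟩ * (Sm * (Tm ⟨0, -e⟩ * M))))
    (h2 : f (Sm * (Tm ⟨0, -e⟩ * M)) = B * f (Tm ⟨0, -e⟩ * M)) :
    f (Sm * M) = B * f M := by
  have e0 : Sm * M = Tm ⟨0, e⟩ * (Tm ⟨0, -e⟩ * (Sm * M)) := by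
    rw [← mul_assoc]
    have : Tm ⟨0, e⟩ * Tm ⟨0, -e⟩ = 1 := by
      rcases he with rfl | rfl <;> exact Subtype.ext (by decide)
    rw [this, one_mul]
  rw [e0, pi_T hR.AU hf, hN, rel2 e he, pi_T hR.AU hf, h1, pi_T hR.AU hf, h2, pi_T hR.AU hf,
    tw_im, tw_im]
  exact wordU hR e he (f M)

end

/-! arithmetic -/

theorem nrm_eq (z : O2) : z.norm = z.re ^ 2 + 2 * z.im ^ 2 := by
  rw [Zsqrtd.norm_def]; ring

theorem star_re (z : O2) : (star z).re = z.re := rfl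
theorem star_im (z : O2) : (star z).im = -z.im := rfl

theorem wre (a c : O2) : (-c * star a).re = -(c.re * a.re + 2 * c.im * a.im) := by
  simp [Zsqrtd.re_mul]

theorem wim (a c : O2) : (-c * star a).im = -(c.im * a.re - c.re * a.im) := by
  simp [Zsqrtd.im_mul]; ring

theorem ar0 (a c : O2) : c.norm * a.norm = (-c * star a).re ^ 2 + 2 * (-c * star a).im ^ 2 := by
  rw [wre, wim, nrm_eq, nrm_eq]; ring

theorem ar1 (a c : O2) (e : ℤ) : (c + ⟨e, 0⟩ * a).norm * a.norm =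
    ((-c * star a).re - e * a.norm) ^ 2 + 2 * (-c * star a).im ^ 2 := by
  rw [wre, wim, nrm_eq, nrm_eq]
  simp only [Zsqrtd.re_add, Zsqrtd.im_add, Zsqrtd.re_mul, Zsqrtd.im_mul]
  ring

theorem ar2 (a c : O2) (e : ℤ) : (a + ⟨e, 0⟩ * c).norm * a.norm =
    (a.norm - e * (-c * star a).re) ^ 2 + 2 * (e * (-c * star a).im) ^ 2 := by
  rw [wre, wim, nrm_eq, nrm_eq]
  simp only [Zsqrtd.re_add, Zsqrtd.im_add, Zsqrtd.re_mul, Zsqrtd.im_mul]
  ring

theorem ar3 (a c : O2) (e : ℤ) : (c + ⟨0, e⟩ * a).norm * a.norm =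
    (-c * star a).re ^ 2 + 2 * ((-c * star a).im - e * a.norm) ^ 2 := by
  rw [wre, wim, nrm_eq, nrm_eq]
  simp only [Zsqrtd.re_add, Zsqrtd.im_add, Zsqrtd.re_mul, Zsqrtd.im_mul]
  ring

theorem ar4 (a c : O2) (e : ℤ) : (a + ⟨0, -e⟩ * c).norm * a.norm =
    (a.norm - 2 * e * (-c * star a).im) ^ 2 + 2 * (e * (-c * star a).re) ^ 2 := by
  rw [wre, wim, nrm_eq, nrm_eq]
  simp only [Zsqrtd.re_add, Zsqrtd.im_add, Zsqrtd.re_mul, Zsqrtd.im_mul]
  ring

/-- size of a matrix. -/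
def nn (M : SL(2, O2)) : ℕ := ((M.1 0 0).norm + (M.1 1 0).norm).toNat

theorem nrm_nonneg (z : O2) : 0 ≤ z.norm := by rw [nrm_eq]; positivity

theorem nn_lt {M M' : SL(2, O2)} (h : (M'.1 0 0).norm + (M'.1 1 0).norm <
    (M.1 0 0).norm + (M.1 1 0).norm) : nn M' < nn M := by
  unfold nn
  have := nrm_nonneg (M'.1 0 0)
  have := nrm_nonneg (M'.1 1 0)
  omega

theorem nrm_neg (z : O2) : (-z).norm = z.norm := by simp [nrm_eq]

section
variable (a c : O2) (e : ℤ) (he : e = 1 ∨ e = -1) (hm : 0 < a.norm)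
include he hm

theorem ltA1 (h : (-c * star a).re ^ 2 + 2 * (-c * star a).im ^ 2 < 2 * e * a.norm * (-c * star a).re) :
    (a + ⟨e, 0⟩ * c).norm < a.norm := by
  refine lt_of_mul_lt_mul_right ?_ hm.le
  rw [ar2]
  rcases he with rfl | rfl <;> nlinarith

theorem ltA2 (h : a.norm < 2 * e * (-c * star a).re) : (c + ⟨e, 0⟩ * a).norm < c.norm := by
  refine lt_of_mul_lt_mul_right ?_ hm.le
  rw [ar1, ar0]
  rcases he with rfl | rfl <;> nlinarith

theorem ltB1 (h : 2 * ((-c * star a).re ^ 2 + 2 * (-c * star a).im ^ 2) < 4 * e * a.norm * (-c * star a).im) :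
    (a + ⟨0, -e⟩ * c).norm < a.norm := by
  refine lt_of_mul_lt_mul_right ?_ hm.le
  rw [ar4]
  rcases he with rfl | rfl <;> nlinarith

theorem ltB2 (h : (-c * star a).re ^ 2 + 2 * (-c * star a).im ^ 2 + a.norm ^ 2 <
    4 * e * a.norm * (-c * star a).im) :
    (c + ⟨0, e⟩ * a).norm + (a + ⟨0, -e⟩ * c).norm < a.norm + c.norm := by
  refine lt_of_mul_lt_mul_right ?_ hm.le
  rw [add_mul, add_mul, ar3, ar4, ar0 a c]
  rcases he with rfl | rfl <;> nlinarith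

theorem ltB3 (h : a.norm < 2 * e * (-c * star a).im) : (c + ⟨0, e⟩ * a).norm < c.norm := by
  refine lt_of_mul_lt_mul_right ?_ hm.le
  rw [ar3, ar0]
  rcases he with rfl | rfl <;> nlinarith

omit hm in
theorem colB : -c + ⟨0, e⟩ * (a + ⟨0, -e⟩ * c) = c + ⟨0, e⟩ * a := by
  rcases he with rfl | rfl
  · ext
    · simp [Zsqrtd.re_mul, Zsqrtd.im_mul]; ring
    · simp [Zsqrtd.re_mul, Zsqrtd.im_mul]; ring
  · ext
    · simp [Zsqrtd.re_mul, Zsqrtd.im_mul]; ring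
    · simp [Zsqrtd.re_mul, Zsqrtd.im_mul]; ring

end

theorem hN_of {G : Type*} [Group G] {B : G} {f : SL(2, O2) → G}
    (X : SL(2, O2)) (h : f (Sm * (Sm⁻¹ * X)) = B * f (Sm⁻¹ * X)) :
    f X = B * f (Sm⁻¹ * X) := by
  rw [← mul_assoc, mul_inv_cancel, one_mul] at h
  exact h

section main
variable {G : Type*} [Group G] {A B U : G} (hR : Rels A B U) {f : SL(2, O2) → G}
  (hf : IsPi A B U f)
include hR hf

theorem swapM (M : SL(2, O2)) (h : f (Sm * (Sm * M)) = B * f (Sm * M)) : f (Sm * M) = B * f M := by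
  rw [Sm_sq, pi_neg hf] at h
  rw [h, ← mul_assoc, hR.BB, one_mul]

/-- case `2 w2 = m`, `-m ≤ 2 w1 < m`. -/
theorem caseVI (M : SL(2, O2)) (hm : 0 < (M.1 0 0).norm)
    (h1 : -(M.1 0 0).norm ≤ 2 * (-M.1 1 0 * star (M.1 0 0)).re)
    (h2 : 2 * (-M.1 1 0 * star (M.1 0 0)).re < (M.1 0 0).norm)
    (h3 : 2 * (-M.1 1 0 * star (M.1 0 0)).im = (M.1 0 0).norm)
    (IH : ∀ M', nn M' < nn M → f (Sm * M') = B * f M') : f (Sm * M) = B * f M := by
  have ha0 : M.1 0 0 ≠ 0 := by intro h; rw [h] at hm; simp at hm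
  have e1 : (1 : ℤ) = 1 ∨ (1 : ℤ) = -1 := Or.inl rfl
  have c1 := Tm_col ⟨0, -1⟩ M
  have c2 := Sm_col (Tm ⟨0, -1⟩ * M)
  have c3 := Tm_col ⟨0, 1⟩ (Sm * (Tm ⟨0, -1⟩ * M))
  set a := M.1 0 0 with ha
  set c := M.1 1 0 with hc
  set w1 := (-c * star a).re with hw1
  set w2 := (-c * star a).im with hw2
  apply lemB hR hf M 1 e1
  · apply lemZ hf
    · rw [(Tm_col _ _).2, (Sm_col _).2]; exact ha0
    · rw [(Tm_col _ _).1, (Tm_col _ _).2, (Sm_col _).1, (Sm_col _).2]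
      change rd (-c + ⟨0, -1⟩ * a) a = 0
      have hre : ((-c + ⟨0, -1⟩ * a) * star a).re = w1 := by
        rw [hw1, add_mul, Zsqrtd.re_add, mul_assoc, ← Zsqrtd.norm_eq_mul_conj]
        simp [Zsqrtd.re_mul]
      have him : ((-c + ⟨0, -1⟩ * a) * star a).im = w2 - a.norm := by
        rw [hw2, add_mul, Zsqrtd.im_add, mul_assoc, ← Zsqrtd.norm_eq_mul_conj]
        simp [Zsqrtd.im_mul]; ring
      have := rd_eq (-c + ⟨0, -1⟩ * a) a ha0 0 0 (by rw [hre]; linarith) (by rw [hre]; linarith)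
        (by rw [him]; linarith) (by rw [him]; linarith)
      rw [this]; rfl
  · apply IH
    apply nn_lt
    rw [c3.1, c3.2, c2.1, c2.2, c1.1, c1.2, colB a c 1 e1]
    apply ltB2 a c 1 e1 hm
    change w1 ^ 2 + 2 * w2 ^ 2 + a.norm ^ 2 < 4 * 1 * a.norm * w2
    nlinarith
  · apply IH
    apply nn_lt
    rw [c1.1, c1.2]
    have : (a + ⟨0, -1⟩ * c).norm < a.norm := by
      apply ltB1 a c 1 e1 hm
      change 2 * (w1 ^ 2 + 2 * w2 ^ 2) < 4 * 1 * a.norm * w2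
      nlinarith
    linarith

theorem caseB (M : SL(2, O2)) (hm : 0 < (M.1 0 0).norm) (e : ℤ) (he : e = 1 ∨ e = -1)
    (hle : (M.1 1 0).norm ≤ (M.1 0 0).norm)
    (h3 : (M.1 0 0).norm < 2 * e * (-M.1 1 0 * star (M.1 0 0)).im)
    (IH : ∀ M', nn M' < nn M → f (Sm * M') = B * f M') : f (Sm * M) = B * f M := by
  have c1 := Tm_col ⟨0, -e⟩ M
  have c2 := Sm_col (Tm ⟨0, -e⟩ * M)
  have c3 := Tm_col ⟨0, e⟩ (Sm * (Tm ⟨0, -e⟩ * M))
  have hK := ar0 (M.1 0 0) (M.1 1 0)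
  set a := M.1 0 0 with ha
  set c := M.1 1 0 with hc
  set w1 := (-c * star a).re with hw1
  set w2 := (-c * star a).im with hw2
  have hK2 : w1 ^ 2 + 2 * w2 ^ 2 ≤ a.norm ^ 2 := by rw [← hK]; nlinarith
  have hK3 : a.norm * a.norm < a.norm * (2 * e * w2) := by nlinarith
  apply lemB hR hf M e he
  · apply hN_of
    apply IH
    apply nn_lt
    rw [(Smi_col _).1, (Smi_col _).2, (Tm_col _ _).1, (Tm_col _ _).2, (Sm_col _).1, (Sm_col _).2]
    have h5 : -(-c + ⟨0, -e⟩ * a) = c + ⟨0, e⟩ * a := by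
      ext <;> simp [Zsqrtd.re_mul, Zsqrtd.im_mul] <;> ring
    have := ltB3 a c e he hm h3
    change a.norm + (-(-c + ⟨0, -e⟩ * a)).norm < a.norm + c.norm
    rw [h5]
    linarith
  · apply IH
    apply nn_lt
    rw [c3.1, c3.2, c2.1, c2.2, c1.1, c1.2, colB a c e he]
    apply ltB2 a c e he hm
    change w1 ^ 2 + 2 * w2 ^ 2 + a.norm ^ 2 < 4 * e * a.norm * w2
    nlinarith
  · apply IH
    apply nn_lt
    rw [c1.1, c1.2]
    have : (a + ⟨0, -e⟩ * c).norm < a.norm := by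
      apply ltB1 a c e he hm
      change 2 * (w1 ^ 2 + 2 * w2 ^ 2) < 4 * e * a.norm * w2
      nlinarith
    linarith

theorem caseA (M : SL(2, O2)) (hm : 0 < (M.1 0 0).norm) (e : ℤ) (he : e = 1 ∨ e = -1)
    (hle : (M.1 1 0).norm ≤ (M.1 0 0).norm)
    (h3 : (M.1 0 0).norm < 2 * e * (-M.1 1 0 * star (M.1 0 0)).re)
    (IH : ∀ M', nn M' < nn M → f (Sm * M') = B * f M') : f (Sm * M) = B * f M := by
  have c1 := Tm_col ⟨e, 0⟩ M
  have hK := ar0 (M.1 0 0) (M.1 1 0)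
  set a := M.1 0 0 with ha
  set c := M.1 1 0 with hc
  set w1 := (-c * star a).re with hw1
  set w2 := (-c * star a).im with hw2
  have hK2 : w1 ^ 2 + 2 * w2 ^ 2 ≤ a.norm ^ 2 := by rw [← hK]; nlinarith
  have hK3 : a.norm * a.norm < a.norm * (2 * e * w1) := by nlinarith
  apply lemA hR hf M e he
  · apply hN_of
    apply IH
    apply nn_lt
    rw [(Smi_col _).1, (Smi_col _).2, (Tm_col _ _).1, (Tm_col _ _).2, (Sm_col _).1, (Sm_col _).2]
    have h5 : -(-c + ⟨-e, 0⟩ * a) = c + ⟨e, 0⟩ * a := by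
      ext <;> simp [Zsqrtd.re_mul, Zsqrtd.im_mul] <;> ring
    have := ltA2 a c e he hm h3
    change a.norm + (-(-c + ⟨-e, 0⟩ * a)).norm < a.norm + c.norm
    rw [h5]
    linarith
  · apply IH
    apply nn_lt
    rw [c1.1, c1.2]
    have : (a + ⟨e, 0⟩ * c).norm < a.norm := by
      apply ltA1 a c e he hm
      change w1 ^ 2 + 2 * w2 ^ 2 < 2 * e * a.norm * w1
      nlinarith
    linarith

/-- case `2 w1 = m`, `-m ≤ 2 w2 ≤ m`. -/
theorem caseVII (M : SL(2, O2)) (hm : 0 < (M.1 0 0).norm)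
    (h1 : -(M.1 0 0).norm ≤ 2 * (-M.1 1 0 * star (M.1 0 0)).im)
    (h2 : 2 * (-M.1 1 0 * star (M.1 0 0)).im ≤ (M.1 0 0).norm)
    (h3 : 2 * (-M.1 1 0 * star (M.1 0 0)).re = (M.1 0 0).norm)
    (IH : ∀ M', nn M' < nn M → f (Sm * M') = B * f M') : f (Sm * M) = B * f M := by
  have ha0 : M.1 0 0 ≠ 0 := by intro h; rw [h] at hm; simp at hm
  have e1 : (1 : ℤ) = 1 ∨ (1 : ℤ) = -1 := Or.inl rfl
  have c1 := Tm_col ⟨1, 0⟩ M
  have hK := ar0 (M.1 0 0) (M.1 1 0)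
  set a := M.1 0 0 with ha
  set c := M.1 1 0 with hc
  set w1 := (-c * star a).re with hw1
  set w2 := (-c * star a).im with hw2
  have hre : ((-c + ⟨-1, 0⟩ * a) * star a).re = w1 - a.norm := by
    rw [hw1, add_mul, Zsqrtd.re_add, mul_assoc, ← Zsqrtd.norm_eq_mul_conj]
    simp [Zsqrtd.re_mul]; ring
  have him : ((-c + ⟨-1, 0⟩ * a) * star a).im = w2 := by
    rw [hw2, add_mul, Zsqrtd.im_add, mul_assoc, ← Zsqrtd.norm_eq_mul_conj]
    simp [Zsqrtd.im_mul]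
  apply lemA hR hf M 1 e1
  · rcases lt_or_eq_of_le h2 with h2 | h2
    · apply lemZ hf
      · rw [(Tm_col _ _).2, (Sm_col _).2]; exact ha0
      · rw [(Tm_col _ _).1, (Tm_col _ _).2, (Sm_col _).1, (Sm_col _).2]
        change rd (-c + ⟨-1, 0⟩ * a) a = 0
        have := rd_eq (-c + ⟨-1, 0⟩ * a) a ha0 0 0 (by rw [hre]; linarith) (by rw [hre]; linarith)
          (by rw [him]; linarith) (by rw [him]; linarith)
        rw [this]; rfl
    · apply hN_of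
      have d1 : (Sm⁻¹ * (Tm ⟨-1, 0⟩ * (Sm * M))).1 0 0 = a := by
        rw [(Smi_col _).1, (Tm_col _ _).2, (Sm_col _).2]
      have d2 : (Sm⁻¹ * (Tm ⟨-1, 0⟩ * (Sm * M))).1 1 0 = -(-c + ⟨-1, 0⟩ * a) := by
        rw [(Smi_col _).2, (Tm_col _ _).1, (Sm_col _).1, (Sm_col _).2]
      have hnn : nn (Sm⁻¹ * (Tm ⟨-1, 0⟩ * (Sm * M))) = nn M := by
        unfold nn
        rw [d1, d2, nrm_neg]
        change (a.norm + (-c + ⟨-1, 0⟩ * a).norm).toNat = (a.norm + c.norm).toNat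
        have h6 : (-c + ⟨-1, 0⟩ * a).norm = c.norm := by
          have h7 : -(-c + ⟨-1, 0⟩ * a) = c + ⟨1, 0⟩ * a := by
            ext <;> simp [Zsqrtd.re_mul, Zsqrtd.im_mul] <;> ring
          rw [← nrm_neg, h7]
          apply mul_right_cancel₀ hm.ne'
          rw [ar1, ar0]
          change (w1 - 1 * a.norm) ^ 2 + 2 * w2 ^ 2 = w1 ^ 2 + 2 * w2 ^ 2
          nlinarith
        rw [h6]
      apply caseVI hR hf
      · rw [d1]; exact hm
      · rw [d1, d2, neg_neg, hre]; linarith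
      · rw [d1, d2, neg_neg, hre]; linarith
      · rw [d1, d2, neg_neg, him]; exact h2
      · rw [hnn]; exact IH
  · apply IH
    apply nn_lt
    rw [c1.1, c1.2]
    have : (a + ⟨1, 0⟩ * c).norm < a.norm := by
      apply ltA1 a c 1 e1 hm
      change w1 ^ 2 + 2 * w2 ^ 2 < 2 * 1 * a.norm * w1
      nlinarith [mul_nonneg (sub_nonneg.2 h2) (by linarith : (0 : ℤ) ≤ 2 * w2 + a.norm)]
    linarith

theorem mainM (M : SL(2, O2)) (hm : 0 < (M.1 0 0).norm) (hle : (M.1 1 0).norm ≤ (M.1 0 0).norm)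
    (IH : ∀ M', nn M' < nn M → f (Sm * M') = B * f M') : f (Sm * M) = B * f M := by
  have ha0 : M.1 0 0 ≠ 0 := by intro h; rw [h] at hm; simp at hm
  by_cases h1 : (M.1 0 0).norm < 2 * (-M.1 1 0 * star (M.1 0 0)).im
  · exact caseB hR hf M hm 1 (Or.inl rfl) hle (by linarith) IH
  by_cases h2 : (M.1 0 0).norm < -(2 * (-M.1 1 0 * star (M.1 0 0)).im)
  · exact caseB hR hf M hm (-1) (Or.inr rfl) hle (by linarith) IH
  by_cases h3 : (M.1 0 0).norm < 2 * (-M.1 1 0 * star (M.1 0 0)).re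
  · exact caseA hR hf M hm 1 (Or.inl rfl) hle (by linarith) IH
  by_cases h4 : (M.1 0 0).norm < -(2 * (-M.1 1 0 * star (M.1 0 0)).re)
  · exact caseA hR hf M hm (-1) (Or.inr rfl) hle (by linarith) IH
  by_cases h5 : 2 * (-M.1 1 0 * star (M.1 0 0)).re = (M.1 0 0).norm
  · exact caseVII hR hf M hm (by linarith) (by linarith) h5 IH
  by_cases h6 : 2 * (-M.1 1 0 * star (M.1 0 0)).im = (M.1 0 0).norm
  · refine caseVI hR hf M hm (by linarith) ?_ h6 IH
    push Not at h3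
    exact lt_of_le_of_ne h3 h5
  push Not at h1 h2 h3 h4
  have h7 := lt_of_le_of_ne h3 h5
  have h8 := lt_of_le_of_ne h1 h6
  have hZ := lemZ hf (Sm * M) (by rw [(Sm_col _).2]; exact ha0) (by
    rw [(Sm_col _).1, (Sm_col _).2]
    have := rd_eq (-M.1 1 0) (M.1 0 0) ha0 0 0 (by linarith) (by linarith) (by linarith)
      (by linarith)
    rw [this]; rfl)
  rw [hZ, ← mul_assoc Sm⁻¹, inv_mul_cancel, one_mul]

end main

theorem pi_S {G : Type*} [Group G] {A B U : G} (hR : Rels A B U) {f : SL(2, O2) → G}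
    (hf : IsPi A B U f) (M : SL(2, O2)) : f (Sm * M) = B * f M := by
  induction hn : nn M using Nat.strong_induction_on generalizing M with
  | _ n ih =>
    have IH : ∀ M', nn M' < nn M → f (Sm * M') = B * f M' := fun M' h => ih _ (hn ▸ h) M' rfl
    have hdet : M.1 0 0 * M.1 1 1 - M.1 0 1 * M.1 1 0 = 1 := by
      have := M.2
      rwa [Matrix.det_fin_two] at this
    have hpos : M.1 0 0 = 0 → 0 < (M.1 1 0).norm := by
      intro h0
      apply norm_pos_of_ne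
      intro h1
      rw [h0, h1] at hdet
      simp at hdet
    rcases le_total ((M.1 1 0).norm) ((M.1 0 0).norm) with hle | hle
    · refine mainM hR hf M ?_ hle IH
      by_cases h0 : M.1 0 0 = 0
      · have := hpos h0; linarith
      · exact norm_pos_of_ne _ h0
    · apply swapM hR hf
      have hnn : nn (Sm * M) = nn M := by
        unfold nn
        rw [(Sm_col _).1, (Sm_col _).2, nrm_neg, add_comm]
      refine mainM hR hf (Sm * M) ?_ ?_ (by rw [hnn]; exact IH)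
      · rw [(Sm_col _).1, nrm_neg]
        by_cases h1 : M.1 1 0 = 0
        · by_cases h0 : M.1 0 0 = 0
          · exact hpos h0
          · have := norm_pos_of_ne _ h0; linarith
        · exact norm_pos_of_ne _ h1
      · rw [(Sm_col _).1, (Sm_col _).2, nrm_neg]
        exact hle

end Pool.AML.HH
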