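import Pool.Agent.AML.H.E2
import Pool.Agent.AML.H.E4
set_option linter.style.longLine false
open Matrix Topology
open scoped MatrixGroups

namespace Pool.AML.HH

/-!
Row AMH-E5 (the homomorphism). `exists_pi` gives `f`. `f 1 = 1` (`IsPi.zero`). Multiplicativity
`f (g * M) = f g * f M` by strong induction on `(g.1 1 0).norm.natAbs`:
* `g.1 1 0 = 0`: `g = ± Tm b` (`upper_O2`), `f (g M) = tw b * f M` (`pi_T`, `pi_neg`) and `f g = tw b` (`M = 1`).
* else `g = Tm q * (Sm * g')` with `q = rd ..`, `g' = Sm⁻¹ * (Tm (-q) * g)`, `norm (g'.1 1 0) < norm (g.1 1 0)` (`rd_lt`);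
  `f (g M) = tw q * B * f (g' M)` by `pi_T`, `pi_S`; induction.
-/

theorem Tm_addE5 (s t : O2) : Tm (s + t) = Tm s * Tm t := by
  apply Subtype.ext
  have h : (Tm s * Tm t).1 = (Tm s).1 * (Tm t).1 := rfl
  rw [h]
  apply Matrix.ext
  intro i j
  fin_cases i <;> fin_cases j <;> simp [Tm, Matrix.mul_apply, Fin.sum_univ_two, add_comm]

theorem Tm_zeroE5 : Tm 0 = 1 := by
  apply Subtype.ext
  apply Matrix.ext
  intro i j
  fin_cases i <;> fin_cases j <;> simp [Tm]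

theorem lowerE5 (q : O2) (M : SL(2, O2)) :
    (Sm⁻¹ * (Tm (-q) * M)).1 1 0 = -(M.1 0 0 - q * M.1 1 0) := by
  have h : (Sm⁻¹ * (Tm (-q) * M)).1 = Sm⁻¹.1 * ((Tm (-q)).1 * M.1) := rfl
  rw [h, Matrix.SpecialLinearGroup.coe_inv]
  simp only [Sm, Tm, Matrix.mul_apply, Fin.sum_univ_two, Matrix.adjugate_fin_two]
  simp
  ring

theorem step_ltE5 (M : SL(2, O2)) (hc : M.1 1 0 ≠ 0) :
    ((Sm⁻¹ * (Tm (-(rd (M.1 0 0) (M.1 1 0))) * M)).1 1 0).norm.natAbs < (M.1 1 0).norm.natAbs := by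
  rw [lowerE5]
  have h1 := rd_lt (M.1 0 0) (M.1 1 0) hc
  rw [Zsqrtd.norm_neg]
  have h3 : 0 ≤ (M.1 0 0 - rd (M.1 0 0) (M.1 1 0) * M.1 1 0).norm :=
    Zsqrtd.norm_nonneg (by norm_num) _
  omega

theorem decE5 (q : O2) (g : SL(2, O2)) : g = Tm q * (Sm * (Sm⁻¹ * (Tm (-q) * g))) := by
  rw [mul_inv_cancel_left, ← mul_assoc, ← Tm_addE5, add_neg_cancel, Tm_zeroE5, one_mul]

theorem pi_mulE5 {G : Type*} [Group G] {A B U : G} (hR : Rels A B U) {f : SL(2, O2) → G}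
    (hf : IsPi A B U f) (h1 : f 1 = 1) : ∀ (n : ℕ) (g M : SL(2, O2)), (g.1 1 0).norm.natAbs < n →
      f (g * M) = f g * f M := by
  intro n
  induction n with
  | zero => intro g M h; omega
  | succ n ih =>
    intro g M hg
    by_cases hc : g.1 1 0 = 0
    · have hT : ∀ (t : O2) (M : SL(2, O2)), f (Tm t * M) = f (Tm t) * f M := by
        intro t M
        have h2 := pi_T hR.AU hf t 1
        rw [mul_one, h1, mul_one] at h2
        rw [pi_T hR.AU hf, h2]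
      rcases upper_O2 g hc with h | h
      · rw [h]
        exact hT _ M
      · rw [h, neg_mul, pi_neg hf, pi_neg hf]
        exact hT _ M
    · have h2 := ih (Sm⁻¹ * (Tm (-(rd (g.1 0 0) (g.1 1 0))) * g)) M (lt_of_lt_of_le (step_ltE5 g hc) (by omega))
      have h3 := decE5 (rd (g.1 0 0) (g.1 1 0)) g
      have h4 : f g = tw A U (rd (g.1 0 0) (g.1 1 0)) * (B * f (Sm⁻¹ * (Tm (-(rd (g.1 0 0) (g.1 1 0))) * g))) := by
        conv_lhs => rw [h3]
        rw [pi_T hR.AU hf, pi_S hR hf]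
      have h5 : f (g * M) = tw A U (rd (g.1 0 0) (g.1 1 0)) * (B * f ((Sm⁻¹ * (Tm (-(rd (g.1 0 0) (g.1 1 0))) * g)) * M)) := by
        conv_lhs => rw [h3]
        rw [mul_assoc, pi_T hR.AU hf, mul_assoc Sm, pi_S hR hf]
      rw [h5, h4, h2]
      simp only [mul_assoc]

/-- `PSL(2, ℤ[√-2])` has the presentation `⟨A, B, U | B², (AB)³, [A, U], (B U B U⁻¹)²⟩` (the direction needed). -/
theorem pi_hom {G : Type*} [Group G] {A B U : G} (hR : Rels A B U) :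
    ∃ f : SL(2, O2) →* G, f Sm = B ∧ f (-1) = 1 ∧ ∀ x y : ℤ, f (Tm ⟨x, y⟩) = A ^ x * U ^ y := by
  obtain ⟨f, hf⟩ := exists_pi A B U
  have h1 : f 1 = 1 := by
    rw [hf.zero 1 (by simp)]
    simp [tw]
  refine ⟨{ toFun := f, map_one' := h1, map_mul' := fun g M => pi_mulE5 hR hf h1 _ g M (Nat.lt_succ_self _) }, ?_, ?_, ?_⟩
  · change f Sm = B
    have := pi_S hR hf 1
    rwa [mul_one, h1, mul_one] at this
  · change f (-1) = 1
    rw [pi_neg hf, h1]
  · intro x y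
    change f (Tm ⟨x, y⟩) = A ^ x * U ^ y
    have := pi_T hR.AU hf ⟨x, y⟩ 1
    rwa [mul_one, h1, mul_one] at this

end Pool.AML.HH
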