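import Pool.Agent.AML.H.E5
set_option linter.style.longLine false
open Matrix Topology
open scoped MatrixGroups

namespace Pool.AML.HH

/-!
Row AMH-E6. Check `Rels P1 P0 P2` (`decide +kernel` after `Equiv.ext`/`Equiv.Perm.ext`: only powers 2, 3 and one inverse occur; `P2⁻¹` is the
permutation with the two lists exchanged) and apply `pi_hom`.
-/

private theorem e6_rels : Rels P1 P0 P2 where
  BB := by decide +kernel
  AB := by decide +kernel
  AU := by decide +kernel
  UB := by decide +kernel

theorem exists_isCos : ∃ f : SL(2, O2) →* Equiv.Perm (Fin 24), IsCos f := by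
  obtain ⟨f, h1, h2, h3⟩ := pi_hom e6_rels
  exact ⟨f, h1, h2, h3⟩

end Pool.AML.HH
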