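import Pool.Agent.AML.H.Cdef

/-!
# Side (H): the Euclidean normal form (definitions)
-/

set_option linter.style.longLine false

open Matrix Topology
open scoped MatrixGroups ComplexConjugate ComplexOrder

namespace Pool.AML.HH

/-- translation equivariant rounding of `a / c`. -/
def rd (a c : O2) : O2 :=
  ⟨(2 * (a * star c).re + c.norm) / (2 * c.norm), (2 * (a * star c).im + c.norm) / (2 * c.norm)⟩

/-- the element `A^x U^y` for `t = x + y √-2`. -/
def tw {G : Type*} [Group G] (A U : G) (t : O2) : G := A ^ t.re * U ^ t.im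

/-- recursion equations of the normal form map `M = T(q₁) S T(q₂) S ... ↦ A^.. U^.. B ...`. -/
structure IsPi {G : Type*} [Group G] (A B U : G) (f : SL(2, O2) → G) : Prop where
  zero : ∀ M : SL(2, O2), M.1 1 0 = 0 → f M = tw A U (M.1 0 0 * M.1 0 1)
  succ : ∀ M : SL(2, O2), M.1 1 0 ≠ 0 →
    f M = tw A U (rd (M.1 0 0) (M.1 1 0)) * B *
      f (Sm⁻¹ * (Tm (-(rd (M.1 0 0) (M.1 1 0))) * M))

/-- the relations of the presentation. -/
structure Rels {G : Type*} [Group G] (A B U : G) : Prop where
  BB : B * B = 1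
  AB : (A * B) ^ 3 = 1
  AU : A * U = U * A
  UB : (B * U * B * U⁻¹) ^ 2 = 1

end Pool.AML.HH
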