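import Pool.Agent.AML.H.Fdef
set_option linter.style.longLine false
open Matrix Topology
open scoped MatrixGroups ComplexConjugate ComplexOrder

namespace Pool.AML.HH

/-!
Row AMH-F1 (the map `W → H3`).
`SpW_mem`: `Sp p μ = Σ_j ν_j NR (uv p j)` with `ν = ![μ0 + μ1/2 + μ2/3, μ1/2 + μ2/3, μ2/3, μ3] ≥ 0` (unfold `Sp`, `E`).
`qd_sum4`: `qd (Sp p μ) = Σ_{j<k} ν_j ν_k norm (dt ..)`, all norms `≥ 1` (`num_dt`, `norm_one_le`). `W`: `μ1 + μ2 + μ3 = 1`, not (`μ0 = 0` and `μ3 = 1`).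
If `μ1 > 0` or `μ2 > 0` then `ν0, ν1 > 0`; else `μ3 = 1`, `μ0 > 0`, so `ν0, ν3 > 0`. In all cases `qd > 0` and coordinate `0` is `≥ ν0 * 1 > 0` (`uI = (1,0)`).
`fW_continuous`: `W` is a subtype of `Flag × (Fin 4 → ℝ)`; `Flag` is discrete (`Continuous` on `α × β` with `α` discrete: `continuous_..`, or: `w ↦ w.1.1` is locally constant);
`μ ↦ Sp p μ`, `qd`, `nrm` (`Real.sqrt` and `inv₀`, `qd ≠ 0`), `toM` are continuous; `Continuous.subtype_mk`.
-/

theorem F1_norm_nonneg (z : O2) : 0 ≤ z.norm := by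
  rw [Zsqrtd.norm_def]
  nlinarith [mul_self_nonneg z.re, mul_self_nonneg z.im]

theorem F1_Sp (p : Flag) (μ : Fin 4 → ℝ) : Sp p μ =
    ∑ j, (![μ 0 + μ 1 / 2 + μ 2 / 3, μ 1 / 2 + μ 2 / 3, μ 2 / 3, μ 3] : Fin 4 → ℝ) j •
      NR (uv p j) := by
  rw [Sp, Fin.sum_univ_four, Fin.sum_univ_four]
  ext i
  simp [E, uv]
  ring

theorem F1_pos {p : Flag} {ν : Fin 4 → ℝ} (hν : ∀ j, 0 ≤ ν j)
    (h : 0 < ν 0) (h' : 0 < ν 1 ∨ 0 < ν 3) : (∑ j, ν j • NR (uv p j)) ∈ PP := by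
  have e2 := qd_sum4 ν (uv p)
  obtain ⟨⟨a1, a2, a3, a4, a5, a6⟩, -⟩ := num_dt p
  have z : ∀ j k, (0 : ℝ) ≤ ((dt (uv p j) (uv p k)).norm : ℝ) := fun j k => by
    exact_mod_cast F1_norm_nonneg _
  have n1 : (1 : ℝ) ≤ ((dt (uv p 0) (uv p 1)).norm : ℝ) := by
    have := norm_one_le (dt (uv p 0) (uv p 1)) a1
    exact_mod_cast this
  have n3 : (1 : ℝ) ≤ ((dt (uv p 0) (uv p 3)).norm : ℝ) := by
    have := norm_one_le (dt (uv p 0) (uv p 3)) a3
    exact_mod_cast this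
  have t : ∀ j k, 0 ≤ ν j * ν k * ((dt (uv p j) (uv p k)).norm : ℝ) := fun j k =>
    mul_nonneg (mul_nonneg (hν j) (hν k)) (z j k)
  refine ⟨?_, ?_⟩
  · have e0 : (∑ j, ν j • NR (uv p j)) 0 = ∑ j, ν j * (((uv p j).1.norm : ℤ) : ℝ) := by
      simp [Finset.sum_apply, NR, nv]
    rw [e0, Fin.sum_univ_four]
    have hnn : ∀ j, 0 ≤ ν j * (((uv p j).1.norm : ℤ) : ℝ) := fun j =>
      mul_nonneg (hν j) (by exact_mod_cast F1_norm_nonneg _)
    have h0 : ν 0 * (((uv p 0).1.norm : ℤ) : ℝ) = ν 0 := by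
      have : (uv p 0).1.norm = 1 := by
        change (1 : O2).norm = 1
        exact Zsqrtd.norm_one
      rw [this]; simp
    rw [h0]
    linarith [hnn 1, hnn 2, hnn 3]
  · rw [e2]
    rcases h' with h' | h'
    · have : 0 < ν 0 * ν 1 * ((dt (uv p 0) (uv p 1)).norm : ℝ) :=
        mul_pos (mul_pos h h') (by linarith)
      linarith [t 0 2, t 0 3, t 1 2, t 1 3, t 2 3]
    · have : 0 < ν 0 * ν 3 * ((dt (uv p 0) (uv p 3)).norm : ℝ) :=
        mul_pos (mul_pos h h') (by linarith)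
      linarith [t 0 1, t 0 2, t 1 2, t 1 3, t 2 3]

theorem SpW_mem (w : W) : Sp w.1.1 w.1.2 ∈ PP := by
  obtain ⟨⟨p, μ⟩, h0, h1, h2⟩ := w
  simp only at h0 h1 h2 ⊢
  rw [F1_Sp]
  have a0 := h0 0
  have a1 := h0 1
  have a2 := h0 2
  have a3 := h0 3
  apply F1_pos
  · intro j
    fin_cases j <;> simp <;> linarith
  · change 0 < μ 0 + μ 1 / 2 + μ 2 / 3
    by_contra hc
    push Not at hc
    exact h2 ⟨by linarith, by linarith⟩
  · change 0 < μ 1 / 2 + μ 2 / 3 ∨ 0 < μ 3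
    by_contra hc
    push Not at hc
    linarith [hc.1, hc.2]

/-- the map from the flag simplices to hyperbolic space. -/
noncomputable def fW (w : W) : H3 := toH (Sp w.1.1 w.1.2) (SpW_mem w)

theorem F1_cont_Sp : Continuous fun x : Flag × (Fin 4 → ℝ) => Sp x.1 x.2 := by
  rw [continuous_prod_of_discrete_left]
  intro p
  simp only [Sp]
  fun_prop

theorem F1_cont_qd : Continuous qd := by
  unfold qd
  fun_prop

theorem F1_cont_toM : Continuous toM := by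
  refine continuous_matrix fun i j => ?_
  fin_cases i <;> fin_cases j <;> simp [toM] <;> fun_prop

theorem fW_continuous : Continuous fW := by
  have h1 : Continuous fun w : W => Sp w.1.1 w.1.2 :=
    F1_cont_Sp.comp continuous_subtype_val
  have h2 : Continuous fun w : W => Real.sqrt (qd (Sp w.1.1 w.1.2)) :=
    Real.continuous_sqrt.comp (F1_cont_qd.comp h1)
  have h3 : Continuous fun w : W => (Real.sqrt (qd (Sp w.1.1 w.1.2)))⁻¹ :=
    h2.inv₀ fun w => (Real.sqrt_pos.2 (SpW_mem w).2).ne'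
  have h4 : Continuous fun w : W => nrm (Sp w.1.1 w.1.2) := h3.smul h1
  exact Continuous.subtype_mk (F1_cont_toM.comp h4) _

end Pool.AML.HH
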