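import Pool.Agent.AML.H.F1
import Pool.Agent.AML.H.C1
set_option linter.style.longLine false
open Matrix Topology
open scoped MatrixGroups ComplexConjugate ComplexOrder

namespace Pool.AML.HH

/-!
Row AMH-F2. `cell_W`: `μ = co s v ≥ 0`, `v = rho (slC s.2) (Sp s.1 μ)` (`Sp_Lf`, `rho` of inverse). `c := μ1 + μ2 + μ3 > 0`: otherwise `v = μ0 • rho _ (NR uI)`,
`qd v = 0` (`qd_rho`). `w = (s.1, c⁻¹ • μ)`; it is in `W`: if `μ0 = 0` and `μ3 = c` then `μ1 = μ2 = 0`, `v = μ3 • rho _ (NR (uC _))`, `qd v = 0`.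
(`qd (c • NR u) = 0`: `qd (NR u) = norm u.1 * norm u.2 - norm (u.1 * star u.2) = 0`.)
`slC s.2 • fW w = toH v hv`: `hvv_inj`, `hvv_smul`, `hvv_toH`: `rho g (nrm (c⁻¹ • Sp p μ)) = nrm v`; `nrm (c • v) = nrm v` for `c > 0`, `nrm (rho g v) = rho g (nrm v)` (`qd_rho`).
`co_fW`: conversely `co (w.1.1, g) (hvv (slC g • fW w)) = k • w.1.2` with `k > 0` (`k = (√(qd (Sp ..)))⁻¹`; `co_mul`, `hvv_smul`, `hvv_toH`, `Lf_Sp`).
`step_eq`: `rho (slC gl) (Sp (fl p X) μ) = Sp p μ` if `μ_X = 0` (`gl_E`).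
-/

private theorem F2_qd_NR (c : ℝ) (u : O2 × O2) : qd (c • NR u) = 0 := by
  rw [qd_smul]
  have : qd (NR u) = 0 := by
    simp only [qd, NR, nv]
    simp [Zsqrtd.norm_def]
    ring
  rw [this, mul_zero]

private theorem F2_Sp_smul (p : Flag) (c : ℝ) (μ : Fin 4 → ℝ) : Sp p (c • μ) = c • Sp p μ := by
  rw [← Lf_symm, ← Lf_symm, map_smul]

private theorem F2_nrm_smul {c : ℝ} (hc : 0 < c) (v : HV) : nrm (c • v) = nrm v := by
  rw [nrm, nrm, qd_smul, Real.sqrt_mul (sq_nonneg c), Real.sqrt_sq hc.le, smul_smul]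
  congr 1
  rw [mul_inv]
  rw [mul_comm c⁻¹, mul_assoc, inv_mul_cancel₀ hc.ne', mul_one]

private theorem F2_rho_nrm (g : SL(2, ℂ)) (v : HV) : rho g (nrm v) = nrm (rho g v) := by
  rw [nrm, nrm, qd_rho, map_smul]

private theorem F2_rho_inv (g : SL(2, ℂ)) (v : HV) : rho g (rho g⁻¹ v) = v := by
  have : rho g (rho g⁻¹ v) = (rho g * rho g⁻¹) v := rfl
  rw [this, ← map_mul, mul_inv_cancel, map_one]
  rfl

private theorem F2_inv_rho (g : SL(2, ℂ)) (v : HV) : rho g⁻¹ (rho g v) = v := by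
  have : rho g⁻¹ (rho g v) = (rho g⁻¹ * rho g) v := rfl
  rw [this, ← map_mul, inv_mul_cancel, map_one]
  rfl

private theorem F2_rep (s : Flag × SL(2, O2)) (v : HV) : rho (slC s.2) (Sp s.1 (co s v)) = v := by
  rw [co, Sp_Lf, F2_rho_inv]

private theorem F2_qd_rep (s : Flag × SL(2, O2)) (v : HV) : qd (Sp s.1 (co s v)) = qd v := by
  rw [← qd_rho (slC s.2), F2_rep]

private theorem F2_Sp_zero {p : Flag} {μ : Fin 4 → ℝ} (h1 : μ 1 = 0) (h2 : μ 2 = 0) (h3 : μ 3 = 0) :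
    Sp p μ = μ 0 • NR uI := by
  simp [Sp, Fin.sum_univ_succ, E]
  have e1 : μ 1 = 0 := h1
  simp [h1, h2, h3]

private theorem F2_Sp_three {p : Flag} {μ : Fin 4 → ℝ} (h1 : μ 1 = 0) (h2 : μ 2 = 0) (h0 : μ 0 = 0) :
    Sp p μ = μ 3 • NR (uC p) := by
  simp [Sp, Fin.sum_univ_succ, E]
  simp [h1, h2, h0]

theorem cell_W {v : HV} (hv : v ∈ PP) {s : Flag × SL(2, O2)} (h : InC v s) :
    ∃ w : W, w.1.1 = s.1 ∧ slC s.2 • fW w = toH v hv ∧
      co s v = (co s v 1 + co s v 2 + co s v 3) • w.1.2 ∧ 0 < co s v 1 + co s v 2 + co s v 3 := by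
  have hq : 0 < qd (Sp s.1 (co s v)) := by rw [F2_qd_rep]; exact hv.2
  have hrep := F2_rep s v
  have h0 := h 0
  have h1 := h 1
  have h2 := h 2
  have h3 := h 3
  set μ := co s v with hμ
  have hc : 0 < μ 1 + μ 2 + μ 3 := by
    by_contra hc
    have e1 : μ 1 = 0 := by linarith
    have e2 : μ 2 = 0 := by linarith
    have e3 : μ 3 = 0 := by linarith
    rw [F2_Sp_zero e1 e2 e3, F2_qd_NR] at hq
    exact lt_irrefl _ hq
  set c := μ 1 + μ 2 + μ 3 with hcdef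
  have hc0 : c ≠ 0 := hc.ne'
  have hmem : (∀ i, 0 ≤ (c⁻¹ • μ) i) ∧ (c⁻¹ • μ) 1 + (c⁻¹ • μ) 2 + (c⁻¹ • μ) 3 = 1 ∧
      ¬ ((c⁻¹ • μ) 0 = 0 ∧ (c⁻¹ • μ) 3 = 1) := by
    refine ⟨?_, ?_, ?_⟩
    · intro i
      rw [Pi.smul_apply, smul_eq_mul]
      exact mul_nonneg (inv_pos.2 hc).le (h i)
    · simp only [Pi.smul_apply, smul_eq_mul]
      rw [← mul_add, ← mul_add, ← hcdef, inv_mul_cancel₀ hc0]
    · rintro ⟨a0, a3⟩
      simp only [Pi.smul_apply, smul_eq_mul] at a0 a3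
      have b0 : μ 0 = 0 := by
        rcases mul_eq_zero.1 a0 with h' | h'
        · exact absurd h' (inv_ne_zero hc0)
        · exact h'
      have b3 : μ 3 = c := by
        field_simp at a3
        exact a3
      have e1 : μ 1 = 0 := by linarith
      have e2 : μ 2 = 0 := by linarith
      rw [F2_Sp_three e1 e2 b0, F2_qd_NR] at hq
      exact lt_irrefl _ hq
  refine ⟨⟨(s.1, c⁻¹ • μ), hmem⟩, rfl, ?_, ?_, hc⟩
  · apply hvv_inj
    rw [hvv_smul, hvv_toH, fW, hvv_toH]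
    show rho (slC s.2) (nrm (Sp s.1 (c⁻¹ • μ))) = nrm v
    rw [F2_Sp_smul, F2_nrm_smul (inv_pos.2 hc), F2_rho_nrm, hrep]
  · show μ = c • (c⁻¹ • μ)
    rw [smul_smul, mul_inv_cancel₀ hc0, one_smul]

theorem co_fW (w : W) (g : SL(2, O2)) :
    ∃ k : ℝ, 0 < k ∧ co (w.1.1, g) (hvv (slC g • fW w)) = k • w.1.2 := by
  refine ⟨(Real.sqrt (qd (Sp w.1.1 w.1.2)))⁻¹, inv_pos.2 (Real.sqrt_pos.2 (SpW_mem w).2), ?_⟩
  rw [hvv_smul, fW, hvv_toH, co]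
  show Lf w.1.1 (rho (slC g)⁻¹ (rho (slC g) (nrm (Sp w.1.1 w.1.2)))) = _
  rw [F2_inv_rho, nrm, map_smul, Lf_Sp]

theorem step_eq (w w' : W) (X : Fin 4) (h0 : w.1.2 X = 0) (h1 : w'.1.1 = fl w.1.1 X)
    (h2 : w'.1.2 = w.1.2) : slC (glS w.1.1 X) • fW w' = fW w := by
  apply hvv_inj
  rw [hvv_smul, fW, fW, hvv_toH, hvv_toH, F2_rho_nrm, h1, h2]
  congr 1
  rw [Sp, Sp, map_sum]
  apply Finset.sum_congr rfl
  intro Y _
  rw [map_smul]
  by_cases hY : Y = X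
  · rw [hY, h0, zero_smul, zero_smul]
  · rw [gl_E _ _ _ hY]

end Pool.AML.HH
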