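import Pool.Agent.AML.H.Cdef

/-!
# Side (H): numerical checks for the high point
-/

set_option linter.style.longLine false

open Matrix Topology
open scoped MatrixGroups

namespace Pool.AML.HH

/-- the flag of the high point. -/
def p0 : Flag := (true, 0)

/-- `6` times the high point `Sp p0 ![100000, 1, 1, 1]`. -/
def w0 : Fin 4 → ℤ := ![600080, 190, 118, 8]

/-- `6 T(-t) v0`, `t = x + y √-2`. -/
def wt (x y : ℤ) : Fin 4 → ℤ :=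
  ![600080 - 2 * (118 * x + 2 * 8 * y) + (x ^ 2 + 2 * y ^ 2) * 190, 190, 118 - 190 * x, 8 - 190 * y]

theorem num_w0 : w0 = 600000 • EZ q1 p0 0 + 3 • EZ q1 p0 1 + 2 • EZ q1 p0 2 + 6 • EZ q1 p0 3 := by
  decide +kernel

/-- `EZ q1 p` with the vertex `X` replaced by `w`. -/
def EZw (w : Fin 4 → ℤ) (p : Flag) (X Y : Fin 4) : Fin 4 → ℤ := if Y = X then w else EZ q1 p Y

theorem num_box : ∀ (p : Flag) (X : Fin 4), X ≠ 0 → 0 < EZ q1 p X 1 ∧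
    2 * |EZ q1 p X 2| ≤ 5 * EZ q1 p X 1 ∧ 6 * |EZ q1 p X 3| ≤ 13 * EZ q1 p X 1 := by
  decide +kernel

theorem num_inf : ∀ (p : Flag), EZ q1 p 0 = ![1, 0, 0, 0] := by
  decide +kernel

/-- for `t` in the box and in the lattice, `T(-t) v0` lies in the cone of `p` only for `p = p0`, `t = 0`. -/
theorem num_high : ∀ (p : Flag) (i j : Fin 5),
    ((2 : ℤ) ∣ (j.1 : ℤ) - 2 ∧ (8 : ℤ) ∣ 2 * ((i.1 : ℤ) - 1) + ((j.1 : ℤ) - 2)) →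
    ((p = p0 ∧ i = 1 ∧ j = 2) ∨ ∃ X : Fin 4, X ≠ 0 ∧
      det4 (EZw (wt ((i.1 : ℤ) - 1) ((j.1 : ℤ) - 2)) p X 0) (EZw (wt ((i.1 : ℤ) - 1) ((j.1 : ℤ) - 2)) p X 1)
        (EZw (wt ((i.1 : ℤ) - 1) ((j.1 : ℤ) - 2)) p X 2) (EZw (wt ((i.1 : ℤ) - 1) ((j.1 : ℤ) - 2)) p X 3) *
      det4 (EZ q1 p 0) (EZ q1 p 1) (EZ q1 p 2) (EZ q1 p 3) < 0) := by
  decide +kernel

end Pool.AML.HH
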