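import Pool.Agent.AML.H.H1
import Pool.Agent.AML.H.Num2
set_option linter.style.longLine false
open Matrix Topology
open scoped MatrixGroups ComplexConjugate ComplexOrder

namespace Pool.AML.HH

/-!
Row AMH-H2 (the high point).
-/

/-- the high point. -/
noncomputable def vHigh : HV := Sp p0 ![100000, 1, 1, 1]

theorem vHigh_eq (i : Fin 4) : vHigh i = (w0 i : ℝ) / 6 := by
  have h := congrFun num_w0 i
  have h' : ((w0 i : ℤ) : ℝ) = 600000 * (EZ q1 p0 0 i : ℝ) + 3 * (EZ q1 p0 1 i : ℝ) +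
      2 * (EZ q1 p0 2 i : ℝ) + 6 * (EZ q1 p0 3 i : ℝ) := by
    rw [h]
    simp only [Pi.add_apply, Pi.smul_apply]
    simp only [nsmul_eq_mul]
    push_cast
    ring
  rw [h']
  simp only [vHigh, Sp, Fin.sum_univ_four, Pi.add_apply, Pi.smul_apply, smul_eq_mul, E_eq]
  simp
  ring

theorem toC_mk_H2 (x y : ℤ) : toC ⟨x, y⟩ = (x : ℂ) + (y : ℂ) * s2 := by
  simp [toC, Zsqrtd.lift, s2]

theorem s2_sq_H2 : s2 * s2 = -2 := by
  have := toC_aux
  unfold s2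
  rw [this]; norm_num

theorem star_s2_H2 : (starRingEnd ℂ) s2 = -s2 := by
  simp [s2]

theorem rho_T_H2 (t : O2) (v : HV) : rho (slC (Tm t)) v =
    ![v 0 + 2 * (t.re * v 2 + 2 * t.im * v 3) + (t.re ^ 2 + 2 * t.im ^ 2) * v 1, v 1,
      v 2 + t.re * v 1, v 3 + t.im * v 1] := by
  apply toM_inj
  rw [toM_rho]
  have e1 : (slC (Tm t)).1 = !![1, toC t; 0, 1] := by
    apply Matrix.ext
    intro i j
    fin_cases i <;> fin_cases j <;> simp [slC, Tm]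
  have e2 : toC t = (t.re : ℂ) + (t.im : ℂ) * s2 := toC_mk_H2 t.re t.im
  have h2 := s2_sq_H2
  have h3 := star_s2_H2
  rw [e1, e2]
  apply Matrix.ext
  intro i j
  fin_cases i <;> fin_cases j
  · simp [toM, Matrix.mul_apply, Fin.sum_univ_two, Matrix.conjTranspose_apply, h3]
    linear_combination (-(t.im : ℂ) ^ 2 * (v 1 : ℂ) - 2 * (t.im : ℂ) * (v 3 : ℂ)) * h2
  · simp [toM, Matrix.mul_apply, Fin.sum_univ_two, Matrix.conjTranspose_apply, h3]
    ring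
  · simp [toM, Matrix.mul_apply, Fin.sum_univ_two, Matrix.conjTranspose_apply, h3]
    ring
  · simp [toM, Matrix.mul_apply, Fin.sum_univ_two, Matrix.conjTranspose_apply, h3]

theorem rho_vHigh (t : O2) (i : Fin 4) : 6 * rho (slC (Tm (-t))) vHigh i = (wt t.re t.im i : ℝ) := by
  rw [rho_T_H2]
  have e0 := vHigh_eq 0
  have e1 := vHigh_eq 1
  have e2 := vHigh_eq 2
  have e3 := vHigh_eq 3
  simp [w0] at e0 e1 e2 e3
  fin_cases i
  · simp [wt, e0, e1, e2, e3]; ring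
  · simp [wt, e1]; norm_num
  · simp [wt, e1, e2]; ring
  · simp [wt, e1, e3]; ring

/-- Cramer's rule. -/
theorem cramer_H2 (w : Fin 4 → ℤ) (p : Flag) (m : Fin 4 → ℝ)
    (hw : ∀ i, (w i : ℝ) = ∑ Y, m Y * (EZ q1 p Y i : ℝ)) (X : Fin 4) :
    ((det4 (EZw w p X 0) (EZw w p X 1) (EZw w p X 2) (EZw w p X 3) : ℤ) : ℝ) =
      m X * ((det4 (EZ q1 p 0) (EZ q1 p 1) (EZ q1 p 2) (EZ q1 p 3) : ℤ) : ℝ) := by
  have h0 := hw 0
  have h1 := hw 1
  have h2 := hw 2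
  have h3 := hw 3
  simp only [Fin.sum_univ_four] at h0 h1 h2 h3
  fin_cases X
  · simp [EZw, det4, h0, h1, h2, h3]
    ring
  · simp [EZw, det4, h0, h1, h2, h3]
    ring
  · simp [EZw, det4, h0, h1, h2, h3]
    ring
  · simp [EZw, det4, h0, h1, h2, h3]
    ring

theorem vHigh_w (i : Fin 4) : vHigh i = (![600080, 190, 118, 8] : Fin 4 → ℝ) i / 6 := by
  rw [vHigh_eq]
  fin_cases i <;> simp [w0]

theorem vHigh_mem : vHigh ∈ PP := by
  have e0 := vHigh_w 0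
  have e1 := vHigh_w 1
  have e2 := vHigh_w 2
  have e3 := vHigh_w 3
  simp at e0 e1 e2 e3
  constructor
  · rw [e0]; norm_num
  · unfold qd
    rw [e0, e1, e2, e3]; norm_num

theorem vHigh_qd : 864 * vHigh 1 ^ 2 < qd vHigh := by
  have e0 := vHigh_w 0
  have e1 := vHigh_w 1
  have e2 := vHigh_w 2
  have e3 := vHigh_w 3
  simp at e0 e1 e2 e3
  unfold qd
  rw [e0, e1, e2, e3]; norm_num

theorem vHigh_trans (p : Flag) (t : O2) (ht : InLam t)
    (h : ∀ X, 0 ≤ Lf p (rho (slC (Tm (-t))) vHigh) X) : p = p0 ∧ t = 0 := by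
  set u : HV := rho (slC (Tm (-t))) vHigh with hu
  set l : Fin 4 → ℝ := Lf p u with hl
  have hsp : Sp p l = u := Sp_Lf p u
  set m : Fin 4 → ℝ := fun X => 6 * (l X * (![1, 1 / 2, 1 / 3, 1] : Fin 4 → ℝ) X) with hm
  have hm0 : ∀ X, 0 ≤ m X := by
    intro X
    have h1 := h X
    have h2 : 0 ≤ (![1, 1 / 2, 1 / 3, 1] : Fin 4 → ℝ) X := by fin_cases X <;> norm_num
    have := mul_nonneg h1 h2
    simp only [hm]
    linarith
  have hw : ∀ i, (wt t.re t.im i : ℝ) = ∑ Y, m Y * (EZ q1 p Y i : ℝ) := by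
    intro i
    rw [← rho_vHigh, ← hu, ← hsp]
    simp only [Sp, Finset.sum_apply, Pi.smul_apply, smul_eq_mul, E_eq, hm, Finset.mul_sum]
    refine Finset.sum_congr rfl fun Y _ => ?_
    ring
  have hinf := num_inf p
  have i1 := congrFun hinf 1
  have i2 := congrFun hinf 2
  have i3 := congrFun hinf 3
  simp at i1 i2 i3
  have h1 := hw 1
  have h2 := hw 2
  have h3 := hw 3
  simp only [Fin.sum_univ_four, i1, i2, i3, wt] at h1 h2 h3
  push_cast at h1 h2 h3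
  simp at h1 h2 h3
  -- bounds
  have b2 : ∀ X : Fin 4, X ≠ 0 → 2 * |(EZ q1 p X 2 : ℝ)| ≤ 5 * (EZ q1 p X 1 : ℝ) := by
    intro X hX
    exact_mod_cast (num_box p X hX).2.1
  have b3 : ∀ X : Fin 4, X ≠ 0 → 6 * |(EZ q1 p X 3 : ℝ)| ≤ 13 * (EZ q1 p X 1 : ℝ) := by
    intro X hX
    exact_mod_cast (num_box p X hX).2.2
  have c2 : ∀ X : Fin 4, X ≠ 0 → 2 * |m X * (EZ q1 p X 2 : ℝ)| ≤ 5 * (m X * (EZ q1 p X 1 : ℝ)) := by
    intro X hX
    rw [abs_mul, abs_of_nonneg (hm0 X)]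
    nlinarith [b2 X hX, hm0 X]
  have c3 : ∀ X : Fin 4, X ≠ 0 → 6 * |m X * (EZ q1 p X 3 : ℝ)| ≤ 13 * (m X * (EZ q1 p X 1 : ℝ)) := by
    intro X hX
    rw [abs_mul, abs_of_nonneg (hm0 X)]
    nlinarith [b3 X hX, hm0 X]
  have a2 := c2 1 (by decide)
  have a2' := c2 2 (by decide)
  have a2'' := c2 3 (by decide)
  have a3 := c3 1 (by decide)
  have a3' := c3 2 (by decide)
  have a3'' := c3 3 (by decide)
  have hx1 : (118 : ℝ) - 190 * t.re ≤ 475 := by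
    rw [h2]
    linarith [le_abs_self (m 1 * (EZ q1 p 1 2 : ℝ)), le_abs_self (m 2 * (EZ q1 p 2 2 : ℝ)),
      le_abs_self (m 3 * (EZ q1 p 3 2 : ℝ))]
  have hx2 : -(475 : ℝ) ≤ 118 - 190 * t.re := by
    rw [h2]
    linarith [neg_abs_le (m 1 * (EZ q1 p 1 2 : ℝ)), neg_abs_le (m 2 * (EZ q1 p 2 2 : ℝ)),
      neg_abs_le (m 3 * (EZ q1 p 3 2 : ℝ))]
  have hy1 : (8 : ℝ) - 190 * t.im ≤ 412 := by
    rw [h3]
    linarith [le_abs_self (m 1 * (EZ q1 p 1 3 : ℝ)), le_abs_self (m 2 * (EZ q1 p 2 3 : ℝ)),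
      le_abs_self (m 3 * (EZ q1 p 3 3 : ℝ))]
  have hy2 : -(412 : ℝ) ≤ 8 - 190 * t.im := by
    rw [h3]
    linarith [neg_abs_le (m 1 * (EZ q1 p 1 3 : ℝ)), neg_abs_le (m 2 * (EZ q1 p 2 3 : ℝ)),
      neg_abs_le (m 3 * (EZ q1 p 3 3 : ℝ))]
  have hx1' : (118 : ℤ) - 190 * t.re ≤ 475 := by exact_mod_cast hx1
  have hx2' : -(475 : ℤ) ≤ 118 - 190 * t.re := by exact_mod_cast hx2
  have hy1' : (8 : ℤ) - 190 * t.im ≤ 412 := by exact_mod_cast hy1
  have hy2' : -(412 : ℤ) ≤ 8 - 190 * t.im := by exact_mod_cast hy2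
  obtain ⟨k, hk1, hk2⟩ := ht
  have hi : ∃ i : Fin 5, (i.1 : ℤ) - 1 = t.re := by
    refine ⟨⟨(t.re + 1).toNat, by omega⟩, ?_⟩
    simp only
    omega
  have hj : ∃ j : Fin 5, (j.1 : ℤ) - 2 = t.im := by
    refine ⟨⟨(t.im + 2).toNat, by omega⟩, ?_⟩
    simp only
    omega
  obtain ⟨i, hi⟩ := hi
  obtain ⟨j, hj⟩ := hj
  rcases num_high p i j (by rw [hi, hj]; omega) with ⟨e1, e2, e3⟩ | ⟨X, hX, hlt⟩
  · refine ⟨e1, ?_⟩
    rw [e2] at hi
    rw [e3] at hj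
    apply Zsqrtd.ext
    · simpa using hi.symm
    · simpa using hj.symm
  · exfalso
    rw [hi, hj] at hlt
    have hc := cramer_H2 (wt t.re t.im) p m hw X
    have hlt' : ((det4 (EZw (wt t.re t.im) p X 0) (EZw (wt t.re t.im) p X 1)
        (EZw (wt t.re t.im) p X 2) (EZw (wt t.re t.im) p X 3) : ℤ) : ℝ) *
      ((det4 (EZ q1 p 0) (EZ q1 p 1) (EZ q1 p 2) (EZ q1 p 3) : ℤ) : ℝ) < 0 := by
      exact_mod_cast hlt
    rw [hc, mul_assoc] at hlt'
    have := mul_nonneg (hm0 X) (mul_self_nonneg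
      ((det4 (EZ q1 p 0) (EZ q1 p 1) (EZ q1 p 2) (EZ q1 p 3) : ℤ) : ℝ))
    linarith

theorem highpt : ∃ v : HV, v ∈ PP ∧ (∀ X, 0 < co (p0, 1) v X) ∧
    ∀ Γ : Subgroup SL(2, O2), GoodGrp Γ → ∀ s : Flag × SL(2, O2), s.2 ∈ Γ → InC v s →
      s.1 = p0 ∧ (s.2 = 1 ∨ s.2 = -1) := by
  refine ⟨vHigh, vHigh_mem, ?_, ?_⟩
  · intro X
    have : co (p0, 1) vHigh = ![100000, 1, 1, 1] := by
      unfold co
      simp only [map_one, inv_one]
      change Lf p0 vHigh = _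
      exact Lf_Sp _ _
    rw [this]
    fin_cases X <;> norm_num
  · intro Γ hΓ s hs hin
    have h0 := high hΓ vHigh vHigh_qd s hs hin
    obtain ⟨t, ht, hst⟩ := hΓ.cusp s.2 hs h0
    have hTi : (slC (Tm t))⁻¹ = slC (Tm (-t)) := by
      rw [← map_inv]
      congr 1
      refine inv_eq_of_mul_eq_one_right ?_
      apply Subtype.ext
      rw [sl_mul_val, sl_one_val]
      simp only [Tm, Matrix.mul_fin_two]
      rw [Matrix.one_fin_two]
      simp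
    have hrho : rho (slC s.2)⁻¹ = rho (slC (Tm (-t))) := by
      rcases hst with h | h
      · rw [h, hTi]
      · rw [h, slC_neg, inv_neg, rho_neg, hTi]
    have key : ∀ X, 0 ≤ Lf s.1 (rho (slC (Tm (-t))) vHigh) X := by
      intro X
      have := hin X
      unfold co at this
      rw [hrho] at this
      exact this
    obtain ⟨hp, ht0⟩ := vHigh_trans s.1 t ht key
    refine ⟨hp, ?_⟩
    have hT0 : Tm (0 : O2) = 1 := by
      apply Subtype.ext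
      rw [sl_one_val]
      simp only [Tm]
      exact Matrix.one_fin_two.symm
    rw [ht0, hT0] at hst
    exact hst

end Pool.AML.HH
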