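import Pool.Agent.AML.H.L3
set_option linter.style.longLine false
open Matrix Topology
open scoped MatrixGroups ComplexConjugate ComplexOrder

namespace Pool.AML.HH

/-!
Row AMH-L4 (local finiteness). `v ∈ PP`. Take `δ = qd v / 2 > 0`, `M = v 0 + v 1 + 1 > 0`, `U = {w | δ < qd w ∧ w 0 + w 1 < M}` (open, contains `v`).
Let `w ∈ U`, `InC w (p, g)`. By `InC_tet`: `w = Σ μ_j NR (w_j)`, `w_j = mulV g (uv p j)`, `μ_j ≥ 0`.
Trace: `w 0 + w 1 = Σ μ_j |w_j|²`, `|w_j|² = norm (w_j).1 + norm (w_j).2`, so `μ_j |w_j|² ≤ M`.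
`qd_sum4`, `dt_mulV`, `num_dt`: `δ < qd w ≤ 144 Σ_{j<k} μ_j μ_k`, so some pair `j < k` has `μ_j μ_k > δ / 864`; then
`|w_j|² |w_k|² ≤ M² / (μ_j μ_k) ≤ 864 M²/δ`; both factors are `≥ 1` (nonzero vectors since `dt (w_j) (w_k) = dt (uv p j) (uv p k) ≠ 0`), so both are
`≤ R := 864 M²/δ`. So `(p, g)` lies in the finite union over `p` and pairs `j ≠ k` of `{p} × {g | |g u_j|² ≤ R ∧ |g u_k|² ≤ R}` (`fin_pair`, `num_dt`).
(The type `Flag` is finite.)
-/

private theorem L4_real (a b Na Nb M δ : ℝ) (ha : 0 ≤ a) (hb : 0 ≤ b) (hNa : 1 ≤ Na) (hNb : 1 ≤ Nb)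
    (h1 : a * Na ≤ M) (h2 : b * Nb ≤ M) (hδ : 0 < δ) (hab : δ / 864 < a * b) :
    Na ≤ 864 * M ^ 2 / δ ∧ Nb ≤ 864 * M ^ 2 / δ := by
  have h3 : 0 ≤ a * Na := mul_nonneg ha (by linarith)
  have h4 : 0 ≤ b * Nb := mul_nonneg hb (by linarith)
  have h5 : (a * Na) * (b * Nb) ≤ M * M := mul_le_mul h1 h2 h4 (le_trans h3 h1)
  have h6 : 0 < Na * Nb := mul_pos (by linarith) (by linarith)
  have h7 : δ / 864 * (Na * Nb) ≤ M * M := by
    refine le_trans (mul_le_mul_of_nonneg_right hab.le h6.le) ?_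
    calc a * b * (Na * Nb) = (a * Na) * (b * Nb) := by ring
      _ ≤ M * M := h5
  have h8 : Na * Nb ≤ 864 * M ^ 2 / δ := by
    rw [le_div_iff₀ hδ]
    nlinarith [h7]
  constructor
  · refine le_trans ?_ h8
    nlinarith [mul_nonneg (show (0 : ℝ) ≤ Na by linarith) (show (0 : ℝ) ≤ Nb - 1 by linarith)]
  · refine le_trans ?_ h8
    nlinarith [mul_nonneg (show (0 : ℝ) ≤ Nb by linarith) (show (0 : ℝ) ≤ Na - 1 by linarith)]

private theorem L4_dt (p : Flag) (j k : Fin 4) (h : j < k) :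
    dt (uv p j) (uv p k) ≠ 0 ∧ (dt (uv p j) (uv p k)).norm ≤ 144 := by
  obtain ⟨⟨a1, a2, a3, a4, a5, a6⟩, b1, b2, b3, b4, b5, b6⟩ := num_dt p
  fin_cases j <;> fin_cases k <;>
    first
    | exact absurd h (by decide)
    | exact ⟨a1, b1⟩
    | exact ⟨a2, b2⟩
    | exact ⟨a3, b3⟩
    | exact ⟨a4, b4⟩
    | exact ⟨a5, b5⟩
    | exact ⟨a6, b6⟩

private theorem L4_nn (z : O2) : 0 ≤ z.norm := Zsqrtd.norm_nonneg (by norm_num) z

private theorem L4_one (u : O2 × O2) (h : ¬ (u.1 = 0 ∧ u.2 = 0)) :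
    (1 : ℝ) ≤ (u.1.norm : ℝ) + (u.2.norm : ℝ) := by
  have h1 := L4_nn u.1
  have h2 := L4_nn u.2
  have h3 : 1 ≤ u.1.norm + u.2.norm := by
    by_cases hu : u.1 = 0
    · have := norm_one_le u.2 (fun h' => h ⟨hu, h'⟩)
      linarith
    · have := norm_one_le u.1 hu
      linarith
  exact_mod_cast h3

theorem locfin (v : HV) (hv : v ∈ PP) :
    ∃ U ∈ 𝓝 v, {s : Flag × SL(2, O2) | ∃ w ∈ U, InC w s}.Finite := by
  obtain ⟨hv0, hv1⟩ := hv
  have hδ : 0 < qd v / 2 := by linarith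
  have hv1' : 0 < v 1 := by
    by_contra hcon
    have h1 : v 0 * v 1 ≤ 0 := mul_nonpos_of_nonneg_of_nonpos hv0.le (not_lt.1 hcon)
    have : 0 < v 0 * v 1 - v 2 ^ 2 - 2 * v 3 ^ 2 := hv1
    nlinarith [sq_nonneg (v 2), sq_nonneg (v 3)]
  have hcq : Continuous qd := by
    unfold qd
    fun_prop
  have hct : Continuous (fun w : HV => w 0 + w 1) := by fun_prop
  refine ⟨{w | qd v / 2 < qd w ∧ w 0 + w 1 < v 0 + v 1 + 1}, ?_, ?_⟩
  · refine IsOpen.mem_nhds ?_ ⟨?_, ?_⟩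
    · exact (isOpen_lt continuous_const hcq).inter (isOpen_lt hct continuous_const)
    · linarith
    · linarith
  set δ := qd v / 2 with hδdef
  set M := v 0 + v 1 + 1 with hMdef
  set R := 864 * M ^ 2 / δ with hR
  have hfin : (⋃ q : Flag × (Fin 4 × Fin 4), {s : Flag × SL(2, O2) | s.1 = q.1 ∧ q.2.1 < q.2.2 ∧
      ((((mulV s.2 (uv q.1 q.2.1)).1.norm : ℝ) + ((mulV s.2 (uv q.1 q.2.1)).2.norm : ℝ)) ≤ R ∧
      (((mulV s.2 (uv q.1 q.2.2)).1.norm : ℝ) + ((mulV s.2 (uv q.1 q.2.2)).2.norm : ℝ)) ≤ R)}).Finite := by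
    apply Set.finite_iUnion
    rintro ⟨p, j, k⟩
    by_cases hjk : j < k
    · have h1 := fin_pair (uv p j) (uv p k) (L4_dt p j k hjk).1 R
      refine Set.Finite.subset ((Set.finite_singleton p).prod h1) ?_
      rintro ⟨p', g⟩ ⟨h2, h3, h4⟩
      exact ⟨h2, h4⟩
    · refine Set.Finite.subset Set.finite_empty ?_
      rintro ⟨p', g⟩ ⟨h2, h3, h4⟩
      exact absurd h3 hjk
  refine hfin.subset ?_
  rintro ⟨p, g⟩ ⟨w, ⟨hw1, hw2⟩, hw3⟩
  obtain ⟨μ, hμ, h10, h21, h2, h3⟩ := InC_tet w (p, g) hw3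
  simp only at hμ
  have hμn : ∀ j, 0 ≤ μ j := by
    intro j
    fin_cases j
    · exact le_trans (le_trans h2 h21) h10
    · exact le_trans h2 h21
    · exact h2
    · exact h3
  set u : Fin 4 → O2 × O2 := fun j => mulV g (uv p j) with hu
  have hNn : ∀ j, (0 : ℝ) ≤ ((u j).1.norm : ℝ) + ((u j).2.norm : ℝ) := by
    intro j
    have h1 : (0 : ℝ) ≤ ((u j).1.norm : ℝ) := by exact_mod_cast L4_nn (u j).1
    have h2 : (0 : ℝ) ≤ ((u j).2.norm : ℝ) := by exact_mod_cast L4_nn (u j).2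
    linarith
  have htr : w 0 + w 1 = ∑ j, μ j * (((u j).1.norm : ℝ) + ((u j).2.norm : ℝ)) := by
    rw [hμ]
    simp only [Fin.sum_univ_four, Pi.add_apply, Pi.smul_apply, smul_eq_mul, NR, nv, hu]
    simp
    ring
  have hle : ∀ j, μ j * (((u j).1.norm : ℝ) + ((u j).2.norm : ℝ)) ≤ M := by
    intro j
    have h1 : μ j * (((u j).1.norm : ℝ) + ((u j).2.norm : ℝ)) ≤
        ∑ j, μ j * (((u j).1.norm : ℝ) + ((u j).2.norm : ℝ)) :=
      Finset.single_le_sum (f := fun j => μ j * (((u j).1.norm : ℝ) + ((u j).2.norm : ℝ)))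
        (fun i _ => mul_nonneg (hμn i) (hNn i)) (Finset.mem_univ j)
    have h2 : w 0 + w 1 < M := hw2
    linarith
  have hdt : ∀ j k, j < k → dt (u j) (u k) = dt (uv p j) (uv p k) := fun j k _ => dt_mulV g _ _
  have hone : ∀ j k, j < k → (1 : ℝ) ≤ ((u j).1.norm : ℝ) + ((u j).2.norm : ℝ) ∧
      (1 : ℝ) ≤ ((u k).1.norm : ℝ) + ((u k).2.norm : ℝ) := by
    intro j k hjk
    have h1 : dt (u j) (u k) ≠ 0 := by
      rw [hdt j k hjk]; exact (L4_dt p j k hjk).1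
    constructor
    · apply L4_one
      rintro ⟨h4, h5⟩
      apply h1
      simp [dt, h4, h5]
    · apply L4_one
      rintro ⟨h4, h5⟩
      apply h1
      simp [dt, h4, h5]
  have hex : ∃ j k, j < k ∧ δ / 864 < μ j * μ k := by
    by_contra hcon
    push Not at hcon
    have hq := qd_sum4 μ u
    have hw : qd w = qd (∑ j, μ j • NR (u j)) := by rw [hμ]
    have hterm : ∀ j k, j < k → μ j * μ k * ((dt (u j) (u k)).norm : ℝ) ≤ δ / 6 := by
      intro j k hjk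
      have h1 : ((dt (u j) (u k)).norm : ℝ) ≤ 144 := by
        rw [hdt j k hjk]; exact_mod_cast (L4_dt p j k hjk).2
      have h2 := hcon j k hjk
      have h3 : 0 ≤ μ j * μ k := mul_nonneg (hμn j) (hμn k)
      calc μ j * μ k * ((dt (u j) (u k)).norm : ℝ) ≤ μ j * μ k * 144 :=
            mul_le_mul_of_nonneg_left h1 h3
        _ ≤ δ / 864 * 144 := mul_le_mul_of_nonneg_right h2 (by norm_num)
        _ = δ / 6 := by ring
    have h01 := hterm 0 1 (by decide)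
    have h02 := hterm 0 2 (by decide)
    have h03 := hterm 0 3 (by decide)
    have h12 := hterm 1 2 (by decide)
    have h13 := hterm 1 3 (by decide)
    have h23 := hterm 2 3 (by decide)
    have hw1' : δ < qd w := hw1
    linarith
  obtain ⟨j, k, hjk, hab⟩ := hex
  have hkey := L4_real (μ j) (μ k) (((u j).1.norm : ℝ) + ((u j).2.norm : ℝ))
    (((u k).1.norm : ℝ) + ((u k).2.norm : ℝ)) M δ (hμn j) (hμn k) (hone j k hjk).1 (hone j k hjk).2
    (hle j) (hle k) hδ hab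
  exact Set.mem_iUnion.2 ⟨(p, j, k), rfl, hjk, hkey⟩

end Pool.AML.HH
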