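import Pool.Agent.AML.H.Tess
import Pool.Agent.AML.H.C2
import Pool.Agent.AML.H.L4
import Pool.Agent.AML.H.H2
set_option linter.style.longLine false
open Matrix Topology
open scoped MatrixGroups ComplexConjugate ComplexOrder

namespace Pool.AML.HH

/-!
Row AMH-K (tiling). Apply `tess` to `ι = Flag × ((Γ.map slC).map rho)` (a subgroup of `HV ≃ₗ[ℝ] HV`; countable since `SL(2, O2)` is countable),
`L (p, A) = A.symm ≪≫ₗ Lf p`, `nb (p, A) X = (fl p X, A * rho (slC (glS p X)))`, `P = PP`. Every element of `ι` is `(p, rho (slC g))`, `g ∈ Γ`, and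
`L (p, rho (slC g)) v = co (p, g) v`, `nb (p, rho (slC g)) X = π (nbg (p, g) X)` with `π (p, g) = (p, rho (slC g))`. Then
`nb_nb` from `nbg_nbg` (`rho_neg`, `slC_neg`), `share` from `co_nbg`, `side` from `side`, local finiteness from `locfin` (image of a finite set under `π`),
high point from `highpt` (`rho` of `1`, `-1` is `1`).
(i) gives the first part. (ii): a chain in `ι` starting from `π s` lifts step by step to a chain of `Rst v` from `s` (the neighbour is `nbg`), whose end `t'` has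
`π t' = π t`, so `t'.1 = t.1`, `rho (slC (t'.2⁻¹ * t.2)) = 1`, `t'.2 = ± t.2` (`rho_eq_one`).
-/

/-- the group of linear maps of the tiling. -/
private noncomputable abbrev KG (Γ : Subgroup SL(2, O2)) : Subgroup (HV ≃ₗ[ℝ] HV) := (Γ.map slC).map rho

private theorem K_mem {Γ : Subgroup SL(2, O2)} {g : SL(2, O2)} (hg : g ∈ Γ) :
    rho (slC g) ∈ KG Γ :=
  Subgroup.mem_map_of_mem rho (Subgroup.mem_map_of_mem slC hg)

private theorem K_ex {Γ : Subgroup SL(2, O2)} (A : KG Γ) : ∃ g ∈ Γ, A.1 = rho (slC g) := by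
  obtain ⟨A, B, ⟨g, hg, rfl⟩, rfl⟩ := A
  exact ⟨g, hg, rfl⟩

private theorem K_rho_neg (g : SL(2, O2)) : rho (slC (-g)) = rho (slC g) := by
  rw [slC_neg, rho_neg]

private theorem K_co (p : Flag) (g : SL(2, O2)) (A : HV ≃ₗ[ℝ] HV) (h : A = rho (slC g)) (v : HV) :
    (A.symm ≪≫ₗ Lf p) v = co (p, g) v := by
  subst h
  have h1 : (rho (slC g)).symm = rho (slC g)⁻¹ := by
    rw [map_inv]; rfl
  rw [LinearEquiv.trans_apply, h1]
  rfl

private theorem K_countable : Countable SL(2, O2) := by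
  have h1 : Countable O2 := by
    have hf : Function.Injective (fun z : O2 => (z.re, z.im)) := by
      intro a b hab
      simp only [Prod.mk.injEq] at hab
      exact Zsqrtd.ext hab.1 hab.2
    exact hf.countable
  have h2 : Countable (Matrix (Fin 2) (Fin 2) O2) :=
    inferInstanceAs (Countable (Fin 2 → Fin 2 → O2))
  exact inferInstanceAs (Countable {A : Matrix (Fin 2) (Fin 2) O2 // A.det = 1})

/-- the system of cells of `Γ`. -/
private noncomputable def Kcells {Γ : Subgroup SL(2, O2)} (hΓ : GoodGrp Γ) : Cells (Flag × KG Γ) where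
  L s := s.2.1.symm ≪≫ₗ Lf s.1
  nb s X := (fl s.1 X, s.2 * ⟨rho (slC (glS s.1 X)), K_mem (hΓ.gl s.1 X)⟩)
  nb_nb := by
    rintro ⟨p, A⟩ X
    have h1 : fl (fl p X) X = p := (num_fl p X).1
    have h2 : rho (slC (glS p X)) * rho (slC (glS (fl p X) X)) = 1 := by
      rw [← map_mul, ← map_mul]
      rcases num_inv p X with h | h
      · rw [h, map_one, map_one]
      · rw [h, K_rho_neg, map_one, map_one]
    refine Prod.ext h1 (Subtype.ext ?_)
    change A.1 * rho (slC (glS p X)) * rho (slC (glS (fl p X) X)) = A.1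
    rw [mul_assoc, h2, mul_one]
  share := by
    rintro ⟨p, A⟩ X v h
    obtain ⟨g, hg, hA⟩ := K_ex A
    have h1 : (A.1.symm ≪≫ₗ Lf p) v = co (p, g) v := K_co p g A.1 hA v
    have h2 : ((A.1 * rho (slC (glS p X))).symm ≪≫ₗ Lf (fl p X)) v = co (nbg (p, g) X) v :=
      K_co (fl p X) (g * glS p X) _ (by rw [hA, map_mul, map_mul]) v
    change ((A.1 * rho (slC (glS p X))).symm ≪≫ₗ Lf (fl p X)) v = (A.1.symm ≪≫ₗ Lf p) v
    change (A.1.symm ≪≫ₗ Lf p) v X = 0 at h
    rw [h1] at h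
    rw [h1, h2]
    exact co_nbg (p, g) X v h
  side := by
    rintro ⟨p, A⟩ X
    obtain ⟨g, hg, hA⟩ := K_ex A
    obtain ⟨k, hk, hk'⟩ := side p X
    refine ⟨k, hk, fun v => ?_⟩
    have h1 : (A.1.symm ≪≫ₗ Lf p) v = co (p, g) v := K_co p g A.1 hA v
    have h2 : ((A.1 * rho (slC (glS p X))).symm ≪≫ₗ Lf (fl p X)) v = co (nbg (p, g) X) v :=
      K_co (fl p X) (g * glS p X) _ (by rw [hA, map_mul, map_mul]) v
    change ((A.1 * rho (slC (glS p X))).symm ≪≫ₗ Lf (fl p X)) v X = -k * (A.1.symm ≪≫ₗ Lf p) v X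
    rw [h1, h2]
    exact hk' g v

private theorem K_L {Γ : Subgroup SL(2, O2)} (hΓ : GoodGrp Γ) (s : Flag × KG Γ) (g : SL(2, O2))
    (h : s.2.1 = rho (slC g)) (v : HV) : (Kcells hΓ).L s v = co (s.1, g) v :=
  K_co s.1 g s.2.1 h v

theorem tiling {Γ : Subgroup SL(2, O2)} (hΓ : GoodGrp Γ) :
    (∀ v ∈ PP, ∃ s : Flag × SL(2, O2), s.2 ∈ Γ ∧ InC v s) ∧
    (∀ v ∈ PP, ∀ s t : Flag × SL(2, O2), s.2 ∈ Γ → t.2 ∈ Γ → InC v s → InC v t →
      (Relation.ReflTransGen (Rst v) s t ∨ Relation.ReflTransGen (Rst v) s (t.1, -t.2))) := by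
  have := K_countable
  have hcι : Countable (Flag × KG Γ) := by
    have hs : Function.Surjective
        (fun x : Flag × Γ => ((x.1, ⟨rho (slC x.2.1), K_mem x.2.2⟩) : Flag × KG Γ)) := by
      rintro ⟨p, A⟩
      obtain ⟨g, hg, hA⟩ := K_ex A
      exact ⟨(p, ⟨g, hg⟩), Prod.ext rfl (Subtype.ext hA.symm)⟩
    exact hs.countable
  obtain ⟨v0, hv0, hv0pos, huniq⟩ := highpt
  have T := tess (Kcells hΓ) PP PP_open PP_convex ?_ v0 hv0 (p0, 1) ?_ ?_
  · refine ⟨fun v hv => ?_, fun v hv s t hs ht hvs hvt => ?_⟩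
    · obtain ⟨⟨p, A⟩, hA⟩ := T.1 v hv
      obtain ⟨g, hg, hAg⟩ := K_ex A
      refine ⟨(p, g), hg, fun X => ?_⟩
      have := hA X
      rwa [K_L hΓ (p, A) g hAg] at this
    · have h1 := T.2 v hv (s.1, ⟨rho (slC s.2), K_mem hs⟩) (t.1, ⟨rho (slC t.2), K_mem ht⟩)
        (fun X => by
          rw [K_L hΓ (s.1, ⟨rho (slC s.2), K_mem hs⟩) s.2 rfl]; exact hvs X)
        (fun X => by
          rw [K_L hΓ (t.1, ⟨rho (slC t.2), K_mem ht⟩) t.2 rfl]; exact hvt X)
      have key : ∀ x : Flag × KG Γ, Relation.ReflTransGen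
          (fun s t => ∃ a, (Kcells hΓ).L s v a = 0 ∧ t = (Kcells hΓ).nb s a)
          (s.1, ⟨rho (slC s.2), K_mem hs⟩) x →
          ∃ t' : Flag × SL(2, O2), Relation.ReflTransGen (Rst v) s t' ∧ x.1 = t'.1 ∧
            x.2.1 = rho (slC t'.2) := by
        intro x hx
        induction hx with
        | refl => exact ⟨s, Relation.ReflTransGen.refl, rfl, rfl⟩
        | @tail y z _ hstep ih =>
          obtain ⟨t', ht', h1', h2'⟩ := ih
          obtain ⟨X, hX, rfl⟩ := hstep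
          rw [K_L hΓ y t'.2 h2', h1'] at hX
          refine ⟨nbg t' X, ht'.tail ⟨X, hX, rfl⟩, ?_, ?_⟩
          · change fl y.1 X = fl t'.1 X
            rw [h1']
          · change y.2.1 * rho (slC (glS y.1 X)) = rho (slC (t'.2 * glS t'.1 X))
            rw [h1', h2', map_mul, map_mul]
      obtain ⟨t', ht', h2, h3⟩ := key _ h1
      simp only at h2 h3
      have h4 : rho (slC (t'.2⁻¹ * t.2)) = 1 := by
        rw [map_mul, map_mul, h3, ← map_mul, ← map_mul, inv_mul_cancel, map_one, map_one]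
      rcases rho_eq_one _ h4 with h5 | h5
      · left
        have h6 : t.2 = t'.2 := by
          rw [inv_mul_eq_one] at h5; exact h5.symm
        have : t' = t := Prod.ext h2.symm h6.symm
        rwa [← this]
      · right
        have h6 : t'.2 = -t.2 := by
          have : t.2 = t'.2 * -1 := by rw [← h5]; group
          rw [this]; simp
        have : t' = (t.1, -t.2) := Prod.ext h2.symm h6
        rwa [← this]
  · intro v hv
    obtain ⟨U, hU, hfin⟩ := locfin v hv
    refine ⟨U, hU, ?_⟩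
    have hj : Function.Injective (fun s : Flag × KG Γ => ((s.1, s.2.1) : Flag × (HV ≃ₗ[ℝ] HV))) := by
      rintro ⟨p, A⟩ ⟨q, B⟩ h
      simp only [Prod.mk.injEq] at h
      exact Prod.ext h.1 (Subtype.ext h.2)
    refine Set.Finite.of_finite_image (f := fun s : Flag × KG Γ => ((s.1, s.2.1) : Flag × (HV ≃ₗ[ℝ] HV)))
      ?_ hj.injOn
    refine (hfin.image (fun s : Flag × SL(2, O2) => ((s.1, rho (slC s.2)) : Flag × (HV ≃ₗ[ℝ] HV)))).subset ?_
    rintro _ ⟨⟨p, A⟩, ⟨w, hw, hA⟩, rfl⟩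
    obtain ⟨g, hg, hAg⟩ := K_ex A
    refine ⟨(p, g), ⟨w, hw, fun X => ?_⟩, ?_⟩
    · have := hA X
      rwa [K_L hΓ (p, A) g hAg] at this
    · exact Prod.ext rfl hAg.symm
  · intro X
    rw [K_L hΓ (p0, 1) 1 (by rw [map_one, map_one]; rfl)]
    exact hv0pos X
  · rintro ⟨p, A⟩ hA
    obtain ⟨g, hg, hAg⟩ := K_ex A
    have h1 : InC v0 (p, g) := fun X => by
      have := hA X
      rwa [K_L hΓ (p, A) g hAg] at this
    obtain ⟨h2, h3⟩ := huniq Γ hΓ (p, g) hg h1
    simp only at h2 h3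
    refine Prod.ext h2 (Subtype.ext ?_)
    change A.1 = 1
    rw [hAg]
    rcases h3 with h3 | h3
    · rw [h3, map_one, map_one]
    · rw [h3, K_rho_neg, map_one, map_one]

/-- coordinates are constant along chains. -/
theorem chain_co {v : HV} {s t : Flag × SL(2, O2)} (h : Relation.ReflTransGen (Rst v) s t) :
    co t v = co s v := by
  induction h with
  | refl => rfl
  | tail _ h ih =>
    obtain ⟨X, hX, rfl⟩ := h
    rw [co_nbg _ _ _ hX, ih]

end Pool.AML.HH
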