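import Pool.Agent.AML.H.F2
import Pool.Agent.AML.H.K
set_option linter.style.longLine false
open Matrix Topology
open scoped MatrixGroups ComplexConjugate ComplexOrder

namespace Pool.AML.HH

/-!
Row AMH-F4. `fW_surj`: `tiling.1` at `hvv H`, `cell_W` (`toH (hvv H) = H` by `hvv_inj`, `hvv_toH`, `nrm_of_qd`, `qd_hvv`).
`fW_inj`: `v := hvv (fW w') = hvv (slC g • fW w) ∈ PP`. `co_fW`: `co (w.1.1, g) v = k • w.1.2`, `co (w'.1.1, 1) v = k' • w'.1.2`, so both cells contain `v`.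
`tiling.2`: a chain of `Rst v` from `(w.1.1, g)` to `(w'.1.1, ±1)`; `chain_co` and `co_neg`: `k • w.1.2 = k' • w'.1.2`, so `k = k'` (sum of coordinates 1,2,3 is `1`) and `w.1.2 = w'.1.2`.
Induction along the chain (generalise: for every `t` reached, `Relation.EqvGen WStep w ⟨(t.1, w.1.2), _⟩`): a step `t → nbg t X` with `co t v X = 0` i.e. `w.1.2 X = 0` is a `WStep`.
-/

theorem fW_surj {Γ : Subgroup SL(2, O2)} (hΓ : GoodGrp Γ) (H : H3) :
    ∃ g ∈ Γ, ∃ w : W, slC g • fW w = H := by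
  obtain ⟨s, hs, h⟩ := (tiling hΓ).1 (hvv H) (hvv_mem H)
  obtain ⟨w, -, h2, -, -⟩ := cell_W (hvv_mem H) h
  refine ⟨s.2, hs, w, ?_⟩
  rw [h2]
  apply hvv_inj
  rw [hvv_toH, nrm_of_qd (qd_hvv H)]

private theorem F4_chain {v : HV} (w : W) (g : SL(2, O2)) {k : ℝ} (hk : 0 < k)
    (hco : co (w.1.1, g) v = k • w.1.2) (t : Flag × SL(2, O2))
    (ht : Relation.ReflTransGen (Rst v) (w.1.1, g) t) :
    ∀ w2 : W, w2.1.1 = t.1 → w2.1.2 = w.1.2 → Relation.EqvGen WStep w w2 := by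
  induction ht with
  | refl =>
    intro w2 h1 h2
    have : w2 = w := Subtype.ext (Prod.ext h1 h2)
    rw [this]
    exact Relation.EqvGen.refl w
  | @tail t t' hst hstep ih =>
    intro w2 h1 h2
    obtain ⟨X, hX, rfl⟩ := hstep
    have hc : co t v = k • w.1.2 := by rw [chain_co hst, hco]
    rw [hc] at hX
    have h0 : w.1.2 X = 0 := by
      have : k * w.1.2 X = 0 := hX
      rcases mul_eq_zero.1 this with h | h
      · exact absurd h hk.ne'
      · exact h
    let w1 : W := ⟨(t.1, w.1.2), w.2⟩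
    refine Relation.EqvGen.trans _ w1 _ (ih w1 rfl rfl) (Relation.EqvGen.rel _ _ ?_)
    exact ⟨X, h0, h1, h2⟩

theorem fW_inj {Γ : Subgroup SL(2, O2)} (hΓ : GoodGrp Γ) (w w' : W) (g : SL(2, O2)) (hg : g ∈ Γ)
    (h : slC g • fW w = fW w') : Relation.EqvGen WStep w w' := by
  obtain ⟨k, hk, hco⟩ := co_fW w g
  obtain ⟨k', hk', hco'⟩ := co_fW w' 1
  rw [h] at hco
  rw [map_one, one_smul] at hco'
  have hi1 : InC (hvv (fW w')) (w.1.1, g) := by
    intro X
    rw [hco]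
    exact mul_nonneg hk.le (w.2.1 X)
  have hi2 : InC (hvv (fW w')) (w'.1.1, 1) := by
    intro X
    rw [hco']
    exact mul_nonneg hk'.le (w'.2.1 X)
  have hch := (tiling hΓ).2 (hvv (fW w')) (hvv_mem _) (w.1.1, g) (w'.1.1, 1) hg Γ.one_mem hi1 hi2
  have hcc : co (w'.1.1, 1) (hvv (fW w')) = co (w.1.1, g) (hvv (fW w')) := by
    rcases hch with h1 | h1
    · exact chain_co h1
    · rw [← chain_co h1]; exact (co_neg _ _ _).symm
  rw [hco, hco'] at hcc
  have hkk : k' = k := by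
    have e1 : ∀ X, k' * w'.1.2 X = k * w.1.2 X := fun X => congrFun hcc X
    have h1 := e1 1
    have h2 := e1 2
    have h3 := e1 3
    have s1 := w.2.2.1
    have s2 := w'.2.2.1
    calc k' = k' * (w'.1.2 1 + w'.1.2 2 + w'.1.2 3) := by rw [s2, mul_one]
      _ = k * (w.1.2 1 + w.1.2 2 + w.1.2 3) := by rw [mul_add, mul_add, h1, h2, h3]; ring
      _ = k := by rw [s1, mul_one]
  have hww : w'.1.2 = w.1.2 := by
    ext X
    have e1 : k' * w'.1.2 X = k * w.1.2 X := congrFun hcc X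
    rw [hkk] at e1
    exact mul_left_cancel₀ hk.ne' e1
  rcases hch with h1 | h1
  · exact F4_chain w g hk hco _ h1 w' rfl hww
  · exact F4_chain w g hk hco _ h1 w' rfl hww

end Pool.AML.HH
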