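import Pool.Agent.AML.H.F2
import Pool.Agent.AML.H.L4
set_option linter.style.longLine false
open Matrix Topology
open scoped MatrixGroups ComplexConjugate ComplexOrder

namespace Pool.AML.HH

/-!
Row AMH-F5 (closedness). For `s = (p, g)`, `g ∈ Γ` let `D s = {H | ∃ w ∈ K, w.1.1 = p ∧ slC g • fW w = H}`; the set is `⋃ s, D s`.
`LocallyFinite D`: if `H ∈ D s` then `InC (hvv H) s` (`co_fW`: coordinates `k • w.1.2 ≥ 0`); `locfin` at `hvv H0` and continuity of `hvv` (`frM` is continuous).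
`IsClosed (D s)`: let `C = {H | InC (hvv H) s}` (closed: `H ↦ co s (hvv H)` is continuous). On `C` the map `r H = ⟨(p, c⁻¹ • co s (hvv H)), _⟩ : C → W`,
`c = co 1 + co 2 + co 3 > 0` (`cell_W`) is continuous, and `D s = {H ∈ C | r H ∈ K}`: for `H ∈ C`, `cell_W` gives `w` with `slC g • fW w = H` and `w.1.2 = c⁻¹ • co`, i.e. `w = r H`;
conversely if `H = slC g • fW w`, `w ∈ K`, `w.1.1 = p` then `co s (hvv H) = k • w.1.2`, so `c = k` and `r H = w`. So `D s` is the image under the closed embedding `C → H3` of a closed set.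
Then `LocallyFinite.isClosed_iUnion`.
-/

private theorem F5_cont_hvv : Continuous hvv := by
  have h1 : Continuous (fun H : H3 => H.1) := continuous_subtype_val
  have h2 : ∀ i j : Fin 2, Continuous (fun H : H3 => H.1 i j) := fun i j => h1.matrix_elem i j
  apply continuous_pi
  intro i
  fin_cases i
  · exact Complex.continuous_re.comp (h2 0 0)
  · exact Complex.continuous_re.comp (h2 1 1)
  · exact Complex.continuous_re.comp (h2 0 1)
  · exact (Complex.continuous_im.comp (h2 0 1)).div_const _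

private theorem F5_cont_lin (L : HV →ₗ[ℝ] HV) : Continuous L := L.continuous_of_finiteDimensional

private theorem F5_cont_co (s : Flag × SL(2, O2)) : Continuous (co s) := by
  have h1 : Continuous (fun v : HV => rho (slC s.2)⁻¹ v) :=
    F5_cont_lin (rho (slC s.2)⁻¹ : HV ≃ₗ[ℝ] HV).toLinearMap
  have h2 : Continuous (fun v : HV => Lf s.1 v) := F5_cont_lin (Lf s.1).toLinearMap
  exact h2.comp h1

private theorem F5_toH (H : H3) (h : hvv H ∈ PP) : toH (hvv H) h = H := by
  apply hvv_inj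
  rw [hvv_toH, nrm_of_qd (qd_hvv H)]

private theorem F5_piece (p : Flag) (g : SL(2, O2)) (K : Set W) (hK : IsClosed K) :
    IsClosed {H : H3 | ∃ w ∈ K, w.1.1 = p ∧ slC g • fW w = H} := by
  obtain ⟨K', hK', hKK⟩ := isClosed_induced_iff.1 hK
  have hKm : ∀ w : W, w ∈ K ↔ w.1 ∈ K' := fun w => by
    rw [← hKK]
    exact Iff.rfl
  have hcC : Continuous (fun H : H3 => co (p, g) (hvv H)) := (F5_cont_co (p, g)).comp F5_cont_hvv
  have hcX : ∀ X : Fin 4, Continuous (fun H : H3 => co (p, g) (hvv H) X) := fun X =>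
    (continuous_apply X).comp hcC
  set C : Set H3 := {H | InC (hvv H) (p, g)} with hC
  have hCc : IsClosed C := by
    have : C = ⋂ X : Fin 4, {H : H3 | 0 ≤ co (p, g) (hvv H) X} := by
      ext H
      simp only [hC, Set.mem_iInter, Set.mem_ofPred_eq, InC]
    rw [this]
    exact isClosed_iInter fun X => isClosed_le continuous_const (hcX X)
  set f : H3 → Flag × (Fin 4 → ℝ) := fun H =>
    (p, (co (p, g) (hvv H) 1 + co (p, g) (hvv H) 2 + co (p, g) (hvv H) 3)⁻¹ • co (p, g) (hvv H)) with hf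
  have hfc : ContinuousOn f C := by
    apply ContinuousOn.prodMk continuousOn_const
    apply ContinuousOn.fun_smul
    · apply ContinuousOn.fun_inv₀
      · exact (((hcX 1).add (hcX 2)).add (hcX 3)).continuousOn
      · intro H hH
        obtain ⟨w, _, _, _, hpos⟩ := cell_W (hvv_mem H) (s := (p, g)) hH
        exact hpos.ne'
    · exact hcC.continuousOn
  have heq : {H : H3 | ∃ w ∈ K, w.1.1 = p ∧ slC g • fW w = H} = C ∩ f ⁻¹' K' := by
    ext H
    constructor
    · rintro ⟨w, hwK, hwp, hwH⟩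
      obtain ⟨k, hk, hco⟩ := co_fW w g
      rw [hwH, hwp] at hco
      have hk0 : k ≠ 0 := hk.ne'
      have hsum : co (p, g) (hvv H) 1 + co (p, g) (hvv H) 2 + co (p, g) (hvv H) 3 = k := by
        rw [hco]
        simp only [Pi.smul_apply, smul_eq_mul]
        rw [← mul_add, ← mul_add, w.2.2.1, mul_one]
      refine ⟨?_, ?_⟩
      · intro X
        rw [hco, Pi.smul_apply, smul_eq_mul]
        exact mul_nonneg hk.le (w.2.1 X)
      · show f H ∈ K'
        have e : f H = w.1 := by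
          simp only [hf]
          rw [hsum, hco, smul_smul, inv_mul_cancel₀ hk0, one_smul]
          exact Prod.ext hwp.symm rfl
        rw [e]
        exact (hKm w).1 hwK
    · rintro ⟨hHC, hHf⟩
      obtain ⟨w, hwp, hwH, hco, hpos⟩ := cell_W (hvv_mem H) (s := (p, g)) hHC
      rw [F5_toH] at hwH
      refine ⟨w, ?_, hwp, hwH⟩
      rw [hKm]
      have e : f H = w.1 := by
        simp only [hf]
        refine Prod.ext hwp.symm ?_
        show (co (p, g) (hvv H) 1 + co (p, g) (hvv H) 2 + co (p, g) (hvv H) 3)⁻¹ • co (p, g) (hvv H) = w.1.2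
        conv_lhs => rw [hco]
        rw [smul_smul]
        have h4 : (((co (p, g) (hvv H) 1 + co (p, g) (hvv H) 2 + co (p, g) (hvv H) 3) • w.1.2) 1 +
            ((co (p, g) (hvv H) 1 + co (p, g) (hvv H) 2 + co (p, g) (hvv H) 3) • w.1.2) 2 +
            ((co (p, g) (hvv H) 1 + co (p, g) (hvv H) 2 + co (p, g) (hvv H) 3) • w.1.2) 3) =
            co (p, g) (hvv H) 1 + co (p, g) (hvv H) 2 + co (p, g) (hvv H) 3 := by
          rw [← hco]
        rw [h4, inv_mul_cancel₀ hpos.ne', one_smul]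
      rw [← e]
      exact hHf
  rw [heq]
  exact hfc.preimage_isClosed_of_isClosed hCc hK'

theorem closed_union (Γ : Subgroup SL(2, O2)) (K : Set W) (hK : IsClosed K) :
    IsClosed {H : H3 | ∃ g ∈ Γ, ∃ w ∈ K, slC g • fW w = H} := by
  set D : Flag × Γ → Set H3 := fun s => {H : H3 | ∃ w ∈ K, w.1.1 = s.1 ∧ slC s.2.1 • fW w = H} with hD
  have heq : {H : H3 | ∃ g ∈ Γ, ∃ w ∈ K, slC g • fW w = H} = ⋃ s, D s := by
    ext H
    simp only [Set.mem_iUnion, Set.mem_ofPred_eq, hD]
    constructor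
    · rintro ⟨g, hg, w, hw, h⟩
      exact ⟨(w.1.1, ⟨g, hg⟩), w, hw, rfl, h⟩
    · rintro ⟨s, w, hw, _, h⟩
      exact ⟨s.2.1, s.2.2, w, hw, h⟩
  rw [heq]
  apply LocallyFinite.isClosed_iUnion
  · intro H0
    obtain ⟨U, hU, hfin⟩ := locfin (hvv H0) (hvv_mem H0)
    refine ⟨hvv ⁻¹' U, F5_cont_hvv.continuousAt.preimage_mem_nhds hU, ?_⟩
    have hinj : Function.Injective (fun s : Flag × Γ => ((s.1, s.2.1) : Flag × SL(2, O2))) := by
      rintro ⟨a, b⟩ ⟨c, d⟩ h
      simp only [Prod.mk.injEq] at h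
      exact Prod.ext h.1 (Subtype.ext h.2)
    apply (hfin.preimage hinj.injOn).subset
    rintro ⟨p, g⟩ ⟨H, hHD, hHU⟩
    obtain ⟨w, _, hwp, hwH⟩ := hHD
    obtain ⟨k, hk, hco⟩ := co_fW w g.1
    refine ⟨hvv H, hHU, ?_⟩
    simp only at hwp hwH
    rw [hwH, hwp] at hco
    intro X
    show 0 ≤ co (p, g.1) (hvv H) X
    rw [hco, Pi.smul_apply, smul_eq_mul]
    exact mul_nonneg hk.le (w.2.1 X)
  · rintro ⟨p, g⟩
    exact F5_piece p g.1 K hK

end Pool.AML.HH
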