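import Pool.Agent.AML.H.F4
import Pool.Agent.AML.H.F5
set_option linter.style.longLine false
open Matrix Topology
open scoped MatrixGroups ComplexConjugate ComplexOrder

namespace Pool.AML.HH

/-!
Row AMH-F6 (homeomorphism). `Φ : Quot WStep → orbitRel.Quotient (Γ.map slC) H3`, `Φ [w] = [fW w]`, well defined by `step_eq` and `GoodGrp.gl`; continuous (`fW_continuous`,
`continuous_quot_mk`, `Continuous.quotient_lift..`). Surjective: `fW_surj`; injective: `fW_inj` (`Quot.eqvGen_sound`). Closed: `A` closed in `Quot WStep`, `K = preimage` closed in `W`;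
the preimage of `Φ '' A` in `H3` is `{H | ∃ g ∈ Γ, ∃ w ∈ K, slC g • fW w = H}`, closed by `closed_union`; a subset of the quotient is closed iff its preimage is
(`isQuotientMap_quotient_mk'`). A continuous closed bijection is a homeomorphism (`Homeomorph.homeomorphOfContinuousClosed` or `Equiv.toHomeomorphOfContinuousClosed`).
-/

private theorem F6_rel {Γ : Subgroup SL(2, O2)} {H K : H3} (g : SL(2, O2)) (hg : g ∈ Γ)
    (h : slC g • K = H) :
    (Quotient.mk (MulAction.orbitRel (Γ.map slC) H3) H) =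
      Quotient.mk (MulAction.orbitRel (Γ.map slC) H3) K := by
  apply Quotient.sound
  change H ∈ MulAction.orbit (Γ.map slC) K
  exact ⟨⟨slC g, ⟨g, hg, rfl⟩⟩, h⟩

private theorem F6_rel' {Γ : Subgroup SL(2, O2)} {H K : H3}
    (h : (Quotient.mk (MulAction.orbitRel (Γ.map slC) H3) H) =
      Quotient.mk (MulAction.orbitRel (Γ.map slC) H3) K) :
    ∃ g ∈ Γ, slC g • K = H := by
  have h1 : H ∈ MulAction.orbit (Γ.map slC) K := Quotient.exact h
  obtain ⟨⟨_, g, hg, rfl⟩, h2⟩ := h1
  exact ⟨g, hg, h2⟩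

theorem quot_homeo {Γ : Subgroup SL(2, O2)} (hΓ : GoodGrp Γ) :
    Nonempty (Quot WStep ≃ₜ MulAction.orbitRel.Quotient (Γ.map slC) H3) := by
  let qm : H3 → MulAction.orbitRel.Quotient (Γ.map slC) H3 :=
    Quotient.mk (MulAction.orbitRel (Γ.map slC) H3)
  have hq : IsQuotientMap qm := isQuotientMap_quotient_mk'
  have hwd : ∀ w w' : W, WStep w w' → qm (fW w) = qm (fW w') := by
    rintro w w' ⟨X, h0, h1, h2⟩
    exact F6_rel _ (hΓ.gl w.1.1 X) (step_eq w w' X h0 h1 h2)
  let φ : Quot WStep → MulAction.orbitRel.Quotient (Γ.map slC) H3 :=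
    Quot.lift (fun w => qm (fW w)) hwd
  have hφc : Continuous φ := continuous_quot_lift hwd (hq.continuous.comp fW_continuous)
  have hinj : Function.Injective φ := by
    rintro ⟨w⟩ ⟨w'⟩ h
    have h' : qm (fW w) = qm (fW w') := h
    obtain ⟨g, hg, h1⟩ := F6_rel' h'
    exact (Quot.eqvGen_sound (fW_inj hΓ w' w g hg h1)).symm
  have hsurj : Function.Surjective φ := by
    intro x
    obtain ⟨H, rfl⟩ := hq.surjective x
    obtain ⟨g, hg, w, hw⟩ := fW_surj hΓ H
    exact ⟨Quot.mk _ w, (F6_rel g hg hw).symm⟩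
  have hcl : IsClosedMap φ := by
    intro A hA
    rw [← hq.isClosed_preimage]
    have hK : IsClosed ((Quot.mk WStep) ⁻¹' A) := hA.preimage continuous_quot_mk
    have h1 := closed_union Γ _ hK
    convert h1 using 1
    ext H
    constructor
    · rintro ⟨⟨w⟩, hw, h2⟩
      have h3 : qm (fW w) = qm H := h2
      obtain ⟨g, hg, h4⟩ := F6_rel' h3.symm
      exact ⟨g, hg, w, hw, h4⟩
    · rintro ⟨g, hg, w, hw, h2⟩
      exact ⟨Quot.mk _ w, hw, (F6_rel g hg h2).symm⟩
  exact ⟨(Equiv.ofBijective φ ⟨hinj, hsurj⟩).toHomeomorphOfContinuousClosed hφc hcl⟩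

end Pool.AML.HH
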