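import Pool.Agent.AML.H.Cdef

/-!
# Side (H): potentials for the freeness of the action, and the checks
-/

set_option linter.style.longLine false

open Matrix Topology
open scoped MatrixGroups

namespace Pool.AML.HH

def potMLTab : List (O2 × O2 × O2 × O2) := [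
  (⟨1, 0⟩, ⟨0, 0⟩, ⟨0, 0⟩, ⟨1, 0⟩), (⟨1, 0⟩, ⟨0, 0⟩, ⟨0, 0⟩, ⟨1, 0⟩), (⟨1, 0⟩, ⟨0, 0⟩, ⟨0, 0⟩,
  ⟨1, 0⟩), (⟨1, 0⟩, ⟨0, 0⟩, ⟨0, 0⟩, ⟨1, 0⟩), (⟨1, 0⟩, ⟨0, 0⟩, ⟨0, 0⟩, ⟨1, 0⟩), (⟨1, 0⟩, ⟨0, 0⟩,
  ⟨0, 0⟩, ⟨1, 0⟩), (⟨1, 0⟩, ⟨0, 0⟩, ⟨0, 0⟩, ⟨1, 0⟩), (⟨1, 0⟩, ⟨0, 0⟩, ⟨0, 0⟩, ⟨1, 0⟩), (⟨1, 0⟩,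
  ⟨0, 0⟩, ⟨0, 0⟩, ⟨1, 0⟩), (⟨1, 0⟩, ⟨0, 0⟩, ⟨0, 0⟩, ⟨1, 0⟩), (⟨1, 0⟩, ⟨0, 0⟩, ⟨0, 0⟩, ⟨1, 0⟩),
  (⟨1, 0⟩, ⟨0, 0⟩, ⟨0, 0⟩, ⟨1, 0⟩), (⟨1, 0⟩, ⟨0, 0⟩, ⟨0, 0⟩, ⟨1, 0⟩), (⟨1, 0⟩, ⟨0, 0⟩, ⟨0, 0⟩,
  ⟨1, 0⟩), (⟨1, 0⟩, ⟨0, 0⟩, ⟨0, 0⟩, ⟨1, 0⟩), (⟨1, 0⟩, ⟨0, 0⟩, ⟨0, 0⟩, ⟨1, 0⟩), (⟨1, 0⟩, ⟨0, 0⟩,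
  ⟨0, 0⟩, ⟨1, 0⟩), (⟨1, 0⟩, ⟨1, -2⟩, ⟨0, 0⟩, ⟨1, 0⟩), (⟨1, 0⟩, ⟨1, -2⟩, ⟨0, 0⟩, ⟨1, 0⟩), (⟨1,
  0⟩, ⟨1, -2⟩, ⟨0, 0⟩, ⟨1, 0⟩), (⟨1, 0⟩, ⟨0, 0⟩, ⟨0, 0⟩, ⟨1, 0⟩), (⟨1, 0⟩, ⟨0, 0⟩, ⟨0, 0⟩, ⟨1,
  0⟩), (⟨1, 0⟩, ⟨0, 0⟩, ⟨0, 0⟩, ⟨1, 0⟩), (⟨1, 0⟩, ⟨0, 0⟩, ⟨0, 0⟩, ⟨1, 0⟩), (⟨1, 0⟩, ⟨0, 0⟩, ⟨0,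
  0⟩, ⟨1, 0⟩), (⟨1, 0⟩, ⟨0, 0⟩, ⟨0, 0⟩, ⟨1, 0⟩), (⟨1, 0⟩, ⟨0, 0⟩, ⟨0, 0⟩, ⟨1, 0⟩), (⟨1, 0⟩, ⟨0,
  0⟩, ⟨0, 0⟩, ⟨1, 0⟩), (⟨1, 0⟩, ⟨0, 0⟩, ⟨0, 0⟩, ⟨1, 0⟩), (⟨1, 0⟩, ⟨0, 0⟩, ⟨0, 0⟩, ⟨1, 0⟩), (⟨1,
  0⟩, ⟨0, 0⟩, ⟨0, 0⟩, ⟨1, 0⟩), (⟨1, 0⟩, ⟨0, 0⟩, ⟨0, 0⟩, ⟨1, 0⟩), (⟨1, 0⟩, ⟨0, 0⟩, ⟨0, 0⟩, ⟨1,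
  0⟩), (⟨1, 0⟩, ⟨0, 0⟩, ⟨0, 0⟩, ⟨1, 0⟩), (⟨1, 0⟩, ⟨0, 0⟩, ⟨0, 0⟩, ⟨1, 0⟩), (⟨1, 0⟩, ⟨0, 0⟩, ⟨0,
  0⟩, ⟨1, 0⟩), (⟨1, 0⟩, ⟨0, 0⟩, ⟨0, 0⟩, ⟨1, 0⟩), (⟨1, 0⟩, ⟨0, 0⟩, ⟨0, 0⟩, ⟨1, 0⟩), (⟨1, 0⟩, ⟨0,
  0⟩, ⟨0, 0⟩, ⟨1, 0⟩), (⟨1, 0⟩, ⟨0, 0⟩, ⟨0, 0⟩, ⟨1, 0⟩), (⟨1, 0⟩, ⟨0, 0⟩, ⟨0, 0⟩, ⟨1, 0⟩), (⟨1,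
  0⟩, ⟨0, 0⟩, ⟨0, 0⟩, ⟨1, 0⟩), (⟨1, 0⟩, ⟨0, 0⟩, ⟨0, 0⟩, ⟨1, 0⟩), (⟨1, 0⟩, ⟨0, 0⟩, ⟨0, 0⟩, ⟨1,
  0⟩), (⟨1, 0⟩, ⟨0, 0⟩, ⟨0, 0⟩, ⟨1, 0⟩), (⟨1, 0⟩, ⟨1, -2⟩, ⟨0, 0⟩, ⟨1, 0⟩), (⟨1, 0⟩, ⟨1, -2⟩,
  ⟨0, 0⟩, ⟨1, 0⟩), (⟨1, 0⟩, ⟨1, -2⟩, ⟨0, 0⟩, ⟨1, 0⟩), (⟨1, 0⟩, ⟨1, -2⟩, ⟨0, 0⟩, ⟨1, 0⟩), (⟨1,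
  0⟩, ⟨1, -2⟩, ⟨0, 0⟩, ⟨1, 0⟩), (⟨1, 0⟩, ⟨0, 0⟩, ⟨0, 0⟩, ⟨1, 0⟩), (⟨1, 0⟩, ⟨0, 0⟩, ⟨0, 0⟩, ⟨1,
  0⟩), (⟨1, 0⟩, ⟨0, 0⟩, ⟨0, 0⟩, ⟨1, 0⟩), (⟨1, 0⟩, ⟨0, 0⟩, ⟨0, 0⟩, ⟨1, 0⟩), (⟨1, 0⟩, ⟨0, 0⟩, ⟨0,
  0⟩, ⟨1, 0⟩), (⟨1, 0⟩, ⟨0, 0⟩, ⟨0, 0⟩, ⟨1, 0⟩), (⟨1, 0⟩, ⟨0, 0⟩, ⟨0, 0⟩, ⟨1, 0⟩), (⟨1, 0⟩, ⟨0,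
  0⟩, ⟨0, 0⟩, ⟨1, 0⟩), (⟨1, 0⟩, ⟨0, 0⟩, ⟨0, 0⟩, ⟨1, 0⟩), (⟨1, 0⟩, ⟨1, -2⟩, ⟨0, 0⟩, ⟨1, 0⟩), (⟨1,
  0⟩, ⟨0, 0⟩, ⟨0, 0⟩, ⟨1, 0⟩), (⟨1, 0⟩, ⟨0, 0⟩, ⟨0, 0⟩, ⟨1, 0⟩), (⟨1, 0⟩, ⟨0, 0⟩, ⟨0, 0⟩, ⟨1,
  0⟩), (⟨1, 0⟩, ⟨0, 0⟩, ⟨0, 0⟩, ⟨1, 0⟩), (⟨1, 0⟩, ⟨0, 0⟩, ⟨0, 0⟩, ⟨1, 0⟩), (⟨1, 0⟩, ⟨1, -2⟩, ⟨0,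
  0⟩, ⟨1, 0⟩), (⟨1, 0⟩, ⟨1, -2⟩, ⟨0, 0⟩, ⟨1, 0⟩), (⟨1, 0⟩, ⟨1, -2⟩, ⟨0, 0⟩, ⟨1, 0⟩), (⟨1, 0⟩,
  ⟨0, 2⟩, ⟨2, 0⟩, ⟨1, 4⟩), (⟨1, 0⟩, ⟨1, 0⟩, ⟨2, 0⟩, ⟨3, 0⟩), (⟨1, 0⟩, ⟨1, 0⟩, ⟨2, 0⟩, ⟨3, 0⟩),
  (⟨1, 0⟩, ⟨-2, -2⟩, ⟨2, 0⟩, ⟨-3, -4⟩), (⟨1, -1⟩, ⟨-2, 1⟩, ⟨2, -1⟩, ⟨-3, 1⟩), (⟨1, -1⟩, ⟨-5,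
  -2⟩, ⟨2, -1⟩, ⟨-5, -4⟩), (⟨3, -1⟩, ⟨-3, 0⟩, ⟨4, 0⟩, ⟨-3, -1⟩), (⟨3, -1⟩, ⟨-3, 0⟩, ⟨4, 0⟩, ⟨-3,
  -1⟩), (⟨1, -2⟩, ⟨-1, 3⟩, ⟨3, -1⟩, ⟨-4, 2⟩), (⟨1, -2⟩, ⟨-8, -1⟩, ⟨3, -1⟩, ⟨-5, -5⟩), (⟨3, -1⟩,
  ⟨-2, 0⟩, ⟨3, 1⟩, ⟨-1, -1⟩), (⟨3, -1⟩, ⟨-2, 0⟩, ⟨3, 1⟩, ⟨-1, -1⟩), (⟨-5, -3⟩, ⟨2, 2⟩, ⟨1, -2⟩,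
  ⟨-1, 1⟩), (⟨-5, -3⟩, ⟨2, 2⟩, ⟨1, -2⟩, ⟨-1, 1⟩), (⟨1, 1⟩, ⟨-2, -1⟩, ⟨3, -1⟩, ⟨-3, 2⟩), (⟨1, 1⟩,
  ⟨3, -2⟩, ⟨3, -1⟩, ⟨-4, -5⟩), (⟨-1, 1⟩, ⟨1, 0⟩, ⟨3, 2⟩, ⟨0, -2⟩), (⟨-1, 1⟩, ⟨1, 0⟩, ⟨3, 2⟩, ⟨0,
  -2⟩), (⟨1, -1⟩, ⟨-1, 0⟩, ⟨4, -3⟩, ⟨-3, 0⟩), (⟨1, -1⟩, ⟨-1, 0⟩, ⟨4, -3⟩, ⟨-3, 0⟩), (⟨1, -4⟩,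
  ⟨-1, 2⟩, ⟨4, -8⟩, ⟨-3, 4⟩), (⟨1, -4⟩, ⟨-1, 2⟩, ⟨4, -8⟩, ⟨-3, 4⟩), (⟨1, -3⟩, ⟨-1, 2⟩, ⟨4, -3⟩,
  ⟨-3, 2⟩), (⟨1, -3⟩, ⟨-1, 2⟩, ⟨4, -3⟩, ⟨-3, 2⟩), (⟨3, 0⟩, ⟨-3, 1⟩, ⟨3, 2⟩, ⟨-4, -1⟩), (⟨3, 0⟩,
  ⟨-3, 1⟩, ⟨3, 2⟩, ⟨-4, -1⟩), (⟨-1, -6⟩, ⟨5, 5⟩, ⟨3, -1⟩, ⟨-2, 2⟩), (⟨-1, -6⟩, ⟨5, 5⟩, ⟨3, -1⟩,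
  ⟨-2, 2⟩), (⟨0, -1⟩, ⟨1, 1⟩, ⟨1, -2⟩, ⟨1, 3⟩), (⟨0, -1⟩, ⟨-3, 0⟩, ⟨1, -2⟩, ⟨-6, -1⟩), (⟨2, 0⟩,
  ⟨-1, -1⟩, ⟨3, 1⟩, ⟨0, -2⟩), (⟨2, 0⟩, ⟨-1, -1⟩, ⟨3, 1⟩, ⟨0, -2⟩), (⟨-2, -6⟩, ⟨-5, 3⟩, ⟨3, -1⟩,
  ⟨-2, -1⟩), (⟨-2, -6⟩, ⟨-5, 3⟩, ⟨3, -1⟩, ⟨-2, -1⟩), (⟨1, -1⟩, ⟨-1, 0⟩, ⟨4, 0⟩, ⟨-1, -1⟩), (⟨1,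
  -1⟩, ⟨-1, 0⟩, ⟨4, 0⟩, ⟨-1, -1⟩), (⟨-3, -5⟩, ⟨-1, 2⟩, ⟨2, -1⟩, ⟨-1, 0⟩), (⟨-3, -5⟩, ⟨-1, 2⟩,
  ⟨2, -1⟩, ⟨-1, 0⟩), (⟨1, 0⟩, ⟨0, 0⟩, ⟨0, 0⟩, ⟨1, 0⟩), (⟨1, 0⟩, ⟨0, 0⟩, ⟨0, 0⟩, ⟨1, 0⟩)]

def potMRTab : List (O2 × O2 × O2 × O2) := [
  (⟨1, -3⟩, ⟨-1, 2⟩, ⟨4, -3⟩, ⟨-3, 2⟩), (⟨1, -3⟩, ⟨-1, 2⟩, ⟨4, -3⟩, ⟨-3, 2⟩), (⟨1, -3⟩, ⟨-1, 2⟩,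
  ⟨4, -3⟩, ⟨-3, 2⟩), (⟨1, -3⟩, ⟨-1, 2⟩, ⟨4, -3⟩, ⟨-3, 2⟩), (⟨3, 0⟩, ⟨-3, 1⟩, ⟨3, 2⟩, ⟨-4, -1⟩),
  (⟨3, 0⟩, ⟨-3, 1⟩, ⟨3, 2⟩, ⟨-4, -1⟩), (⟨3, 0⟩, ⟨-3, 1⟩, ⟨3, 2⟩, ⟨-4, -1⟩), (⟨3, 0⟩, ⟨-3, 1⟩,
  ⟨3, 2⟩, ⟨-4, -1⟩), (⟨-1, -6⟩, ⟨5, 5⟩, ⟨3, -1⟩, ⟨-2, 2⟩), (⟨-1, -6⟩, ⟨5, 5⟩, ⟨3, -1⟩, ⟨-2, 2⟩),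
  (⟨-1, -6⟩, ⟨5, 5⟩, ⟨3, -1⟩, ⟨-2, 2⟩), (⟨-1, -6⟩, ⟨5, 5⟩, ⟨3, -1⟩, ⟨-2, 2⟩), (⟨-1, -6⟩, ⟨5, 5⟩,
  ⟨3, -1⟩, ⟨-2, 2⟩), (⟨-1, -6⟩, ⟨5, 5⟩, ⟨3, -1⟩, ⟨-2, 2⟩), (⟨0, -1⟩, ⟨1, 1⟩, ⟨1, -2⟩, ⟨1, 3⟩),
  (⟨0, -1⟩, ⟨1, 1⟩, ⟨1, -2⟩, ⟨1, 3⟩), (⟨0, -1⟩, ⟨1, 1⟩, ⟨1, -2⟩, ⟨1, 3⟩), (⟨0, -1⟩, ⟨-3, 0⟩, ⟨1,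
  -2⟩, ⟨-6, -1⟩), (⟨2, 0⟩, ⟨-1, -1⟩, ⟨3, 1⟩, ⟨0, -2⟩), (⟨2, 0⟩, ⟨-1, -1⟩, ⟨3, 1⟩, ⟨0, -2⟩), (⟨2,
  0⟩, ⟨-1, -1⟩, ⟨3, 1⟩, ⟨0, -2⟩), (⟨2, 0⟩, ⟨-1, -1⟩, ⟨3, 1⟩, ⟨0, -2⟩), (⟨-2, -6⟩, ⟨-5, 3⟩, ⟨3,
  -1⟩, ⟨-2, -1⟩), (⟨-2, -6⟩, ⟨-5, 3⟩, ⟨3, -1⟩, ⟨-2, -1⟩), (⟨1, -1⟩, ⟨-1, 0⟩, ⟨4, 0⟩, ⟨-1, -1⟩),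
  (⟨1, -1⟩, ⟨-1, 0⟩, ⟨4, 0⟩, ⟨-1, -1⟩), (⟨1, -1⟩, ⟨-1, 0⟩, ⟨4, 0⟩, ⟨-1, -1⟩), (⟨1, -1⟩, ⟨-1, 0⟩,
  ⟨4, 0⟩, ⟨-1, -1⟩), (⟨-3, -5⟩, ⟨-1, 2⟩, ⟨2, -1⟩, ⟨-1, 0⟩), (⟨-3, -5⟩, ⟨-1, 2⟩, ⟨2, -1⟩, ⟨-1,
  0⟩), (⟨-3, -5⟩, ⟨-1, 2⟩, ⟨2, -1⟩, ⟨-1, 0⟩), (⟨-3, -5⟩, ⟨-1, 2⟩, ⟨2, -1⟩, ⟨-1, 0⟩), (⟨1, 0⟩,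
  ⟨0, 0⟩, ⟨0, 0⟩, ⟨1, 0⟩), (⟨1, 0⟩, ⟨0, 0⟩, ⟨0, 0⟩, ⟨1, 0⟩), (⟨1, 0⟩, ⟨0, 0⟩, ⟨0, 0⟩, ⟨1, 0⟩),
  (⟨1, 0⟩, ⟨0, 0⟩, ⟨0, 0⟩, ⟨1, 0⟩), (⟨1, 0⟩, ⟨0, 0⟩, ⟨0, 0⟩, ⟨1, 0⟩), (⟨1, 0⟩, ⟨0, 0⟩, ⟨0, 0⟩,
  ⟨1, 0⟩), (⟨1, 0⟩, ⟨0, 0⟩, ⟨0, 0⟩, ⟨1, 0⟩), (⟨1, 0⟩, ⟨0, 0⟩, ⟨0, 0⟩, ⟨1, 0⟩), (⟨1, 0⟩, ⟨0, 0⟩,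
  ⟨0, 0⟩, ⟨1, 0⟩), (⟨1, 0⟩, ⟨0, 0⟩, ⟨0, 0⟩, ⟨1, 0⟩), (⟨1, 0⟩, ⟨0, 0⟩, ⟨0, 0⟩, ⟨1, 0⟩), (⟨1, 0⟩,
  ⟨0, 0⟩, ⟨0, 0⟩, ⟨1, 0⟩), (⟨1, 0⟩, ⟨0, 0⟩, ⟨0, 0⟩, ⟨1, 0⟩), (⟨1, 0⟩, ⟨1, -2⟩, ⟨0, 0⟩, ⟨1, 0⟩),
  (⟨1, 0⟩, ⟨0, 0⟩, ⟨0, 0⟩, ⟨1, 0⟩), (⟨1, 0⟩, ⟨0, 0⟩, ⟨0, 0⟩, ⟨1, 0⟩), (⟨1, 0⟩, ⟨0, 0⟩, ⟨0, 0⟩,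
  ⟨1, 0⟩), (⟨1, 0⟩, ⟨0, 0⟩, ⟨0, 0⟩, ⟨1, 0⟩), (⟨1, 0⟩, ⟨0, 0⟩, ⟨0, 0⟩, ⟨1, 0⟩), (⟨1, 0⟩, ⟨0, 0⟩,
  ⟨0, 0⟩, ⟨1, 0⟩), (⟨1, 0⟩, ⟨0, 0⟩, ⟨0, 0⟩, ⟨1, 0⟩), (⟨1, 0⟩, ⟨0, 0⟩, ⟨0, 0⟩, ⟨1, 0⟩), (⟨1, 0⟩,
  ⟨0, 0⟩, ⟨0, 0⟩, ⟨1, 0⟩), (⟨1, 0⟩, ⟨0, 0⟩, ⟨0, 0⟩, ⟨1, 0⟩), (⟨1, 0⟩, ⟨0, 0⟩, ⟨0, 0⟩, ⟨1, 0⟩),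
  (⟨1, 0⟩, ⟨0, 0⟩, ⟨0, 0⟩, ⟨1, 0⟩), (⟨1, 0⟩, ⟨0, 0⟩, ⟨0, 0⟩, ⟨1, 0⟩), (⟨1, 0⟩, ⟨1, -2⟩, ⟨0, 0⟩,
  ⟨1, 0⟩), (⟨1, 0⟩, ⟨0, 0⟩, ⟨0, 0⟩, ⟨1, 0⟩), (⟨1, 0⟩, ⟨0, 0⟩, ⟨0, 0⟩, ⟨1, 0⟩), (⟨1, 0⟩, ⟨0, 0⟩,
  ⟨0, 0⟩, ⟨1, 0⟩), (⟨1, 0⟩, ⟨0, 0⟩, ⟨0, 0⟩, ⟨1, 0⟩), (⟨1, 0⟩, ⟨0, 0⟩, ⟨0, 0⟩, ⟨1, 0⟩), (⟨1, 0⟩,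
  ⟨1, -2⟩, ⟨0, 0⟩, ⟨1, 0⟩), (⟨1, 0⟩, ⟨0, 0⟩, ⟨0, 0⟩, ⟨1, 0⟩), (⟨1, 0⟩, ⟨0, 0⟩, ⟨0, 0⟩, ⟨1, 0⟩),
  (⟨1, 0⟩, ⟨0, 0⟩, ⟨0, 0⟩, ⟨1, 0⟩), (⟨1, 0⟩, ⟨1, -2⟩, ⟨0, 0⟩, ⟨1, 0⟩), (⟨1, 0⟩, ⟨0, 2⟩, ⟨2, 0⟩,
  ⟨1, 4⟩), (⟨1, 0⟩, ⟨-3, 0⟩, ⟨2, 0⟩, ⟨-5, 0⟩), (⟨1, 0⟩, ⟨-3, 0⟩, ⟨2, 0⟩, ⟨-5, 0⟩), (⟨1, 0⟩, ⟨-2,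
  -2⟩, ⟨2, 0⟩, ⟨-3, -4⟩), (⟨1, -1⟩, ⟨-2, 1⟩, ⟨2, -1⟩, ⟨-3, 1⟩), (⟨1, -1⟩, ⟨-2, 1⟩, ⟨2, -1⟩, ⟨-3,
  1⟩), (⟨1, -1⟩, ⟨-2, 1⟩, ⟨2, -1⟩, ⟨-3, 1⟩), (⟨1, -1⟩, ⟨-5, -2⟩, ⟨2, -1⟩, ⟨-5, -4⟩), (⟨3, -1⟩,
  ⟨-3, 0⟩, ⟨4, 0⟩, ⟨-3, -1⟩), (⟨3, -1⟩, ⟨-3, 0⟩, ⟨4, 0⟩, ⟨-3, -1⟩), (⟨3, -1⟩, ⟨-3, 0⟩, ⟨4, 0⟩,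
  ⟨-3, -1⟩), (⟨3, -1⟩, ⟨-3, 0⟩, ⟨4, 0⟩, ⟨-3, -1⟩), (⟨1, -2⟩, ⟨-1, 3⟩, ⟨3, -1⟩, ⟨-4, 2⟩), (⟨1,
  -2⟩, ⟨-8, -1⟩, ⟨3, -1⟩, ⟨-5, -5⟩), (⟨3, -1⟩, ⟨-2, 0⟩, ⟨3, 1⟩, ⟨-1, -1⟩), (⟨3, -1⟩, ⟨-2, 0⟩,
  ⟨3, 1⟩, ⟨-1, -1⟩), (⟨3, -1⟩, ⟨-2, 0⟩, ⟨3, 1⟩, ⟨-1, -1⟩), (⟨3, -1⟩, ⟨-2, 0⟩, ⟨3, 1⟩, ⟨-1, -1⟩),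
  (⟨-5, -3⟩, ⟨2, 2⟩, ⟨1, -2⟩, ⟨-1, 1⟩), (⟨-5, -3⟩, ⟨2, 2⟩, ⟨1, -2⟩, ⟨-1, 1⟩), (⟨-5, -3⟩, ⟨2, 2⟩,
  ⟨1, -2⟩, ⟨-1, 1⟩), (⟨-5, -3⟩, ⟨2, 2⟩, ⟨1, -2⟩, ⟨-1, 1⟩), (⟨1, 1⟩, ⟨-2, -1⟩, ⟨3, -1⟩, ⟨-3, 2⟩),
  (⟨1, 1⟩, ⟨-2, -1⟩, ⟨3, -1⟩, ⟨-3, 2⟩), (⟨1, 1⟩, ⟨-2, -1⟩, ⟨3, -1⟩, ⟨-3, 2⟩), (⟨1, 1⟩, ⟨-2, -1⟩,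
  ⟨3, -1⟩, ⟨-3, 2⟩), (⟨1, 1⟩, ⟨-2, -1⟩, ⟨3, -1⟩, ⟨-3, 2⟩), (⟨1, 1⟩, ⟨3, -2⟩, ⟨3, -1⟩, ⟨-4, -5⟩),
  (⟨-1, 1⟩, ⟨1, 0⟩, ⟨3, 2⟩, ⟨0, -2⟩), (⟨-1, 1⟩, ⟨1, 0⟩, ⟨3, 2⟩, ⟨0, -2⟩), (⟨-1, 1⟩, ⟨1, 0⟩, ⟨3,
  2⟩, ⟨0, -2⟩), (⟨-1, 1⟩, ⟨1, 0⟩, ⟨3, 2⟩, ⟨0, -2⟩), (⟨1, -1⟩, ⟨-1, 0⟩, ⟨4, -3⟩, ⟨-3, 0⟩), (⟨1,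
  -1⟩, ⟨-1, 0⟩, ⟨4, -3⟩, ⟨-3, 0⟩), (⟨1, -1⟩, ⟨-1, 0⟩, ⟨4, -3⟩, ⟨-3, 0⟩), (⟨1, -1⟩, ⟨-1, 0⟩, ⟨4,
  -3⟩, ⟨-3, 0⟩), (⟨1, -4⟩, ⟨-1, 2⟩, ⟨4, -8⟩, ⟨-3, 4⟩), (⟨1, -4⟩, ⟨-1, 2⟩, ⟨4, -8⟩, ⟨-3, 4⟩)]

def potBLTab : List (O2 × O2 × O2 × O2) := [
  (⟨1, 0⟩, ⟨0, 0⟩, ⟨0, 0⟩, ⟨1, 0⟩), (⟨1, 0⟩, ⟨0, 0⟩, ⟨0, 0⟩, ⟨1, 0⟩), (⟨1, 0⟩, ⟨0, 0⟩, ⟨0, 0⟩,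
  ⟨1, 0⟩), (⟨1, 0⟩, ⟨0, 0⟩, ⟨0, 0⟩, ⟨1, 0⟩), (⟨1, 0⟩, ⟨0, 0⟩, ⟨0, 0⟩, ⟨1, 0⟩), (⟨1, 0⟩, ⟨0, 0⟩,
  ⟨0, 0⟩, ⟨1, 0⟩), (⟨1, 0⟩, ⟨0, 0⟩, ⟨0, 0⟩, ⟨1, 0⟩), (⟨1, 0⟩, ⟨0, 0⟩, ⟨0, 0⟩, ⟨1, 0⟩), (⟨1, 0⟩,
  ⟨0, 0⟩, ⟨0, 0⟩, ⟨1, 0⟩), (⟨1, 0⟩, ⟨0, 0⟩, ⟨0, 0⟩, ⟨1, 0⟩), (⟨1, 0⟩, ⟨0, 0⟩, ⟨0, 0⟩, ⟨1, 0⟩),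
  (⟨1, 0⟩, ⟨0, 0⟩, ⟨0, 0⟩, ⟨1, 0⟩), (⟨1, 0⟩, ⟨0, 0⟩, ⟨0, 0⟩, ⟨1, 0⟩), (⟨1, 0⟩, ⟨0, 0⟩, ⟨0, 0⟩,
  ⟨1, 0⟩), (⟨1, 0⟩, ⟨0, 0⟩, ⟨0, 0⟩, ⟨1, 0⟩), (⟨1, 0⟩, ⟨0, 0⟩, ⟨0, 0⟩, ⟨1, 0⟩), (⟨1, 0⟩, ⟨0, 0⟩,
  ⟨0, 0⟩, ⟨1, 0⟩), (⟨1, 0⟩, ⟨1, -2⟩, ⟨0, 0⟩, ⟨1, 0⟩), (⟨1, 0⟩, ⟨0, 0⟩, ⟨0, 0⟩, ⟨1, 0⟩), (⟨1, 0⟩,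
  ⟨0, 0⟩, ⟨0, 0⟩, ⟨1, 0⟩), (⟨1, 0⟩, ⟨0, 0⟩, ⟨0, 0⟩, ⟨1, 0⟩), (⟨1, 0⟩, ⟨0, 0⟩, ⟨0, 0⟩, ⟨1, 0⟩),
  (⟨1, 0⟩, ⟨0, 0⟩, ⟨0, 0⟩, ⟨1, 0⟩), (⟨1, 0⟩, ⟨0, 0⟩, ⟨0, 0⟩, ⟨1, 0⟩), (⟨1, 0⟩, ⟨0, 0⟩, ⟨0, 0⟩,
  ⟨1, 0⟩), (⟨1, 0⟩, ⟨0, 0⟩, ⟨0, 0⟩, ⟨1, 0⟩), (⟨1, 0⟩, ⟨0, 0⟩, ⟨0, 0⟩, ⟨1, 0⟩), (⟨1, 0⟩, ⟨0, 0⟩,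
  ⟨0, 0⟩, ⟨1, 0⟩), (⟨1, 0⟩, ⟨0, 0⟩, ⟨0, 0⟩, ⟨1, 0⟩), (⟨1, 0⟩, ⟨0, 0⟩, ⟨0, 0⟩, ⟨1, 0⟩), (⟨1, 0⟩,
  ⟨0, 0⟩, ⟨0, 0⟩, ⟨1, 0⟩), (⟨1, 0⟩, ⟨0, 0⟩, ⟨0, 0⟩, ⟨1, 0⟩), (⟨1, 0⟩, ⟨0, 0⟩, ⟨0, 0⟩, ⟨1, 0⟩),
  (⟨1, 0⟩, ⟨0, 0⟩, ⟨0, 0⟩, ⟨1, 0⟩), (⟨1, 0⟩, ⟨0, 0⟩, ⟨0, 0⟩, ⟨1, 0⟩), (⟨1, 0⟩, ⟨0, 0⟩, ⟨0, 0⟩,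
  ⟨1, 0⟩), (⟨3, -2⟩, ⟨-1, 2⟩, ⟨4, -3⟩, ⟨-1, 3⟩), (⟨3, -2⟩, ⟨-1, 2⟩, ⟨4, -3⟩, ⟨-1, 3⟩), (⟨3, -2⟩,
  ⟨-1, 2⟩, ⟨4, -3⟩, ⟨-1, 3⟩), (⟨3, -2⟩, ⟨-1, 2⟩, ⟨4, -3⟩, ⟨-1, 3⟩), (⟨4, 1⟩, ⟨-3, 1⟩, ⟨3, 2⟩,
  ⟨-3, 0⟩), (⟨4, 1⟩, ⟨-3, 1⟩, ⟨3, 2⟩, ⟨-3, 0⟩), (⟨4, 1⟩, ⟨-3, 1⟩, ⟨3, 2⟩, ⟨-3, 0⟩), (⟨4, 1⟩,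
  ⟨-3, 1⟩, ⟨3, 2⟩, ⟨-3, 0⟩), (⟨2, -2⟩, ⟨5, 5⟩, ⟨3, -1⟩, ⟨1, 6⟩), (⟨2, -2⟩, ⟨-1, -1⟩, ⟨3, -1⟩,
  ⟨0, -1⟩), (⟨2, -2⟩, ⟨-1, -1⟩, ⟨3, -1⟩, ⟨0, -1⟩), (⟨2, -2⟩, ⟨-1, -1⟩, ⟨3, -1⟩, ⟨0, -1⟩), (⟨2,
  -2⟩, ⟨-1, -1⟩, ⟨3, -1⟩, ⟨0, -1⟩), (⟨2, -2⟩, ⟨-1, -1⟩, ⟨3, -1⟩, ⟨0, -1⟩), (⟨-1, -3⟩, ⟨1, 1⟩,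
  ⟨1, -2⟩, ⟨0, 1⟩), (⟨-1, -3⟩, ⟨1, 1⟩, ⟨1, -2⟩, ⟨0, 1⟩), (⟨-1, -3⟩, ⟨1, 1⟩, ⟨1, -2⟩, ⟨0, 1⟩),
  (⟨-1, -3⟩, ⟨1, 1⟩, ⟨1, -2⟩, ⟨0, 1⟩), (⟨0, 2⟩, ⟨-1, -1⟩, ⟨3, 1⟩, ⟨-2, 0⟩), (⟨0, 2⟩, ⟨-1, -1⟩,
  ⟨3, 1⟩, ⟨-2, 0⟩), (⟨0, 2⟩, ⟨-1, -1⟩, ⟨3, 1⟩, ⟨-2, 0⟩), (⟨0, 2⟩, ⟨-1, -1⟩, ⟨3, 1⟩, ⟨-2, 0⟩),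
  (⟨2, 1⟩, ⟨-5, 3⟩, ⟨3, -1⟩, ⟨2, 6⟩), (⟨2, 1⟩, ⟨1, 0⟩, ⟨3, -1⟩, ⟨1, -1⟩), (⟨1, 1⟩, ⟨-1, 0⟩, ⟨4,
  0⟩, ⟨-1, 1⟩), (⟨1, 1⟩, ⟨-1, 0⟩, ⟨4, 0⟩, ⟨-1, 1⟩), (⟨1, 1⟩, ⟨-1, 0⟩, ⟨4, 0⟩, ⟨-1, 1⟩), (⟨1, 1⟩,
  ⟨-1, 0⟩, ⟨4, 0⟩, ⟨-1, 1⟩), (⟨1, 0⟩, ⟨-1, 2⟩, ⟨2, -1⟩, ⟨3, 5⟩), (⟨1, 0⟩, ⟨0, 0⟩, ⟨2, -1⟩, ⟨1,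
  0⟩), (⟨1, 0⟩, ⟨0, 0⟩, ⟨2, -1⟩, ⟨1, 0⟩), (⟨1, 0⟩, ⟨0, 0⟩, ⟨2, -1⟩, ⟨1, 0⟩), (⟨1, 0⟩, ⟨0, 2⟩,
  ⟨2, 0⟩, ⟨1, 4⟩), (⟨1, 0⟩, ⟨1, 0⟩, ⟨2, 0⟩, ⟨3, 0⟩), (⟨1, 0⟩, ⟨1, 0⟩, ⟨2, 0⟩, ⟨3, 0⟩), (⟨1, 0⟩,
  ⟨-2, -2⟩, ⟨2, 0⟩, ⟨-3, -4⟩), (⟨1, 0⟩, ⟨-3, 0⟩, ⟨2, 0⟩, ⟨-5, 0⟩), (⟨1, 0⟩, ⟨-2, -2⟩, ⟨2, 0⟩,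
  ⟨-3, -4⟩), (⟨1, -1⟩, ⟨-2, 1⟩, ⟨2, -1⟩, ⟨-3, 1⟩), (⟨1, -1⟩, ⟨-2, 1⟩, ⟨2, -1⟩, ⟨-3, 1⟩), (⟨1,
  -1⟩, ⟨-2, 1⟩, ⟨2, -1⟩, ⟨-3, 1⟩), (⟨1, -1⟩, ⟨-5, -2⟩, ⟨2, -1⟩, ⟨-5, -4⟩), (⟨3, -1⟩, ⟨-3, 0⟩,
  ⟨4, 0⟩, ⟨-3, -1⟩), (⟨3, -1⟩, ⟨-3, 0⟩, ⟨4, 0⟩, ⟨-3, -1⟩), (⟨3, -1⟩, ⟨-3, 0⟩, ⟨4, 0⟩, ⟨-3, -1⟩),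
  (⟨3, -1⟩, ⟨-3, 0⟩, ⟨4, 0⟩, ⟨-3, -1⟩), (⟨1, -2⟩, ⟨-1, 3⟩, ⟨3, -1⟩, ⟨-4, 2⟩), (⟨1, -2⟩, ⟨-8,
  -1⟩, ⟨3, -1⟩, ⟨-5, -5⟩), (⟨3, -1⟩, ⟨-2, 0⟩, ⟨3, 1⟩, ⟨-1, -1⟩), (⟨3, -1⟩, ⟨-2, 0⟩, ⟨3, 1⟩, ⟨-1,
  -1⟩), (⟨3, -1⟩, ⟨-2, 0⟩, ⟨3, 1⟩, ⟨-1, -1⟩), (⟨3, -1⟩, ⟨-2, 0⟩, ⟨3, 1⟩, ⟨-1, -1⟩), (⟨-5, -3⟩,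
  ⟨2, 2⟩, ⟨1, -2⟩, ⟨-1, 1⟩), (⟨-5, -3⟩, ⟨2, 2⟩, ⟨1, -2⟩, ⟨-1, 1⟩), (⟨2, 1⟩, ⟨-1, -1⟩, ⟨1, -2⟩,
  ⟨-1, 1⟩), (⟨2, 1⟩, ⟨-1, -1⟩, ⟨1, -2⟩, ⟨-1, 1⟩), (⟨1, 1⟩, ⟨-2, -1⟩, ⟨3, -1⟩, ⟨-3, 2⟩), (⟨1, 1⟩,
  ⟨-2, -1⟩, ⟨3, -1⟩, ⟨-3, 2⟩), (⟨1, 1⟩, ⟨-2, -1⟩, ⟨3, -1⟩, ⟨-3, 2⟩), (⟨1, 1⟩, ⟨-2, -1⟩, ⟨3, -1⟩,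
  ⟨-3, 2⟩), (⟨1, 1⟩, ⟨-2, -1⟩, ⟨3, -1⟩, ⟨-3, 2⟩), (⟨1, 1⟩, ⟨3, -2⟩, ⟨3, -1⟩, ⟨-4, -5⟩), (⟨-1,
  1⟩, ⟨1, 0⟩, ⟨3, 2⟩, ⟨0, -2⟩), (⟨-1, 1⟩, ⟨1, 0⟩, ⟨3, 2⟩, ⟨0, -2⟩), (⟨-1, 1⟩, ⟨1, 0⟩, ⟨3, 2⟩,
  ⟨0, -2⟩), (⟨-1, 1⟩, ⟨1, 0⟩, ⟨3, 2⟩, ⟨0, -2⟩), (⟨1, -1⟩, ⟨-1, 0⟩, ⟨4, -3⟩, ⟨-3, 0⟩), (⟨1, -1⟩,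
  ⟨-1, 0⟩, ⟨4, -3⟩, ⟨-3, 0⟩), (⟨1, -1⟩, ⟨-1, 0⟩, ⟨4, -3⟩, ⟨-3, 0⟩), (⟨1, -1⟩, ⟨-1, 0⟩, ⟨4, -3⟩,
  ⟨-3, 0⟩), (⟨1, -4⟩, ⟨-1, 2⟩, ⟨4, -8⟩, ⟨-3, 4⟩), (⟨1, -4⟩, ⟨-1, 2⟩, ⟨4, -8⟩, ⟨-3, 4⟩)]

def potBRTab : List (O2 × O2 × O2 × O2) := [
  (⟨1, 0⟩, ⟨0, 0⟩, ⟨0, 0⟩, ⟨1, 0⟩), (⟨1, 0⟩, ⟨0, 0⟩, ⟨0, 0⟩, ⟨1, 0⟩), (⟨1, 0⟩, ⟨0, 0⟩, ⟨0, 0⟩,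
  ⟨1, 0⟩), (⟨1, 0⟩, ⟨0, 0⟩, ⟨0, 0⟩, ⟨1, 0⟩), (⟨1, 0⟩, ⟨0, 0⟩, ⟨0, 0⟩, ⟨1, 0⟩), (⟨1, 0⟩, ⟨0, 0⟩,
  ⟨0, 0⟩, ⟨1, 0⟩), (⟨1, 0⟩, ⟨0, 0⟩, ⟨0, 0⟩, ⟨1, 0⟩), (⟨1, 0⟩, ⟨0, 0⟩, ⟨0, 0⟩, ⟨1, 0⟩), (⟨1, 0⟩,
  ⟨0, 0⟩, ⟨0, 0⟩, ⟨1, 0⟩), (⟨1, 0⟩, ⟨0, 0⟩, ⟨0, 0⟩, ⟨1, 0⟩), (⟨1, 0⟩, ⟨0, 0⟩, ⟨0, 0⟩, ⟨1, 0⟩),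
  (⟨1, 0⟩, ⟨0, 0⟩, ⟨0, 0⟩, ⟨1, 0⟩), (⟨1, 0⟩, ⟨0, 0⟩, ⟨0, 0⟩, ⟨1, 0⟩), (⟨1, 0⟩, ⟨0, 0⟩, ⟨0, 0⟩,
  ⟨1, 0⟩), (⟨1, 0⟩, ⟨0, 0⟩, ⟨0, 0⟩, ⟨1, 0⟩), (⟨1, 0⟩, ⟨0, 0⟩, ⟨0, 0⟩, ⟨1, 0⟩), (⟨1, 0⟩, ⟨0, 0⟩,
  ⟨0, 0⟩, ⟨1, 0⟩), (⟨1, 0⟩, ⟨1, -2⟩, ⟨0, 0⟩, ⟨1, 0⟩), (⟨1, 0⟩, ⟨0, 0⟩, ⟨0, 0⟩, ⟨1, 0⟩), (⟨1, 0⟩,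
  ⟨0, 0⟩, ⟨0, 0⟩, ⟨1, 0⟩), (⟨1, 0⟩, ⟨0, 0⟩, ⟨0, 0⟩, ⟨1, 0⟩), (⟨1, 0⟩, ⟨0, 0⟩, ⟨0, 0⟩, ⟨1, 0⟩),
  (⟨1, 0⟩, ⟨0, 0⟩, ⟨0, 0⟩, ⟨1, 0⟩), (⟨1, 0⟩, ⟨0, 0⟩, ⟨0, 0⟩, ⟨1, 0⟩), (⟨1, 0⟩, ⟨0, 0⟩, ⟨0, 0⟩,
  ⟨1, 0⟩), (⟨1, 0⟩, ⟨0, 0⟩, ⟨0, 0⟩, ⟨1, 0⟩), (⟨1, 0⟩, ⟨0, 0⟩, ⟨0, 0⟩, ⟨1, 0⟩), (⟨1, 0⟩, ⟨0, 0⟩,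
  ⟨0, 0⟩, ⟨1, 0⟩), (⟨1, 0⟩, ⟨0, 0⟩, ⟨0, 0⟩, ⟨1, 0⟩), (⟨1, 0⟩, ⟨0, 0⟩, ⟨0, 0⟩, ⟨1, 0⟩), (⟨1, 0⟩,
  ⟨0, 0⟩, ⟨0, 0⟩, ⟨1, 0⟩), (⟨1, 0⟩, ⟨0, 0⟩, ⟨0, 0⟩, ⟨1, 0⟩), (⟨1, 0⟩, ⟨0, 0⟩, ⟨0, 0⟩, ⟨1, 0⟩),
  (⟨1, 0⟩, ⟨0, 0⟩, ⟨0, 0⟩, ⟨1, 0⟩), (⟨1, 0⟩, ⟨0, 0⟩, ⟨0, 0⟩, ⟨1, 0⟩), (⟨1, 0⟩, ⟨0, 0⟩, ⟨0, 0⟩,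
  ⟨1, 0⟩), (⟨-3, 2⟩, ⟨1, -2⟩, ⟨-4, 3⟩, ⟨1, -3⟩), (⟨-3, 2⟩, ⟨1, -2⟩, ⟨-4, 3⟩, ⟨1, -3⟩), (⟨-3, 2⟩,
  ⟨1, -2⟩, ⟨-4, 3⟩, ⟨1, -3⟩), (⟨-3, 2⟩, ⟨1, -2⟩, ⟨-4, 3⟩, ⟨1, -3⟩), (⟨-4, -1⟩, ⟨3, -1⟩, ⟨-3,
  -2⟩, ⟨3, 0⟩), (⟨-4, -1⟩, ⟨3, -1⟩, ⟨-3, -2⟩, ⟨3, 0⟩), (⟨-4, -1⟩, ⟨3, -1⟩, ⟨-3, -2⟩, ⟨3, 0⟩),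
  (⟨-4, -1⟩, ⟨3, -1⟩, ⟨-3, -2⟩, ⟨3, 0⟩), (⟨-2, 2⟩, ⟨-5, -5⟩, ⟨-3, 1⟩, ⟨-1, -6⟩), (⟨-2, 2⟩, ⟨1,
  1⟩, ⟨-3, 1⟩, ⟨0, 1⟩), (⟨-2, 2⟩, ⟨1, 1⟩, ⟨-3, 1⟩, ⟨0, 1⟩), (⟨-2, 2⟩, ⟨1, 1⟩, ⟨-3, 1⟩, ⟨0, 1⟩),
  (⟨-2, 2⟩, ⟨1, 1⟩, ⟨-3, 1⟩, ⟨0, 1⟩), (⟨-2, 2⟩, ⟨1, 1⟩, ⟨-3, 1⟩, ⟨0, 1⟩), (⟨1, 3⟩, ⟨-1, -1⟩,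
  ⟨-1, 2⟩, ⟨0, -1⟩), (⟨1, 3⟩, ⟨-1, -1⟩, ⟨-1, 2⟩, ⟨0, -1⟩), (⟨1, 3⟩, ⟨-1, -1⟩, ⟨-1, 2⟩, ⟨0, -1⟩),
  (⟨1, 3⟩, ⟨-1, -1⟩, ⟨-1, 2⟩, ⟨0, -1⟩), (⟨0, -2⟩, ⟨1, 1⟩, ⟨-3, -1⟩, ⟨2, 0⟩), (⟨0, -2⟩, ⟨1, 1⟩,
  ⟨-3, -1⟩, ⟨2, 0⟩), (⟨0, -2⟩, ⟨1, 1⟩, ⟨-3, -1⟩, ⟨2, 0⟩), (⟨0, -2⟩, ⟨1, 1⟩, ⟨-3, -1⟩, ⟨2, 0⟩),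
  (⟨-2, -1⟩, ⟨5, -3⟩, ⟨-3, 1⟩, ⟨-2, -6⟩), (⟨-2, -1⟩, ⟨-1, 0⟩, ⟨-3, 1⟩, ⟨-1, 1⟩), (⟨-1, -1⟩, ⟨1,
  0⟩, ⟨-4, 0⟩, ⟨1, -1⟩), (⟨-1, -1⟩, ⟨1, 0⟩, ⟨-4, 0⟩, ⟨1, -1⟩), (⟨-1, -1⟩, ⟨1, 0⟩, ⟨-4, 0⟩, ⟨1,
  -1⟩), (⟨-1, -1⟩, ⟨1, 0⟩, ⟨-4, 0⟩, ⟨1, -1⟩), (⟨-1, 0⟩, ⟨1, -2⟩, ⟨-2, 1⟩, ⟨-3, -5⟩), (⟨-1, 0⟩,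
  ⟨0, 0⟩, ⟨-2, 1⟩, ⟨-1, 0⟩), (⟨-1, 0⟩, ⟨0, 0⟩, ⟨-2, 1⟩, ⟨-1, 0⟩), (⟨-1, 0⟩, ⟨0, 0⟩, ⟨-2, 1⟩,
  ⟨-1, 0⟩), (⟨-1, 0⟩, ⟨0, -2⟩, ⟨-2, 0⟩, ⟨-1, -4⟩), (⟨-1, 0⟩, ⟨-1, 0⟩, ⟨-2, 0⟩, ⟨-3, 0⟩), (⟨-1,
  0⟩, ⟨-1, 0⟩, ⟨-2, 0⟩, ⟨-3, 0⟩), (⟨-1, 0⟩, ⟨2, 2⟩, ⟨-2, 0⟩, ⟨3, 4⟩), (⟨1, 0⟩, ⟨-3, 0⟩, ⟨2, 0⟩,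
  ⟨-5, 0⟩), (⟨1, 0⟩, ⟨-2, -2⟩, ⟨2, 0⟩, ⟨-3, -4⟩), (⟨1, -1⟩, ⟨-2, 1⟩, ⟨2, -1⟩, ⟨-3, 1⟩), (⟨1,
  -1⟩, ⟨-2, 1⟩, ⟨2, -1⟩, ⟨-3, 1⟩), (⟨1, -1⟩, ⟨-2, 1⟩, ⟨2, -1⟩, ⟨-3, 1⟩), (⟨1, -1⟩, ⟨-5, -2⟩, ⟨2,
  -1⟩, ⟨-5, -4⟩), (⟨3, -1⟩, ⟨-3, 0⟩, ⟨4, 0⟩, ⟨-3, -1⟩), (⟨3, -1⟩, ⟨-3, 0⟩, ⟨4, 0⟩, ⟨-3, -1⟩),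
  (⟨3, -1⟩, ⟨-3, 0⟩, ⟨4, 0⟩, ⟨-3, -1⟩), (⟨3, -1⟩, ⟨-3, 0⟩, ⟨4, 0⟩, ⟨-3, -1⟩), (⟨1, -2⟩, ⟨-1, 3⟩,
  ⟨3, -1⟩, ⟨-4, 2⟩), (⟨1, -2⟩, ⟨-8, -1⟩, ⟨3, -1⟩, ⟨-5, -5⟩), (⟨3, -1⟩, ⟨-2, 0⟩, ⟨3, 1⟩, ⟨-1,
  -1⟩), (⟨3, -1⟩, ⟨-2, 0⟩, ⟨3, 1⟩, ⟨-1, -1⟩), (⟨3, -1⟩, ⟨-2, 0⟩, ⟨3, 1⟩, ⟨-1, -1⟩), (⟨3, -1⟩,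
  ⟨-2, 0⟩, ⟨3, 1⟩, ⟨-1, -1⟩), (⟨-5, -3⟩, ⟨2, 2⟩, ⟨1, -2⟩, ⟨-1, 1⟩), (⟨-5, -3⟩, ⟨2, 2⟩, ⟨1, -2⟩,
  ⟨-1, 1⟩), (⟨2, 1⟩, ⟨-1, -1⟩, ⟨1, -2⟩, ⟨-1, 1⟩), (⟨2, 1⟩, ⟨-1, -1⟩, ⟨1, -2⟩, ⟨-1, 1⟩), (⟨1, 1⟩,
  ⟨-2, -1⟩, ⟨3, -1⟩, ⟨-3, 2⟩), (⟨1, 1⟩, ⟨-2, -1⟩, ⟨3, -1⟩, ⟨-3, 2⟩), (⟨1, 1⟩, ⟨-2, -1⟩, ⟨3, -1⟩,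
  ⟨-3, 2⟩), (⟨1, 1⟩, ⟨-2, -1⟩, ⟨3, -1⟩, ⟨-3, 2⟩), (⟨1, 1⟩, ⟨-2, -1⟩, ⟨3, -1⟩, ⟨-3, 2⟩), (⟨1, 1⟩,
  ⟨3, -2⟩, ⟨3, -1⟩, ⟨-4, -5⟩), (⟨-1, 1⟩, ⟨1, 0⟩, ⟨3, 2⟩, ⟨0, -2⟩), (⟨-1, 1⟩, ⟨1, 0⟩, ⟨3, 2⟩, ⟨0,
  -2⟩), (⟨-1, 1⟩, ⟨1, 0⟩, ⟨3, 2⟩, ⟨0, -2⟩), (⟨-1, 1⟩, ⟨1, 0⟩, ⟨3, 2⟩, ⟨0, -2⟩), (⟨1, -1⟩, ⟨-1,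
  0⟩, ⟨4, -3⟩, ⟨-3, 0⟩), (⟨1, -1⟩, ⟨-1, 0⟩, ⟨4, -3⟩, ⟨-3, 0⟩), (⟨1, -1⟩, ⟨-1, 0⟩, ⟨4, -3⟩, ⟨-3,
  0⟩), (⟨1, -1⟩, ⟨-1, 0⟩, ⟨4, -3⟩, ⟨-3, 0⟩), (⟨1, -4⟩, ⟨-1, 2⟩, ⟨4, -8⟩, ⟨-3, 4⟩), (⟨1, -4⟩,
  ⟨-1, 2⟩, ⟨4, -8⟩, ⟨-3, 4⟩)]


/-- potential for the steps `X ≠ 1` (around the edge midpoints `M`). -/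
def potM (p : Flag) : O2 × O2 × O2 × O2 :=
  if p.1 then potMLTab.getD p.2 (1, 0, 0, 1) else potMRTab.getD p.2 (1, 0, 0, 1)

/-- potential for the steps `X ≠ 2` (around the barycentres `B`). -/
def potB (p : Flag) : O2 × O2 × O2 × O2 :=
  if p.1 then potBLTab.getD p.2 (1, 0, 0, 1) else potBRTab.getD p.2 (1, 0, 0, 1)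

/-- minus a quadruple. -/
def negQ (g : O2 × O2 × O2 × O2) : O2 × O2 × O2 × O2 := (-g.1, -g.2.1, -g.2.2.1, -g.2.2.2)

theorem num_potM : ∀ (p : Flag) (X : Fin 4), X ≠ 1 →
    mulQQ (potM p) (glM p X) = potM (fl p X) ∨ mulQQ (potM p) (glM p X) = negQ (potM (fl p X)) := by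
  decide +kernel

theorem num_potB : ∀ (p : Flag) (X : Fin 4), X ≠ 2 →
    mulQQ (potB p) (glM p X) = potB (fl p X) ∨ mulQQ (potB p) (glM p X) = negQ (potB (fl p X)) := by
  decide +kernel

theorem potM_det : ∀ p : Flag,
    (potM p).1 * (potM p).2.2.2 - (potM p).2.1 * (potM p).2.2.1 = (1 : O2) := by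
  decide +kernel

theorem potB_det : ∀ p : Flag,
    (potB p).1 * (potB p).2.2.2 - (potB p).2.1 * (potB p).2.2.1 = (1 : O2) := by
  decide +kernel

/-- element of `SL(2, O2)` with given entries. -/
def ofQ (g : O2 × O2 × O2 × O2) (h : g.1 * g.2.2.2 - g.2.1 * g.2.2.1 = (1 : O2)) : SL(2, O2) :=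
  ⟨!![g.1, g.2.1; g.2.2.1, g.2.2.2], by rw [Matrix.det_fin_two_of]; exact h⟩

theorem ofQ_mul (g k l : O2 × O2 × O2 × O2) (hg : g.1 * g.2.2.2 - g.2.1 * g.2.2.1 = (1 : O2))
    (hk : k.1 * k.2.2.2 - k.2.1 * k.2.2.1 = (1 : O2)) (hl : l.1 * l.2.2.2 - l.2.1 * l.2.2.1 = (1 : O2))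
    (h : mulQQ g k = l ∨ mulQQ g k = negQ l) :
    ofQ g hg * ofQ k hk = ofQ l hl ∨ ofQ g hg * ofQ k hk = -ofQ l hl := by
  have key : (ofQ g hg * ofQ k hk).1 =
      !![(mulQQ g k).1, (mulQQ g k).2.1; (mulQQ g k).2.2.1, (mulQQ g k).2.2.2] := by
    rw [sl_mul_val]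
    simp only [ofQ, mulQQ, Matrix.mul_fin_two]
  rcases h with h | h
  · left
    apply Subtype.ext
    rw [key, h]
    rfl
  · right
    apply Subtype.ext
    rw [key, h]
    change _ = -(!![l.1, l.2.1; l.2.2.1, l.2.2.2])
    apply Matrix.ext
    intro i j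
    fin_cases i <;> fin_cases j <;> simp [negQ]

/-- potential around `M`. -/
theorem exists_potM : ∃ h : Flag → SL(2, O2), ∀ p X, X ≠ 1 →
    (h p * glS p X = h (fl p X) ∨ h p * glS p X = -h (fl p X)) :=
  ⟨fun p => ofQ (potM p) (potM_det p), fun p X hX =>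
    ofQ_mul (potM p) (glM p X) (potM (fl p X)) (potM_det p) (glM_det p X) (potM_det _) (num_potM p X hX)⟩

/-- potential around `B`. -/
theorem exists_potB : ∃ h : Flag → SL(2, O2), ∀ p X, X ≠ 2 →
    (h p * glS p X = h (fl p X) ∨ h p * glS p X = -h (fl p X)) :=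
  ⟨fun p => ofQ (potB p) (potB_det p), fun p X hX =>
    ofQ_mul (potB p) (glM p X) (potB (fl p X)) (potB_det p) (glM_det p X) (potB_det _) (num_potB p X hX)⟩

/-- the gluings of types `1` and `2` are trivial. -/
theorem glS_one (p : Flag) : glS p 1 = 1 ∧ glS p 2 = 1 :=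
  ⟨Subtype.ext Matrix.one_fin_two.symm, Subtype.ext Matrix.one_fin_two.symm⟩

/-! second columns of elements with first column `vc a`. -/

def hcTab : List (O2 × O2) := [
  (⟨1, 0⟩, ⟨2, 0⟩), (⟨-1, 1⟩, ⟨-2, 1⟩), (⟨-1, 1⟩, ⟨-2, 1⟩), (⟨-1, 0⟩, ⟨0, 0⟩), (⟨-1, 0⟩, ⟨0,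
  0⟩), (⟨1, -1⟩, ⟨2, -1⟩), (⟨1, -1⟩, ⟨2, -1⟩), (⟨-4, -1⟩, ⟨-3, -2⟩), (⟨-4, -1⟩, ⟨-3, -2⟩), (⟨-1,
  0⟩, ⟨-1, 0⟩), (⟨-1, 0⟩, ⟨-1, 0⟩), (⟨1, -2⟩, ⟨3, -1⟩), (⟨1, -2⟩, ⟨3, -1⟩), (⟨1, 0⟩, ⟨1, 0⟩),
  (⟨1, 0⟩, ⟨1, 0⟩), (⟨-1, 0⟩, ⟨0, 0⟩), (⟨-1, 0⟩, ⟨0, 0⟩), (⟨-1, 0⟩, ⟨0, 0⟩), (⟨-1, 0⟩, ⟨0, 0⟩),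
  (⟨0, 1⟩, ⟨1, 0⟩), (⟨0, 1⟩, ⟨1, 0⟩), (⟨0, 2⟩, ⟨3, 1⟩), (⟨0, 2⟩, ⟨3, 1⟩), (⟨0, 0⟩, ⟨1, 0⟩), (⟨0,
  0⟩, ⟨1, 0⟩), (⟨1, -1⟩, ⟨-2, -2⟩), (⟨1, -1⟩, ⟨-2, -2⟩), (⟨-1, 0⟩, ⟨-2, 1⟩), (⟨-1, 0⟩, ⟨-2, 1⟩),
  (⟨-1, 0⟩, ⟨0, 0⟩), (⟨-1, 0⟩, ⟨0, 0⟩), (⟨-1, 0⟩, ⟨-2, 0⟩), (⟨-1, 0⟩, ⟨-2, 0⟩), (⟨-1, 0⟩, ⟨-2,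
  0⟩), (⟨-1, 0⟩, ⟨-2, 0⟩), (⟨-1, 1⟩, ⟨-2, 1⟩), (⟨-1, 1⟩, ⟨-2, 1⟩), (⟨1, -1⟩, ⟨2, -1⟩), (⟨1, -1⟩,
  ⟨2, -1⟩), (⟨-1, 0⟩, ⟨-1, 0⟩), (⟨-1, 0⟩, ⟨-1, 0⟩), (⟨1, -2⟩, ⟨3, -1⟩), (⟨1, -2⟩, ⟨3, -1⟩),
  (⟨-1, 0⟩, ⟨0, 0⟩), (⟨-1, 0⟩, ⟨0, 0⟩), (⟨0, 1⟩, ⟨1, 0⟩), (⟨0, 1⟩, ⟨1, 0⟩), (⟨1, -1⟩, ⟨-2, -2⟩),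
  (⟨1, -1⟩, ⟨-2, -2⟩), (⟨-1, 0⟩, ⟨0, 0⟩), (⟨-1, 0⟩, ⟨0, 0⟩), (⟨-1, 0⟩, ⟨-2, 0⟩), (⟨-1, 0⟩, ⟨-2,
  0⟩), (⟨-1, 1⟩, ⟨-2, 1⟩), (⟨-1, 1⟩, ⟨-2, 1⟩), (⟨-1, 0⟩, ⟨-1, 0⟩), (⟨-1, 0⟩, ⟨-1, 0⟩), (⟨-1, 0⟩,
  ⟨0, 0⟩), (⟨-1, 0⟩, ⟨0, 0⟩), (⟨-1, 0⟩, ⟨0, 0⟩), (⟨-1, 0⟩, ⟨0, 0⟩), (⟨-1, 1⟩, ⟨-2, 1⟩), (⟨-1,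
  1⟩, ⟨-2, 1⟩), (⟨-1, 0⟩, ⟨0, 0⟩), (⟨-1, 0⟩, ⟨0, 0⟩), (⟨-1, 0⟩, ⟨0, 0⟩), (⟨-1, 0⟩, ⟨0, 0⟩),
  (⟨-1, 0⟩, ⟨0, 0⟩), (⟨-1, 0⟩, ⟨0, 0⟩), (⟨-1, 0⟩, ⟨0, 0⟩), (⟨-1, 0⟩, ⟨0, 0⟩), (⟨-1, 0⟩, ⟨0, 0⟩),
  (⟨-1, 0⟩, ⟨0, 0⟩), (⟨-1, 0⟩, ⟨0, 0⟩), (⟨-1, 0⟩, ⟨0, 0⟩), (⟨-1, 0⟩, ⟨0, 0⟩), (⟨-1, 0⟩, ⟨0, 0⟩),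
  (⟨-1, 0⟩, ⟨0, 0⟩), (⟨-1, 0⟩, ⟨0, 0⟩), (⟨-1, 0⟩, ⟨-2, 0⟩), (⟨-1, 0⟩, ⟨-2, 0⟩), (⟨-1, 0⟩, ⟨0,
  0⟩), (⟨-1, 0⟩, ⟨0, 0⟩), (⟨-1, 0⟩, ⟨0, 0⟩), (⟨-1, 0⟩, ⟨0, 0⟩), (⟨0, 0⟩, ⟨1, 0⟩), (⟨0, 0⟩, ⟨1,
  0⟩), (⟨-1, 0⟩, ⟨-2, 0⟩), (⟨-1, 0⟩, ⟨-2, 0⟩), (⟨1, 0⟩, ⟨2, 0⟩), (⟨1, 0⟩, ⟨2, 0⟩), (⟨-1, 0⟩, ⟨0,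
  0⟩), (⟨-1, 0⟩, ⟨0, 0⟩), (⟨-4, -1⟩, ⟨-3, -2⟩), (⟨-4, -1⟩, ⟨-3, -2⟩), (⟨1, 0⟩, ⟨1, 0⟩), (⟨1, 0⟩,
  ⟨1, 0⟩), (⟨-1, 0⟩, ⟨0, 0⟩), (⟨-1, 0⟩, ⟨0, 0⟩), (⟨0, 2⟩, ⟨3, 1⟩), (⟨0, 2⟩, ⟨3, 1⟩), (⟨0, 0⟩,
  ⟨1, 0⟩), (⟨0, 0⟩, ⟨1, 0⟩), (⟨-1, 0⟩, ⟨-2, 1⟩), (⟨-1, 0⟩, ⟨-2, 1⟩), (⟨-1, 0⟩, ⟨-2, 0⟩), (⟨-1,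
  0⟩, ⟨-2, 0⟩), (⟨1, 0⟩, ⟨2, 0⟩)]

/-- second column of the completion of `vc a`. -/
def hc (a : Fin 108) : O2 × O2 := hcTab.getD a (0, 0)

theorem hc_det : ∀ a : Fin 108, (vc a).1 * (hc a).2 - (hc a).1 * (vc a).2 = (1 : O2) := by
  decide +kernel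

end Pool.AML.HH
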