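import Pool.Agent.AML.H.K
import Pool.Agent.AML.H.Pot
set_option linter.style.longLine false
open Matrix Topology
open scoped MatrixGroups ComplexConjugate ComplexOrder

namespace Pool.AML.HH

/-!
Row AMH-FR (freeness). `tiling.1`: `s = (p, k)`, `k ∈ Γ`, `InC v s`. With `t = (p, g * k)`: `co t v = co (p, g * k) (rho (slC g) v) = co (p, k) v`
(`co_mul`, `h`), so `InC v t`. `tiling.2`: a chain of `Rst v` from `(p, k)` to `(p, ± g k)`. `μ = co s v` is constant along it (`chain_co`), every step uses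
a type `X` with `μ_X = 0`. Since `v ∈ PP`, not (`μ_1 = μ_2 = 0` and (`μ_0 = 0` or `μ_3 = 0`)): otherwise `v` is a multiple of `rho g' (NR u)` and `qd v = 0`
(`qd_rho`, `qd (c • NR u) = 0`).
* `μ_1 ≠ 0`: all steps have `X ≠ 1`; `h` from `exists_potM`: along a step `(p, k) → (fl p X, k * gl)`: `(k gl) h(fl p X)⁻¹ = ± k h(p)⁻¹`. So `± g k h(p)⁻¹ = ± k h(p)⁻¹`, `g = ±1`.
* `μ_2 ≠ 0`: the same with `exists_potB`. * `μ_0, μ_3 ≠ 0` : steps `X ∈ {1, 2}`, `glS = 1` (`glS_one`), so `± g k = k`.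
-/

private theorem FR_qd (c : ℝ) (u : O2 × O2) : qd (c • NR u) = 0 := by
  obtain ⟨⟨a, b⟩, ⟨a', b'⟩⟩ := u
  simp [qd, NR, nv, Zsqrtd.norm_def]
  ring

private theorem FR_chain (v : HV) (Q : Fin 4 → Prop) (h : Flag → SL(2, O2))
    (hQ : ∀ p X, Q X → (h p * glS p X = h (fl p X) ∨ h p * glS p X = -h (fl p X)))
    (s t : Flag × SL(2, O2)) (hs : ∀ X, co s v X = 0 → Q X)
    (hc : Relation.ReflTransGen (Rst v) s t) :
    t.2 * (h t.1)⁻¹ = s.2 * (h s.1)⁻¹ ∨ t.2 * (h t.1)⁻¹ = -(s.2 * (h s.1)⁻¹) := by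
  induction hc with
  | refl => left; rfl
  | @tail y z hy hstep ih =>
    obtain ⟨X, hX, rfl⟩ := hstep
    have hX' : Q X := hs X (by rw [← chain_co hy]; exact hX)
    have key : (nbg y X).2 * (h (nbg y X).1)⁻¹ = y.2 * (h y.1)⁻¹ ∨
        (nbg y X).2 * (h (nbg y X).1)⁻¹ = -(y.2 * (h y.1)⁻¹) := by
      change y.2 * glS y.1 X * (h (fl y.1 X))⁻¹ = y.2 * (h y.1)⁻¹ ∨
        y.2 * glS y.1 X * (h (fl y.1 X))⁻¹ = -(y.2 * (h y.1)⁻¹)
      rcases hQ y.1 X hX' with h1 | h1
      · left
        rw [← h1]; group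
      · right
        have h2 : h (fl y.1 X) = -(h y.1 * glS y.1 X) := by rw [h1, neg_neg]
        have h3 : (-(h y.1 * glS y.1 X))⁻¹ = -((h y.1 * glS y.1 X)⁻¹) := by
          rw [inv_eq_iff_mul_eq_one, neg_mul_neg, mul_inv_cancel]
        rw [h2, h3, mul_neg]
        congr 1
        group
    rcases key with h1 | h1 <;> rcases ih with h2 | h2
    · left; rw [h1, h2]
    · right; rw [h1, h2]
    · right; rw [h1, h2]
    · left; rw [h1, h2, neg_neg]

private theorem FR_end (p : Flag) (k g c : SL(2, O2)) (t : Flag × SL(2, O2))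
    (ht : t = (p, g * k) ∨ t = (p, -(g * k)))
    (h : t.2 * c = k * c ∨ t.2 * c = -(k * c)) : g = 1 ∨ g = -1 := by
  have key : g * k * c = k * c ∨ g * k * c = -(k * c) := by
    rcases ht with rfl | rfl
    · exact h
    · simp only [neg_mul] at h
      rcases h with h | h
      · right; rw [← h, neg_neg]
      · left; exact neg_injective h
  rcases key with h1 | h1
  · left
    rw [mul_assoc] at h1
    exact mul_eq_right.1 h1
  · right
    have h2 : g * (k * c) = (-1) * (k * c) := by rw [← mul_assoc, h1, neg_mul, one_mul]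
    exact mul_right_cancel h2

theorem free {Γ : Subgroup SL(2, O2)} (hΓ : GoodGrp Γ) (g : SL(2, O2)) (hg : g ∈ Γ) (v : HV)
    (hv : v ∈ PP) (h : rho (slC g) v = v) : g = 1 ∨ g = -1 := by
  obtain ⟨⟨p, k⟩, hk, hin⟩ := (tiling hΓ).1 v hv
  simp only at hk
  have hin2 : InC v (p, g * k) := by
    intro X
    have h1 : co (p, g * k) v = co (p, k) v := by
      have := co_mul p g k v
      rwa [h] at this
    rw [h1]
    exact hin X
  have hch : ∃ t : Flag × SL(2, O2), (t = (p, g * k) ∨ t = (p, -(g * k))) ∧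
      Relation.ReflTransGen (Rst v) (p, k) t := by
    rcases (tiling hΓ).2 v hv (p, k) (p, g * k) hk (Γ.mul_mem hg hk) hin hin2 with h1 | h1
    · exact ⟨_, Or.inl rfl, h1⟩
    · exact ⟨_, Or.inr rfl, h1⟩
  obtain ⟨t, ht, hc⟩ := hch
  have htp : t.1 = p := by
    rcases ht with rfl | rfl <;> rfl
  set μ := co (p, k) v with hμ
  have hvk : rho (slC k) (Sp p μ) = v := by
    rw [hμ]
    change rho (slC k) (Sp p (Lf p (rho (slC k)⁻¹ v))) = v
    rw [Sp_Lf]
    have : (rho (slC k) * rho (slC k)⁻¹) v = v := by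
      rw [← map_mul, mul_inv_cancel, map_one]; rfl
    exact this
  have hqd : qd (Sp p μ) = qd v := by
    rw [← hvk, qd_rho]
  have hpos : 0 < qd (Sp p μ) := by rw [hqd]; exact hv.2
  by_cases h1 : μ 1 = 0
  · by_cases h2 : μ 2 = 0
    · have hSp : Sp p μ = μ 0 • NR uI + μ 3 • NR (uC p) := by
        simp [Sp, Fin.sum_univ_four, h1, h2, E]
      have h0 : μ 0 ≠ 0 := by
        intro h0
        rw [hSp, h0, zero_smul, zero_add, FR_qd] at hpos
        exact lt_irrefl _ hpos
      have h3 : μ 3 ≠ 0 := by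
        intro h3
        rw [hSp, h3, zero_smul, add_zero, FR_qd] at hpos
        exact lt_irrefl _ hpos
      have hkey := FR_chain v (fun X => X = 1 ∨ X = 2) (fun _ => 1) (fun q X hX => by
        left
        rcases hX with rfl | rfl
        · rw [(glS_one q).1, mul_one]
        · rw [(glS_one q).2, mul_one]) (p, k) t (fun X hX => by
          fin_cases X
          · exact absurd hX h0
          · exact Or.inl rfl
          · exact Or.inr rfl
          · exact absurd hX h3) hc
      exact FR_end p k g _ t ht hkey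
    · obtain ⟨hh, hpot⟩ := exists_potB
      have hkey := FR_chain v (fun X => X ≠ 2) hh hpot (p, k) t (fun X hX h' => by
        subst h'
        exact h2 hX) hc
      rw [htp] at hkey
      exact FR_end p k g _ t ht hkey
  · obtain ⟨hh, hpot⟩ := exists_potM
    have hkey := FR_chain v (fun X => X ≠ 1) hh hpot (p, k) t (fun X hX h' => by
      subst h'
      exact h1 hX) hc
    rw [htp] at hkey
    exact FR_end p k g _ t ht hkey

end Pool.AML.HH
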