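import Pool.Agent.AML.H.L2
set_option linter.style.longLine false
open Matrix Topology
open scoped MatrixGroups ComplexConjugate ComplexOrder

namespace Pool.AML.HH

noncomputable section

theorem qd_smul (c : ℝ) (v : HV) : qd (c • v) = c ^ 2 * qd v := by
  simp [qd]; ring

theorem PP_smul {c : ℝ} (hc : 0 < c) {v : HV} (hv : v ∈ PP) : c • v ∈ PP := by
  refine ⟨?_, ?_⟩
  · simpa using mul_pos hc hv.1
  · rw [qd_smul]; exact mul_pos (pow_pos hc 2) hv.2

/-- normalised vector. -/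
def nrm (v : HV) : HV := (Real.sqrt (qd v))⁻¹ • v

theorem nrm_mem {v : HV} (hv : v ∈ PP) : nrm v ∈ PP :=
  PP_smul (inv_pos.2 (Real.sqrt_pos.2 hv.2)) hv

theorem qd_nrm {v : HV} (hv : v ∈ PP) : qd (nrm v) = 1 := by
  rw [nrm, qd_smul, inv_pow, Real.sq_sqrt hv.2.le, inv_mul_cancel₀ hv.2.ne']

/-- the point of hyperbolic space of a positive definite form. -/
def toH (v : HV) (hv : v ∈ PP) : H3 :=
  ⟨toM (nrm v), (PP_iff _).1 (nrm_mem hv), by rw [det_toM, qd_nrm hv]; simp⟩

/-- the form of a point of hyperbolic space. -/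
def hvv (H : H3) : HV := frM H.1

theorem toM_hvv (H : H3) : toM (hvv H) = H.1 := toM_frM _ H.2.1.isHermitian

theorem hvv_mem (H : H3) : hvv H ∈ PP := by
  rw [PP_iff, toM_hvv]; exact H.2.1

theorem qd_hvv (H : H3) : qd (hvv H) = 1 := by
  have h := det_toM (hvv H)
  rw [toM_hvv, H.2.2] at h
  exact_mod_cast h.symm

theorem hvv_smul (g : SL(2, ℂ)) (H : H3) : hvv (g • H) = rho g (hvv H) := by
  apply toM_inj
  rw [toM_rho, toM_hvv, toM_hvv]
  rfl

theorem hvv_toH (v : HV) (hv : v ∈ PP) : hvv (toH v hv) = nrm v := frM_toM _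

theorem hvv_inj : Function.Injective hvv := fun H K h => by
  apply Subtype.ext
  rw [← toM_hvv H, ← toM_hvv K, h]

theorem nrm_of_qd {v : HV} (h : qd v = 1) : nrm v = v := by
  simp [nrm, h]

end

end Pool.AML.HH
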