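import Pool.Agent.AML.H.E3
set_option linter.style.longLine false
open Matrix Topology
open scoped MatrixGroups

namespace Pool.AML.HH

/-!
Row AMH-G1 (gluing elements lie in `Γ`): a computable function `actQ` evaluating `f M i`
through the Euclidean algorithm, its soundness, and the finite check.
-/

/-- integer iterate of a permutation given by the lists `l` (the map) and `li` (its inverse). -/
def itQ (l li : List ℕ) (n : ℤ) (i : Fin 24) : Fin 24 :=
  match n with
  | Int.ofNat k => (lf l)^[k] i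
  | Int.negSucc k => (lf li)^[k + 1] i

/-- evaluation of `f M i` by the Euclidean algorithm (`n` is the fuel). -/
def actQ : ℕ → O2 × O2 × O2 × O2 → Fin 24 → Option (Fin 24)
  | 0, _, _ => none
  | n + 1, (a, b, c, d), i =>
    if c = 0 then
      some (itQ permAi permA (a * b).re (itQ permUi permU (a * b).im i))
    else
      match actQ n (c, d, -(a - rd a c * c), -(b - rd a c * d)) i with
      | none => none
      | some j => some (itQ permAi permA (rd a c).re (itQ permUi permU (rd a c).im (lf permB j)))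

theorem itQ_P1 (n : ℤ) (i : Fin 24) : itQ permAi permA n i = (P1 ^ n) i := by
  cases n with
  | ofNat k =>
    change (lf permAi)^[k] i = (P1 ^ (k : ℤ)) i
    rw [zpow_natCast, Equiv.Perm.coe_pow]
    rfl
  | negSucc k =>
    change (lf permA)^[k + 1] i = (P1 ^ (Int.negSucc k)) i
    rw [zpow_negSucc, ← inv_pow, Equiv.Perm.coe_pow]
    rfl

theorem itQ_P2 (n : ℤ) (i : Fin 24) : itQ permUi permU n i = (P2 ^ n) i := by
  cases n with
  | ofNat k =>
    change (lf permUi)^[k] i = (P2 ^ (k : ℤ)) i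
    rw [zpow_natCast, Equiv.Perm.coe_pow]
    rfl
  | negSucc k =>
    change (lf permU)^[k + 1] i = (P2 ^ (Int.negSucc k)) i
    rw [zpow_negSucc, ← inv_pow, Equiv.Perm.coe_pow]
    rfl

theorem Tm_mul_neg_G1 (t : O2) : Tm t * Tm (-t) = 1 := by
  apply Subtype.ext
  rw [sl_mul_val, sl_one_val]
  simp only [Tm, Matrix.mul_fin_two]
  rw [Matrix.one_fin_two]
  simp

theorem Sm_inv_val_G1 : (Sm⁻¹).1 = !![0, 1; -1, 0] := by
  rw [Matrix.SpecialLinearGroup.coe_inv]
  simp only [Sm, Matrix.adjugate_fin_two_of]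
  simp

/-- entries of `S⁻¹ T(-q) M`. -/
theorem step_entries_G1 (q : O2) (M : SL(2, O2)) :
    (Sm⁻¹ * (Tm (-q) * M)).1 0 0 = M.1 1 0 ∧ (Sm⁻¹ * (Tm (-q) * M)).1 0 1 = M.1 1 1 ∧
    (Sm⁻¹ * (Tm (-q) * M)).1 1 0 = -(M.1 0 0 - q * M.1 1 0) ∧
    (Sm⁻¹ * (Tm (-q) * M)).1 1 1 = -(M.1 0 1 - q * M.1 1 1) := by
  have key : (Sm⁻¹ * (Tm (-q) * M)).1 =
      !![M.1 1 0, M.1 1 1; -(M.1 0 0 - q * M.1 1 0), -(M.1 0 1 - q * M.1 1 1)] := by
    rw [sl_mul_val, sl_mul_val, Sm_inv_val_G1]
    conv_lhs => rw [Matrix.eta_fin_two M.1]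
    simp only [Tm, Matrix.mul_fin_two]
    apply Matrix.ext
    intro i j
    fin_cases i <;> fin_cases j
    · simp
    · simp
    · simp; ring
    · simp; ring
  rw [key]
  exact ⟨rfl, rfl, rfl, rfl⟩

theorem actQ_sound {f : SL(2, O2) →* Equiv.Perm (Fin 24)} (hf : IsCos f) :
    ∀ (n : ℕ) (M : SL(2, O2)) (a b c d : O2), M.1 0 0 = a → M.1 0 1 = b → M.1 1 0 = c →
      M.1 1 1 = d → ∀ i j, actQ n (a, b, c, d) i = some j → f M i = j := by
  intro n
  induction n with
  | zero => intro M a b c d _ _ _ _ i j h; simp [actQ] at h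
  | succ n ih =>
    intro M a b c d ha hb hc hd i j h
    by_cases h0 : c = 0
    · rw [actQ, if_pos h0] at h
      have hj : itQ permAi permA (a * b).re (itQ permUi permU (a * b).im i) = j :=
        Option.some.inj h
      rw [itQ_P1, itQ_P2] at hj
      have hT : f (Tm (a * b)) i = j := by
        have := hf.T (a * b).re (a * b).im
        have e : (⟨(a * b).re, (a * b).im⟩ : O2) = a * b := rfl
        rw [e] at this
        rw [this, Equiv.Perm.mul_apply, hj]
      rcases upper_O2 M (by rw [hc, h0]) with h1 | h1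
      · rw [ha, hb] at h1
        rw [h1, hT]
      · rw [ha, hb] at h1
        have h2 : (-Tm (a * b) : SL(2, O2)) = (-1) * Tm (a * b) := by
          rw [neg_one_mul]
        rw [h1, h2, map_mul, hf.neg, one_mul, hT]
    · rw [actQ, if_neg h0] at h
      cases h' : actQ n (c, d, -(a - rd a c * c), -(b - rd a c * d)) i with
      | none => rw [h'] at h; simp at h
      | some k =>
        rw [h'] at h
        have hj : itQ permAi permA (rd a c).re (itQ permUi permU (rd a c).im (lf permB k)) = j :=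
          Option.some.inj h
        rw [itQ_P1, itQ_P2] at hj
        have key : f (Sm⁻¹ * (Tm (-(rd a c)) * M)) i = k := by
          obtain ⟨e1, e2, e3, e4⟩ := step_entries_G1 (rd a c) M
          refine ih _ _ _ _ _ ?_ ?_ ?_ ?_ i k h'
          · rw [e1, hc]
          · rw [e2, hd]
          · rw [e3, ha, hc]
          · rw [e4, hb, hd]
        have hM : M = Tm (rd a c) * (Sm * (Sm⁻¹ * (Tm (-(rd a c)) * M))) := by
          rw [mul_inv_cancel_left, ← mul_assoc]
          have : Tm (rd a c) * Tm (-(rd a c)) = 1 := Tm_mul_neg_G1 _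
          rw [this, one_mul]
        have e : (⟨(rd a c).re, (rd a c).im⟩ : O2) = rd a c := rfl
        have hT := hf.T (rd a c).re (rd a c).im
        rw [e] at hT
        rw [hM, map_mul, map_mul, Equiv.Perm.mul_apply, Equiv.Perm.mul_apply, key, hf.S, hT,
          Equiv.Perm.mul_apply]
        exact hj

theorem gl_mem {f : SL(2, O2) →* Equiv.Perm (Fin 24)} (hf : IsCos f) (p : Flag) (X : Fin 4) :
    glS p X ∈ Gam2 f := by
  have key : ∀ (p : Flag) (X : Fin 4), actQ 20 (glM p X) 0 = some 0 := by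
    decide +kernel
  exact actQ_sound hf 20 (glS p X) _ _ _ _ rfl rfl rfl rfl 0 0 (key p X)

end Pool.AML.HH
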