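import Pool.Agent.AML.H.E3
set_option linter.style.longLine false
open Matrix Topology
open scoped MatrixGroups

namespace Pool.AML.HH

/-!
Row AMH-G2. `g = ± Tm t` (`upper_O2`), `f g = P1^x P2^y` with `t = x + y√-2`. Facts (all by `decide`): `P1^4 0 = 0`, `P1 (P2^(-2) 0) = 0`, `P1 P2 = P2 P1`.
Hence `{(x, y) | P1^x P2^y 0 = 0}` is a subgroup containing `(4, 0)` and `(1, -2)`; write `y = 2 k + r`, `r ∈ {0,1}`, and `x + k = 4 l + s`, `0 ≤ s < 4`: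
`(x, y) = -k (1, -2) + l (4, 0) + (s, r)`; so `P1^s P2^r 0 = 0`, and the 8 values `P1^s P2^r 0` are different from `0` except `s = r = 0` (`decide`).
`InLam t` is `∃ k, t.im = 2 k ∧ 4 ∣ t.re + k`.
`neg_mem`: `IsCos.neg`.
-/

private theorem G2_comm : Commute P1 P2 := by
  show P1 * P2 = P2 * P1
  decide +kernel

private theorem G2_fin (s r : ℤ) (hs0 : 0 ≤ s) (hs1 : s < 4) (hr0 : 0 ≤ r) (hr1 : r < 2)
    (h : (P1 ^ s * P2 ^ r) 0 = 0) : s = 0 ∧ r = 0 := by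
  interval_cases s <;> interval_cases r
  · exact ⟨rfl, rfl⟩
  all_goals
    exfalso
    revert h
    decide +kernel

private theorem G2_key (x y : ℤ) (h : (P1 ^ x * P2 ^ y) 0 = 0) : ∃ k : ℤ, y = 2 * k ∧ (4 : ℤ) ∣ x + k := by
  obtain ⟨k, r, hr0, hr1, hy⟩ : ∃ k r : ℤ, 0 ≤ r ∧ r < 2 ∧ y = 2 * k + r :=
    ⟨y / 2, y % 2, by omega, by omega, by omega⟩
  obtain ⟨l, s, hs0, hs1, hx⟩ : ∃ l s : ℤ, 0 ≤ s ∧ s < 4 ∧ x + k = 4 * l + s :=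
    ⟨(x + k) / 4, (x + k) % 4, by omega, by omega, by omega⟩
  have hZ0 : (P1 * P2 ^ (-2 : ℤ)) 0 = 0 := by decide +kernel
  have hF0 : (P1 ^ (4 : ℤ)) 0 = 0 := by decide +kernel
  have hZ : ((P1 * P2 ^ (-2 : ℤ)) ^ (-k)) 0 = 0 := Equiv.Perm.zpow_apply_eq_self_of_apply_eq_self hZ0 _
  have hF : ((P1 ^ (4 : ℤ)) ^ l) 0 = 0 := Equiv.Perm.zpow_apply_eq_self_of_apply_eq_self hF0 _
  have hE : P1 ^ x * P2 ^ y = (P1 ^ s * P2 ^ r) * ((P1 * P2 ^ (-2 : ℤ)) ^ (-k) * (P1 ^ (4 : ℤ)) ^ l) := by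
    have e1 : (P1 * P2 ^ (-2 : ℤ)) ^ (-k) = P1 ^ (-k) * P2 ^ (2 * k) := by
      rw [(G2_comm.zpow_right (-2)).mul_zpow, ← _root_.zpow_mul]
      congr 2
      ring
    have e2 : P2 ^ (2 * k) * P1 ^ (4 * l) = P1 ^ (4 * l) * P2 ^ (2 * k) := (G2_comm.zpow_zpow _ _).eq.symm
    have e3 : P2 ^ r * P1 ^ (-k + 4 * l) = P1 ^ (-k + 4 * l) * P2 ^ r := (G2_comm.zpow_zpow _ _).eq.symm
    rw [e1, ← _root_.zpow_mul, mul_assoc (P1 ^ (-k)), e2, ← mul_assoc (P1 ^ (-k)), ← _root_.zpow_add, mul_assoc (P1 ^ s),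
      ← mul_assoc (P2 ^ r), e3, mul_assoc (P1 ^ (-k + 4 * l)), ← _root_.zpow_add, ← mul_assoc, ← _root_.zpow_add]
    congr 2
    · omega
    · omega
  have hR : (P1 ^ s * P2 ^ r) 0 = 0 := by
    have h2 : ((P1 * P2 ^ (-2 : ℤ)) ^ (-k) * (P1 ^ (4 : ℤ)) ^ l) 0 = 0 := by
      rw [Equiv.Perm.mul_apply, hF, hZ]
    rw [hE, Equiv.Perm.mul_apply, h2] at h
    exact h
  obtain ⟨rfl, rfl⟩ := G2_fin s r hs0 hs1 hr0 hr1 hR
  exact ⟨k, by omega, ⟨l, by omega⟩⟩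

theorem cusp_mem {f : SL(2, O2) →* Equiv.Perm (Fin 24)} (hf : IsCos f) (g : SL(2, O2))
    (hg : g ∈ Gam2 f) (h0 : g.1 1 0 = 0) : ∃ t, InLam t ∧ (g = Tm t ∨ g = -Tm t) := by
  have hg' : f g 0 = 0 := hg
  have hT : ∀ t : O2, f (Tm t) = P1 ^ t.re * P2 ^ t.im := fun t => hf.T t.re t.im
  refine ⟨g.1 0 0 * g.1 0 1, ?_, upper_O2 g h0⟩
  rcases upper_O2 g h0 with h | h
  · rw [h, hT] at hg'
    exact G2_key _ _ hg'
  · have hn : f (-Tm (g.1 0 0 * g.1 0 1)) = f (Tm (g.1 0 0 * g.1 0 1)) := by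
      have e : -Tm (g.1 0 0 * g.1 0 1) = (-1 : SL(2, O2)) * Tm (g.1 0 0 * g.1 0 1) := (neg_one_mul _).symm
      rw [e, map_mul, hf.neg, one_mul]
    rw [h, hn, hT] at hg'
    exact G2_key _ _ hg'

theorem neg_mem_Gam2 {f : SL(2, O2) →* Equiv.Perm (Fin 24)} (hf : IsCos f) :
    (-1 : SL(2, O2)) ∈ Gam2 f := by
  show f (-1) 0 = 0
  rw [hf.neg]
  rfl

end Pool.AML.HH
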