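import Pool.Agent.AML.H.G1
import Pool.Agent.AML.H.Pot
set_option linter.style.longLine false
open Matrix Topology
open scoped MatrixGroups

namespace Pool.AML.HH

/-!
Row AMH-G3. No element of `Γ` maps a `c`-vertex to the cusp at infinity.
`h_a = (vc a | hc a)`; if `(mulV g (vc a)).2 = 0` then `g h_a = ± Tm t`, so `f (h_a⁻¹) 0` is in the
orbit `orbG3` of `0` under translations; but it is not, by a finite computation with `actQ`.
-/

/-- `h_a⁻¹`. -/
def hinvG3 (a : Fin 108) : SL(2, O2) :=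
  ⟨!![(hc a).2, -(hc a).1; -(vc a).2, (vc a).1], by
    rw [Matrix.det_fin_two_of]
    have := hc_det a
    rw [← this]; ring⟩

/-- orbit of `0` under translations. -/
def orbG3 (i : Fin 24) : Prop := i ∈ ([0, 1, 15, 16, 17, 18, 20, 21] : List (Fin 24))

instance : DecidablePred orbG3 := fun i => inferInstanceAs (Decidable (i ∈ _))

theorem orbG3_P1 : ∀ i, orbG3 i → orbG3 (P1 i) := by decide
theorem orbG3_P1i : ∀ i, orbG3 i → orbG3 (P1⁻¹ i) := by
  have : ∀ i, orbG3 i → orbG3 (lf permA i) := by decide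
  exact this
theorem orbG3_P2 : ∀ i, orbG3 i → orbG3 (P2 i) := by decide
theorem orbG3_P2i : ∀ i, orbG3 i → orbG3 (P2⁻¹ i) := by
  have : ∀ i, orbG3 i → orbG3 (lf permU i) := by decide
  exact this

theorem orbG3_zpow {P : Equiv.Perm (Fin 24)} (h1 : ∀ i, orbG3 i → orbG3 (P i))
    (h2 : ∀ i, orbG3 i → orbG3 (P⁻¹ i)) (n : ℤ) : ∀ i, orbG3 i → orbG3 ((P ^ n) i) := by
  induction n with
  | zero => intro i hi; simpa using hi
  | succ n ih =>
    intro i hi
    rw [_root_.zpow_add_one, Equiv.Perm.mul_apply]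
    exact ih _ (h1 i hi)
  | pred n ih =>
    intro i hi
    rw [_root_.zpow_sub_one, Equiv.Perm.mul_apply]
    exact ih _ (h2 i hi)

theorem orbG3_T {f : SL(2, O2) →* Equiv.Perm (Fin 24)} (hf : IsCos f) (t : O2) (i : Fin 24)
    (hi : orbG3 i) : orbG3 (f (Tm t) i) := by
  have e : (⟨t.re, t.im⟩ : O2) = t := rfl
  have hT := hf.T t.re t.im
  rw [e] at hT
  rw [hT, Equiv.Perm.mul_apply]
  exact orbG3_zpow orbG3_P1 orbG3_P1i _ _ (orbG3_zpow orbG3_P2 orbG3_P2i _ _ hi)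

theorem cc_mem {f : SL(2, O2) →* Equiv.Perm (Fin 24)} (hf : IsCos f) (g : SL(2, O2))
    (hg : g ∈ Gam2 f) (p : Flag) : (mulV g (uC p)).2 ≠ 0 := by
  intro h0
  have hnum : ∀ a : Fin 108, ∃ j, actQ 20 ((hc a).2, -(hc a).1, -(vc a).2, (vc a).1) 0 = some j ∧
      ¬ orbG3 j := by
    decide +kernel
  obtain ⟨j, hj, hnj⟩ := hnum p.2
  have hfj : f (hinvG3 p.2) 0 = j := actQ_sound hf 20 (hinvG3 p.2) _ _ _ _ rfl rfl rfl rfl 0 j hj
  -- `M = g h`, upper triangular
  set M : SL(2, O2) := g * (hinvG3 p.2)⁻¹ with hM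
  have hM10 : M.1 1 0 = 0 := by
    have e1 : ((hinvG3 p.2)⁻¹).1 = !![(vc p.2).1, (hc p.2).1; (vc p.2).2, (hc p.2).2] := by
      rw [Matrix.SpecialLinearGroup.coe_inv]
      simp only [hinvG3, Matrix.adjugate_fin_two_of]
      simp
    have e2 : M.1 1 0 = (mulV g (uC p)).2 := by
      rw [hM, sl_mul_val, Matrix.mul_apply, Fin.sum_univ_two, e1]
      rfl
    rw [e2, h0]
  have hg' : g = M * hinvG3 p.2 := by rw [hM, inv_mul_cancel_right]
  have hg0 : f g 0 = 0 := hg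
  rw [hg', map_mul, Equiv.Perm.mul_apply, hfj] at hg0
  -- `f M j = 0`, so `j = f M⁻¹ 0`
  have hj2 : j = f M⁻¹ 0 := by
    rw [map_inv, ← hg0]
    exact (Equiv.symm_apply_apply (f M) j).symm
  apply hnj
  rw [hj2]
  have h00 : orbG3 0 := by decide
  have hTi : ∀ t, orbG3 (f (Tm t)⁻¹ 0) := by
    intro t
    have : (Tm t)⁻¹ = Tm (-t) := inv_eq_of_mul_eq_one_right (Tm_mul_neg_G1 t)
    rw [this]
    exact orbG3_T hf _ _ h00
  rcases upper_O2 M hM10 with h1 | h1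
  · rw [h1]; exact hTi _
  · have h2 : M = (-1) * Tm (M.1 0 0 * M.1 0 1) := by
      rw [neg_one_mul]; exact h1
    rw [h2, _root_.mul_inv_rev, map_mul, Equiv.Perm.mul_apply, map_inv f (-1), hf.neg]
    simpa using hTi _

end Pool.AML.HH
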