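import Pool.Agent.AML.H.G1
import Pool.Agent.AML.H.G2
import Pool.Agent.AML.H.G3
set_option linter.style.longLine false
open Matrix Topology
open scoped MatrixGroups

namespace Pool.AML.HH

/-!
Row AMH-G4. `good`: collect rows G1, G2, G3 (given). `finiteIndex`: `g ↦ f g 0 : SL(2,O2) → Fin 24` is constant exactly on the left cosets of `Gam2 f`
(e.g. `Gam2 f = (MulAction.stabilizer (Equiv.Perm (Fin 24)) 0).comap f`, `Subgroup.finiteIndex_of_..`, or `Subgroup.instFiniteIndex_comap`-type instance:
a subgroup of the finite group `Perm (Fin 24)` has finite index, and so has its comap).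
`relIndex`: `(Gam2 f).map slC` inside `slC.range = ⊤.map slC`: `Subgroup.relIndex_map_map..` or directly: the left cosets of `GamC f` in `slC.range` are images of left cosets of `Gam2 f`;
`Subgroup.relIndex_ne_zero..`. `slC` is injective (but this is not needed).
-/

theorem good {f : SL(2, O2) →* Equiv.Perm (Fin 24)} (hf : IsCos f) : GoodGrp (Gam2 f) where
  gl := gl_mem hf
  neg := neg_mem_Gam2 hf
  cusp := cusp_mem hf
  cc := cc_mem hf

private theorem g4_eq (f : SL(2, O2) →* Equiv.Perm (Fin 24)) :
    Gam2 f = (MulAction.stabilizer (Equiv.Perm (Fin 24)) (0 : Fin 24)).comap f := by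
  ext g
  rw [Subgroup.mem_comap, MulAction.mem_stabilizer_iff]
  rfl

theorem finIndex (f : SL(2, O2) →* Equiv.Perm (Fin 24)) : (Gam2 f).FiniteIndex := by
  rw [g4_eq, Subgroup.finiteIndex_iff, Subgroup.index_comap]
  exact Subgroup.index_ne_zero_of_finite

theorem relIndex_GamC (f : SL(2, O2) →* Equiv.Perm (Fin 24)) :
    GamC f ≤ slC.range ∧ (GamC f).relIndex slC.range ≠ 0 := by
  constructor
  · rintro _ ⟨g, _, rfl⟩
    exact ⟨g, rfl⟩
  · have h := finIndex f
    have h1 : (Gam2 f).relIndex ⊤ ≠ 0 := by
      rw [Subgroup.relIndex_top_right]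
      exact h.index_ne_zero
    rw [GamC, MonoidHom.range_eq_map, Subgroup.relIndex_map_map, top_sup_eq]
    intro h2
    apply h1
    exact Subgroup.relIndex_eq_zero_of_le_left le_sup_left h2

end Pool.AML.HH
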