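import Pool.Agent.AML.H.Base

/-!
# Side (H): definitions for the group `Γ`
-/

set_option linter.style.longLine false

open Matrix Topology
open scoped MatrixGroups ComplexConjugate ComplexOrder

namespace Pool.AML.HH

noncomputable section

/-- `T(t) = (1 t; 0 1)`. -/
def Tm (t : O2) : SL(2, O2) := ⟨!![1, t; 0, 1], by simp [Matrix.det_fin_two]⟩

/-- `S = (0 -1; 1 0)`. -/
def Sm : SL(2, O2) := ⟨!![0, -1; 1, 0], by simp [Matrix.det_fin_two]⟩

/-- function on `Fin 24` given by a list. -/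
def lf (l : List ℕ) (i : Fin 24) : Fin 24 := ⟨l.getD i.1 0 % 24, Nat.mod_lt _ (by norm_num)⟩

def permAi : List ℕ := [15, 0, 4, 2, 7, 19, 5, 6, 9, 10, 14, 8, 11, 12, 13, 20, 21, 18, 16, 3, 1, 17, 22, 23]
def permUi : List ℕ := [18, 17, 7, 4, 6, 3, 19, 5, 10, 14, 13, 9, 8, 11, 12, 16, 20, 0, 15, 2, 21, 1, 22, 23]

/-- image of `T(1)`: the inverse of the right action. -/
def P1 : Equiv.Perm (Fin 24) := ⟨lf permAi, lf permA, by decide, by decide⟩

/-- image of `T(√-2)`. -/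
def P2 : Equiv.Perm (Fin 24) := ⟨lf permUi, lf permU, by decide, by decide⟩

/-- image of `S`. -/
def P0 : Equiv.Perm (Fin 24) := ⟨lf permB, lf permB, by decide, by decide⟩

/-- a homomorphism to `Perm (Fin 24)` with the prescribed values on the generators. -/
structure IsCos (f : SL(2, O2) →* Equiv.Perm (Fin 24)) : Prop where
  S : f Sm = P0
  neg : f (-1) = 1
  T : ∀ x y : ℤ, f (Tm ⟨x, y⟩) = P1 ^ x * P2 ^ y

/-- the group `Γ` in `SL(2, O2)`: stabiliser of `0`. -/
def Gam2 (f : SL(2, O2) →* Equiv.Perm (Fin 24)) : Subgroup SL(2, O2) where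
  carrier := {g | f g 0 = 0}
  mul_mem' := by
    intro a b ha hb
    simp only [Set.mem_ofPred_eq] at ha hb ⊢
    rw [map_mul, Equiv.Perm.mul_apply, hb, ha]
  one_mem' := by simp
  inv_mem' := by
    intro a ha
    simp only [Set.mem_ofPred_eq] at ha ⊢
    rw [map_inv, Equiv.Perm.inv_eq_iff_eq, ha]

/-- the group `Γ` in `SL(2, ℂ)`. -/
def GamC (f : SL(2, O2) →* Equiv.Perm (Fin 24)) : Subgroup SL(2, ℂ) := (Gam2 f).map slC

/-- the lattice `Λ = ⟨4, 1 - 2√-2⟩`. -/
def InLam (t : O2) : Prop := ∃ k : ℤ, t.im = 2 * k ∧ (4 : ℤ) ∣ t.re + k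

/-- the gluing data have determinant one. -/
theorem glM_det : ∀ (p : Flag) (X : Fin 4),
    (glM p X).1 * (glM p X).2.2.2 - (glM p X).2.1 * (glM p X).2.2.1 = (1 : O2) := by
  decide +kernel

/-- the gluing elements. -/
def glS (p : Flag) (X : Fin 4) : SL(2, O2) :=
  ⟨!![(glM p X).1, (glM p X).2.1; (glM p X).2.2.1, (glM p X).2.2.2], by
    rw [Matrix.det_fin_two_of]; exact glM_det p X⟩

end

end Pool.AML.HH
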