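import Pool.Agent.AML.H.L2
set_option linter.style.longLine false
open Matrix Topology
open scoped MatrixGroups ComplexConjugate ComplexOrder

namespace Pool.AML.HH

/-!
Row AMH-H1 (domination). Suppose `c0 := s.2.1 1 0 ≠ 0`. `InC_tet`: `v = Σ μ_j NR (w_j)`, `w_j = mulV s.2 (uv s.1 j)`, `μ0 ≥ μ1 ≥ μ2 ≥ 0`, `μ3 ≥ 0`.
Coordinate 1: `v 1 = Σ μ_j norm (w_j).2`, all terms `≥ 0`; `(w_0).2 = c0`, so `μ0 ≤ μ0 norm c0 ≤ v 1` (`norm_one_le`), hence `μ1, μ2 ≤ v 1`; and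
`(w_3).2 ≠ 0` by `GoodGrp.cc`, so `μ3 ≤ v 1`. `qd_sum4`, `dt_mulV`, `num_dt`: `qd v ≤ 144 Σ_{j<k} μ_j μ_k ≤ 864 (v 1)^2`. Contradiction.
-/

theorem H1_norm_nonneg (z : O2) : 0 ≤ z.norm := by
  rw [Zsqrtd.norm_def]
  nlinarith [mul_self_nonneg z.re, mul_self_nonneg z.im]

theorem H1_term {a b m n : ℝ} (ha : 0 ≤ a) (hb : 0 ≤ b) (ham : a ≤ m) (hbm : b ≤ m)
    (hn : 0 ≤ n) (hn' : n ≤ 144) : a * b * n ≤ 144 * m ^ 2 := by
  have h1 : a * b ≤ m * m := mul_le_mul ham hbm hb (ha.trans ham)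
  have h2 : 0 ≤ a * b := mul_nonneg ha hb
  nlinarith [mul_le_mul h1 hn' hn (h2.trans h1)]

theorem high {Γ : Subgroup SL(2, O2)} (hΓ : GoodGrp Γ) (v : HV) (hv : 864 * v 1 ^ 2 < qd v)
    (s : Flag × SL(2, O2)) (hs : s.2 ∈ Γ) (h : InC v s) : s.2.1 1 0 = 0 := by
  by_contra hc
  obtain ⟨μ, hμ, h10, h21, h2, h3⟩ := InC_tet v s h
  set w : Fin 4 → O2 × O2 := fun j => mulV s.2 (uv s.1 j) with hw
  have e1 : v 1 = ∑ j, μ j * (((w j).2.norm : ℤ) : ℝ) := by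
    conv_lhs => rw [hμ]
    simp [Finset.sum_apply, NR, nv, hw]
  rw [Fin.sum_univ_four] at e1
  have hnn : ∀ j, (0 : ℝ) ≤ (((w j).2.norm : ℤ) : ℝ) := fun j => by
    exact_mod_cast H1_norm_nonneg _
  have hw0 : (w 0).2 = s.2.1 1 0 := by
    simp [hw, mulV, uv, uI]
  have hw3 : (w 3).2 ≠ 0 := hΓ.cc s.2 hs s.1
  have hn0 : (1 : ℝ) ≤ (((w 0).2.norm : ℤ) : ℝ) := by
    have := norm_one_le (w 0).2 (by rw [hw0]; exact hc)
    exact_mod_cast this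
  have hn3 : (1 : ℝ) ≤ (((w 3).2.norm : ℤ) : ℝ) := by
    have := norm_one_le (w 3).2 hw3
    exact_mod_cast this
  have h1' : 0 ≤ μ 1 := h2.trans h21
  have h0' : 0 ≤ μ 0 := h1'.trans h10
  have t0 : μ 0 ≤ μ 0 * (((w 0).2.norm : ℤ) : ℝ) := le_mul_of_one_le_right h0' hn0
  have t3 : μ 3 ≤ μ 3 * (((w 3).2.norm : ℤ) : ℝ) := le_mul_of_one_le_right h3 hn3
  have t1 : 0 ≤ μ 1 * (((w 1).2.norm : ℤ) : ℝ) := mul_nonneg h1' (hnn 1)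
  have t2 : 0 ≤ μ 2 * (((w 2).2.norm : ℤ) : ℝ) := mul_nonneg h2 (hnn 2)
  have b0 : μ 0 ≤ v 1 := by linarith
  have b3 : μ 3 ≤ v 1 := by linarith
  have b1 : μ 1 ≤ v 1 := h10.trans b0
  have b2 : μ 2 ≤ v 1 := h21.trans b1
  have e2 := qd_sum4 μ w
  rw [← hμ] at e2
  obtain ⟨-, d01, d02, d03, d12, d13, d23⟩ := num_dt s.1
  have c01 : ((dt (w 0) (w 1)).norm : ℝ) ≤ 144 := by
    rw [hw]; simp only [dt_mulV]; exact_mod_cast d01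
  have c02 : ((dt (w 0) (w 2)).norm : ℝ) ≤ 144 := by
    rw [hw]; simp only [dt_mulV]; exact_mod_cast d02
  have c03 : ((dt (w 0) (w 3)).norm : ℝ) ≤ 144 := by
    rw [hw]; simp only [dt_mulV]; exact_mod_cast d03
  have c12 : ((dt (w 1) (w 2)).norm : ℝ) ≤ 144 := by
    rw [hw]; simp only [dt_mulV]; exact_mod_cast d12
  have c13 : ((dt (w 1) (w 3)).norm : ℝ) ≤ 144 := by
    rw [hw]; simp only [dt_mulV]; exact_mod_cast d13
  have c23 : ((dt (w 2) (w 3)).norm : ℝ) ≤ 144 := by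
    rw [hw]; simp only [dt_mulV]; exact_mod_cast d23
  have z : ∀ j k, (0 : ℝ) ≤ ((dt (w j) (w k)).norm : ℝ) := fun j k => by
    exact_mod_cast H1_norm_nonneg _
  have s01 := H1_term h0' h1' b0 b1 (z 0 1) c01
  have s02 := H1_term h0' h2 b0 b2 (z 0 2) c02
  have s03 := H1_term h0' h3 b0 b3 (z 0 3) c03
  have s12 := H1_term h1' h2 b1 b2 (z 1 2) c12
  have s13 := H1_term h1' h3 b1 b3 (z 1 3) c13
  have s23 := H1_term h2 h3 b2 b3 (z 2 3) c23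
  linarith

end Pool.AML.HH
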