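import Pool.Agent.AML.H.L1a
set_option linter.style.longLine false
open Matrix Topology
open scoped MatrixGroups ComplexConjugate ComplexOrder

namespace Pool.AML.HH

/-!
Row AMH-L1b (positive cone).
* `PP_iff`: a 2x2 Hermitian matrix is positive definite iff `H00 > 0` and `det > 0` (`star x ⬝ᵥ H x > 0`: complete the square
  `H00 * form = |H00 x0 + H01 x1|^2 + det |x1|^2`; conversely test vector `(1,0)` and `PosDef.det_pos`, `det_toM`).
* `PP_rho`: `PosDef` is invariant under congruence (see `act_mem` in `Defs.lean`).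
* `PP_open`: `qd` and `v 0` are continuous. `PP_convex`: from `PP_iff` (sum of positive definite matrices).
* `rho_eq_one`: if `g H gᴴ = H` for all Hermitian `H` then `g = ±1` for `g ∈ SL(2,O2)`:
  use `rho_NR` with `u = (1,0), (0,1), (1,1)`: `NR (mulV g u) = NR u`, i.e. `norm` of entries: `g.1 1 0 = 0`, `g.1 0 1 = 0`, `norm (g.1 0 0) = 1` so `g.1 0 0 = ±1`; `det = 1`.
-/

private theorem L1b_c0 (v : HV) : (toM v) 0 0 = (v 0 : ℂ) := rfl

theorem PP_iff (v : HV) : v ∈ PP ↔ (toM v).PosDef := by
  constructor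
  · rintro ⟨h0, hd⟩
    refine Matrix.PosDef.of_dotProduct_mulVec_pos (toM_herm v) ?_
    intro x hx
    have hE : star x ⬝ᵥ (toM v *ᵥ x) = ((v 0 * ((x 0).re ^ 2 + (x 0).im ^ 2) + v 1 * ((x 1).re ^ 2 + (x 1).im ^ 2)
        + 2 * v 2 * ((x 0).re * (x 1).re + (x 0).im * (x 1).im)
        - 2 * Real.sqrt 2 * v 3 * ((x 0).re * (x 1).im - (x 0).im * (x 1).re) : ℝ) : ℂ) := by
      apply Complex.ext
      · rw [Complex.ofReal_re]
        simp [dotProduct, Matrix.mulVec, toM, s2, Fin.sum_univ_two]
        ring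
      · rw [Complex.ofReal_im]
        simp [dotProduct, Matrix.mulVec, toM, s2, Fin.sum_univ_two]
        ring
    rw [hE]
    have hkey : v 0 * (v 0 * ((x 0).re ^ 2 + (x 0).im ^ 2) + v 1 * ((x 1).re ^ 2 + (x 1).im ^ 2)
        + 2 * v 2 * ((x 0).re * (x 1).re + (x 0).im * (x 1).im)
        - 2 * Real.sqrt 2 * v 3 * ((x 0).re * (x 1).im - (x 0).im * (x 1).re)) =
        (v 0 * (x 0).re + v 2 * (x 1).re - Real.sqrt 2 * v 3 * (x 1).im) ^ 2 +
        (v 0 * (x 0).im + v 2 * (x 1).im + Real.sqrt 2 * v 3 * (x 1).re) ^ 2 +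
        qd v * ((x 1).re ^ 2 + (x 1).im ^ 2) := by
      unfold qd
      linear_combination (-(v 3 ^ 2 * ((x 1).re ^ 2 + (x 1).im ^ 2))) * sqrt2_sq
    have hpos : 0 < v 0 * ((x 0).re ^ 2 + (x 0).im ^ 2) + v 1 * ((x 1).re ^ 2 + (x 1).im ^ 2)
        + 2 * v 2 * ((x 0).re * (x 1).re + (x 0).im * (x 1).im)
        - 2 * Real.sqrt 2 * v 3 * ((x 0).re * (x 1).im - (x 0).im * (x 1).re) := by
      refine pos_of_mul_pos_right (a := v 0) ?_ h0.le
      rw [hkey]
      by_cases h1 : x 1 = 0
      · have h0' : x 0 ≠ 0 := by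
          intro h2
          apply hx
          funext i
          fin_cases i
          · exact h2
          · exact h1
        have h3 : 0 < (x 0).re ^ 2 + (x 0).im ^ 2 := by
          have h4 := Complex.normSq_pos.2 h0'
          rw [Complex.normSq_apply] at h4
          nlinarith
        rw [h1]
        simp only [Complex.zero_re, Complex.zero_im]
        have h5 : 0 < v 0 ^ 2 := by positivity
        nlinarith [mul_pos h5 h3]
      · have h3 : 0 < (x 1).re ^ 2 + (x 1).im ^ 2 := by
          have h4 := Complex.normSq_pos.2 h1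
          rw [Complex.normSq_apply] at h4
          nlinarith
        have h5 := mul_pos hd h3
        positivity
    exact_mod_cast hpos
  · intro h
    refine ⟨?_, ?_⟩
    · have h1 := h.diag_pos (i := 0)
      rw [L1b_c0] at h1
      exact_mod_cast h1
    · have h1 := h.det_pos
      rw [det_toM] at h1
      exact_mod_cast h1

theorem PP_rho (g : SL(2, ℂ)) {v : HV} (hv : v ∈ PP) : rho g v ∈ PP := by
  rw [PP_iff] at hv ⊢
  rw [toM_rho]
  have hu : IsUnit g.1 := by
    rw [Matrix.isUnit_iff_isUnit_det, g.2]; exact isUnit_one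
  exact (Matrix.IsUnit.posDef_star_right_conjugate_iff hu).2 hv

theorem PP_open : IsOpen PP := by
  have h : PP = {v : HV | 0 < v 0} ∩ {v : HV | 0 < qd v} := rfl
  rw [h]
  apply IsOpen.inter
  · exact isOpen_lt continuous_const (continuous_apply 0)
  · refine isOpen_lt continuous_const ?_
    unfold qd
    fun_prop

theorem PP_convex : Convex ℝ PP := by
  intro v hv w hw a b ha hb hab
  rw [PP_iff] at hv hw ⊢
  rw [toM_add, toM_smul, toM_smul]
  rcases ha.eq_or_lt with h | h
  · have hb1 : b = 1 := by linarith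
    rw [← h, hb1]
    simpa using hw
  · have hA : ((a : ℂ) • toM v).PosDef := hv.smul (by exact_mod_cast h)
    have hB : ((b : ℂ) • toM w).PosSemidef := hw.posSemidef.smul (by exact_mod_cast hb)
    exact hA.add_posSemidef hB

theorem rho_eq_one (g : SL(2, O2)) (h : rho (slC g) = 1) : g = 1 ∨ g = -1 := by
  have hN : ∀ u : O2 × O2, NR (mulV g u) = NR u := fun u => by
    rw [← rho_NR, h]; rfl
  have hn : ∀ u : O2 × O2, ∀ i, nv (mulV g u) i = nv u i := fun u i => by
    have := congrFun (hN u) i
    unfold NR at this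
    exact_mod_cast this
  have a1 := hn (1, 0) 0
  have a2 := hn (1, 0) 1
  have b1 := hn (0, 1) 0
  have b2 := hn (0, 1) 1
  simp only [nv, mulV, mul_one, mul_zero, add_zero, zero_add, Matrix.cons_val_zero, Matrix.cons_val_one] at a1 a2 b1 b2
  have hdet := g.2
  rw [Matrix.det_fin_two] at hdet
  simp only [Zsqrtd.norm_def, Zsqrtd.re_one, Zsqrtd.im_one, Zsqrtd.re_zero, Zsqrtd.im_zero] at a1 a2 b1 b2
  have hz : ∀ z : O2, z.re * z.re - (-2) * z.im * z.im = 0 → z = 0 := by
    intro z hz
    have h1 : z.re * z.re = 0 := by nlinarith [mul_self_nonneg z.re, mul_self_nonneg z.im]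
    have h2 : z.im * z.im = 0 := by nlinarith [mul_self_nonneg z.re, mul_self_nonneg z.im]
    exact Zsqrtd.ext (mul_self_eq_zero.1 h1) (mul_self_eq_zero.1 h2)
  have z1 : g.1 1 0 = 0 := hz _ (by rw [a2]; norm_num)
  have z2 : g.1 0 1 = 0 := hz _ (by rw [b1]; norm_num)
  have hu : ∀ z : O2, z.re * z.re - (-2) * z.im * z.im = 1 → z = 1 ∨ z = -1 := by
    intro z hz
    have h1 : z.im = 0 := by
      by_contra h0
      have : 1 ≤ z.im ^ 2 := by
        have := sq_pos_of_ne_zero h0
        omega
      nlinarith [mul_self_nonneg z.re]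
    rw [h1] at hz
    have h2 : z.re = 1 ∨ z.re = -1 := by
      have : (z.re - 1) * (z.re + 1) = 0 := by linarith
      rcases mul_eq_zero.1 this with h | h
      · left; omega
      · right; omega
    rcases h2 with h2 | h2
    · left
      exact Zsqrtd.ext h2 h1
    · right
      exact Zsqrtd.ext h2 h1
  have hd : g.1 0 0 * g.1 1 1 = 1 := by
    rw [z1, z2] at hdet
    simpa using hdet
  rcases hu _ (by simpa using a1) with h0 | h0
  · left
    have h3 : g.1 1 1 = 1 := by rw [h0, one_mul] at hd; exact hd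
    apply Matrix.SpecialLinearGroup.ext
    intro i j
    fin_cases i <;> fin_cases j
    · exact h0
    · exact z2
    · exact z1
    · exact h3
  · right
    have h3 : g.1 1 1 = -1 := by
      rw [h0] at hd
      linear_combination -hd
    apply Matrix.SpecialLinearGroup.ext
    intro i j
    fin_cases i <;> fin_cases j
    · exact h0
    · show g.1 0 1 = -0
      rw [z2, neg_zero]
    · show g.1 1 0 = -0
      rw [z1, neg_zero]
    · exact h3

end Pool.AML.HH
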