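import Pool.Agent.AML.H.Cdef
set_option linter.style.longLine false
open Matrix Topology
open scoped MatrixGroups ComplexConjugate ComplexOrder

namespace Pool.AML.HH

/-!
Row AMH-L1a (linear model, basic facts).
* `toM_NR`: `toM (NR u)` is the matrix `(u_i conj u_j)` with `u` embedded by `toC` (`toC ⟨x, y⟩ = x + y * s2`, `s2 * s2 = -2`, `conj s2 = -s2`).
* `rho_NR`: by `toM_inj`, `toM_rho`, `toM_NR`: `g (u uᴴ) gᴴ = (g u)(g u)ᴴ` entrywise (`slC g` has entries `toC (g.1 i j)`).
* `det_toM`: `det (toM v) = qd v` (as `s2^2 = -2`), so `qd (rho g v) = qd v` as `det (g H gᴴ) = det H`.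
* `rho_neg`: `(-g) H (-g)ᴴ = g H gᴴ`. `slC_injective`: `toC` is injective.
-/

private theorem l1a_s2 : s2 * s2 = -2 := by
  unfold s2
  calc _ = (Complex.I * Complex.I) * (((Real.sqrt 2 : ℝ) : ℂ) * ((Real.sqrt 2 : ℝ) : ℂ)) := by ring
    _ = _ := by
      rw [← Complex.ofReal_mul, sqrt2_sq, Complex.I_mul_I]
      norm_num

private theorem l1a_star : star s2 = -s2 := by
  unfold s2
  rw [star_mul']
  simp

private theorem l1a_toC (z : O2) : toC z = (z.re : ℂ) + (z.im : ℂ) * s2 := by
  simp [toC, s2, Zsqrtd.lift]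

private theorem l1a_toC_star (z : O2) : star (toC z) = (z.re : ℂ) - (z.im : ℂ) * s2 := by
  rw [l1a_toC, star_add, star_mul', l1a_star]
  simp
  ring

theorem toM_NR (u : O2 × O2) : toM (NR u) =
    !![toC u.1 * star (toC u.1), toC u.1 * star (toC u.2); toC u.2 * star (toC u.1), toC u.2 * star (toC u.2)] := by
  have h := l1a_s2
  ext i j
  fin_cases i <;> fin_cases j
  · simp only [l1a_toC_star]
    simp only [l1a_toC]
    simp [toM, NR, nv, Zsqrtd.norm_def]
    linear_combination ((u.1.im : ℂ) ^ 2) * h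
  · simp only [l1a_toC_star]
    simp only [l1a_toC]
    simp [toM, NR, nv, Zsqrtd.re_mul, Zsqrtd.im_mul]
    linear_combination ((u.1.im : ℂ) * (u.2.im : ℂ)) * h
  · simp only [l1a_toC_star]
    simp only [l1a_toC]
    simp [toM, NR, nv, Zsqrtd.re_mul, Zsqrtd.im_mul]
    linear_combination ((u.1.im : ℂ) * (u.2.im : ℂ)) * h
  · simp only [l1a_toC_star]
    simp only [l1a_toC]
    simp [toM, NR, nv, Zsqrtd.norm_def]
    linear_combination ((u.2.im : ℂ) ^ 2) * h

theorem rho_NR (g : SL(2, O2)) (u : O2 × O2) : rho (slC g) (NR u) = NR (mulV g u) := by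
  apply toM_inj
  rw [toM_rho, toM_NR, toM_NR]
  have hg : (slC g).1 = !![toC (g.1 0 0), toC (g.1 0 1); toC (g.1 1 0), toC (g.1 1 1)] := by
    ext i j
    fin_cases i <;> fin_cases j <;> rfl
  rw [hg]
  ext i j
  fin_cases i <;> fin_cases j <;>
    simp [Matrix.mul_apply, Fin.sum_univ_two, Matrix.conjTranspose_apply, mulV] <;> ring

theorem det_toM (v : HV) : (toM v).det = ((qd v : ℝ) : ℂ) := by
  have h := l1a_s2
  simp only [toM, Matrix.det_fin_two_of, qd]
  push_cast
  linear_combination ((v 3 : ℂ) ^ 2) * h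

theorem qd_rho (g : SL(2, ℂ)) (v : HV) : qd (rho g v) = qd v := by
  have h1 : (toM (rho g v)).det = (toM v).det := by
    rw [toM_rho, Matrix.det_mul, Matrix.det_mul, Matrix.det_conjTranspose, g.2]
    simp
  rw [det_toM, det_toM] at h1
  exact_mod_cast h1

theorem rho_neg (g : SL(2, ℂ)) : rho (-g) = rho g := by
  apply LinearEquiv.ext
  intro v
  apply toM_inj
  rw [toM_rho, toM_rho]
  have h : (-g).1 = -g.1 := rfl
  rw [h, Matrix.conjTranspose_neg, Matrix.neg_mul, Matrix.neg_mul, Matrix.mul_neg, neg_neg]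

theorem slC_neg (g : SL(2, O2)) : slC (-g) = -slC g := by
  apply Subtype.ext
  ext i j
  have h1 : (slC (-g)).1 i j = toC (-(g.1 i j)) := rfl
  have h2 : (-slC g).1 i j = -(toC (g.1 i j)) := rfl
  rw [h1, h2, map_neg]

private theorem l1a_inj : Function.Injective toC := by
  intro z w h
  rw [l1a_toC, l1a_toC] at h
  have hre := congrArg Complex.re h
  have him := congrArg Complex.im h
  simp [s2] at hre him
  apply Zsqrtd.ext
  · exact_mod_cast hre
  · exact_mod_cast him

theorem slC_injective : Function.Injective slC := by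
  intro g h hgh
  apply Subtype.ext
  refine Matrix.ext fun i j => ?_
  have h1 : toC (g.1 i j) = toC (h.1 i j) := congrArg (fun m => m.1 i j) hgh
  exact l1a_inj h1

end Pool.AML.HH
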