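import Pool.Agent.AML.H.L1
set_option linter.style.longLine false
open Matrix Topology
open scoped MatrixGroups ComplexConjugate ComplexOrder

namespace Pool.AML.HH

/-!
Row AMH-L2.
* `dt_mulV`: `det (g u, g u') = det g det (u, u')`.
* `qd_sum4`: polynomial identity (Cauchy-Binet): expand `NR`, `nv`, `dt`, norms `Zsqrtd.norm_def`, `ring`.
  (With two vectors: `det (μ u uᴴ + ν u' u'ᴴ) = μ ν |det(u,u')|²`.) Write `w j = (⟨a_j, b_j⟩, ⟨c_j, d_j⟩)`.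
* `InC_tet`: `w = co s v`, `v = rho (slC s.2) (Sp s.1 w)` (`Sp_Lf`), `Sp p w = w0 NR uI + w1/2 (NR uI + NR uM) + w2/3 (NR uI + NR uM + NR uB) + w3 NR uC`,
  apply `rho_NR` and linearity. `μ = ![w0 + w1/2 + w2/3, w1/2 + w2/3, w2/3, w3]`.
* `norm_mulV_snd`: `(mulV g u).2` is an element of `O2`, its norm is `≥ 1` if it is not zero.
-/

/-- the vertices of the ideal tetrahedron containing the flag. -/
def uv (p : Flag) (j : Fin 4) : O2 × O2 := ![uI, uM p, uB p, uC p] j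

theorem dt_mulV (g : SL(2, O2)) (u u' : O2 × O2) : dt (mulV g u) (mulV g u') = dt u u' := by
  have h : g.1 0 0 * g.1 1 1 - g.1 0 1 * g.1 1 0 = 1 := by
    rw [← Matrix.det_fin_two]
    exact g.2
  simp only [dt, mulV]
  linear_combination (u.1 * u'.2 - u.2 * u'.1) * h

theorem qd_sum4 (μ : Fin 4 → ℝ) (w : Fin 4 → O2 × O2) :
    qd (∑ j, μ j • NR (w j)) =
      μ 0 * μ 1 * ((dt (w 0) (w 1)).norm : ℝ) + μ 0 * μ 2 * ((dt (w 0) (w 2)).norm : ℝ) +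
      μ 0 * μ 3 * ((dt (w 0) (w 3)).norm : ℝ) + μ 1 * μ 2 * ((dt (w 1) (w 2)).norm : ℝ) +
      μ 1 * μ 3 * ((dt (w 1) (w 3)).norm : ℝ) + μ 2 * μ 3 * ((dt (w 2) (w 3)).norm : ℝ) := by
  have e0 : ∀ i, (∑ j, μ j • NR (w j)) i = μ 0 * NR (w 0) i + μ 1 * NR (w 1) i + μ 2 * NR (w 2) i +
      μ 3 * NR (w 3) i := by
    intro i
    rw [Fin.sum_univ_four]
    rfl
  have n0 : ∀ u : O2 × O2, NR u 0 = (u.1.re : ℝ) ^ 2 + 2 * (u.1.im : ℝ) ^ 2 := by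
    intro u
    simp [NR, nv, Zsqrtd.norm_def]
    ring
  have n1 : ∀ u : O2 × O2, NR u 1 = (u.2.re : ℝ) ^ 2 + 2 * (u.2.im : ℝ) ^ 2 := by
    intro u
    simp [NR, nv, Zsqrtd.norm_def]
    ring
  have n2 : ∀ u : O2 × O2, NR u 2 = (u.1.re : ℝ) * u.2.re + 2 * ((u.1.im : ℝ) * u.2.im) := by
    intro u
    simp [NR, nv, Zsqrtd.re_mul]
    ring
  have n3 : ∀ u : O2 × O2, NR u 3 = (u.1.im : ℝ) * u.2.re - (u.1.re : ℝ) * u.2.im := by
    intro u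
    simp [NR, nv, Zsqrtd.im_mul]
    ring
  have nd : ∀ u u' : O2 × O2, ((dt u u').norm : ℝ) =
      ((u.1.re : ℝ) * u'.2.re - 2 * ((u.1.im : ℝ) * u'.2.im) - (u.2.re : ℝ) * u'.1.re +
        2 * ((u.2.im : ℝ) * u'.1.im)) ^ 2 +
      2 * ((u.1.re : ℝ) * u'.2.im + (u.1.im : ℝ) * u'.2.re - (u.2.re : ℝ) * u'.1.im -
        (u.2.im : ℝ) * u'.1.re) ^ 2 := by
    intro u u'
    simp [dt, Zsqrtd.norm_def, Zsqrtd.re_mul, Zsqrtd.im_mul]
    ring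
  simp only [qd, e0, n0, n1, n2, n3, nd]
  ring

theorem InC_tet (v : HV) (s : Flag × SL(2, O2)) (h : InC v s) :
    ∃ μ : Fin 4 → ℝ, v = ∑ j, μ j • NR (mulV s.2 (uv s.1 j)) ∧
      μ 1 ≤ μ 0 ∧ μ 2 ≤ μ 1 ∧ 0 ≤ μ 2 ∧ 0 ≤ μ 3 := by
  obtain ⟨p, g⟩ := s
  set w := co (p, g) v with hw
  have h1 : rho (slC g)⁻¹ v = Sp p w := by
    rw [hw]
    exact (Sp_Lf p _).symm
  have h2 : v = rho (slC g) (Sp p w) := by
    rw [← h1, map_inv]
    exact (LinearEquiv.apply_symm_apply (rho (slC g)) v).symm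
  refine ⟨![w 0 + w 1 / 2 + w 2 / 3, w 1 / 2 + w 2 / 3, w 2 / 3, w 3], ?_, ?_, ?_, ?_, ?_⟩
  · rw [h2, Sp, map_sum, Fin.sum_univ_four, Fin.sum_univ_four]
    simp only [map_smul, E, map_add, rho_NR, uv]
    simp only [Matrix.cons_val_zero, Matrix.cons_val_one, Matrix.cons_val, ← hw]
    module
  · have h0 := h 0
    have h4 : 0 ≤ w 0 := h0
    change w 1 / 2 + w 2 / 3 ≤ w 0 + w 1 / 2 + w 2 / 3
    linarith
  · have h4 : 0 ≤ w 1 := h 1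
    change w 2 / 3 ≤ w 1 / 2 + w 2 / 3
    linarith
  · have h4 : 0 ≤ w 2 := h 2
    change 0 ≤ w 2 / 3
    positivity
  · exact h 3

theorem norm_one_le (z : O2) (hz : z ≠ 0) : 1 ≤ z.norm := by
  rw [Zsqrtd.norm_def]
  by_contra h
  have h1 : z.re * z.re + 2 * (z.im * z.im) < 1 := by linarith
  have h2 : 0 ≤ z.re * z.re := mul_self_nonneg _
  have h3 : 0 ≤ z.im * z.im := mul_self_nonneg _
  have h4 : z.re = 0 := by
    have : z.re * z.re = 0 := by omega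
    exact mul_self_eq_zero.1 this
  have h5 : z.im = 0 := by
    have : z.im * z.im = 0 := by omega
    exact mul_self_eq_zero.1 this
  exact hz (Zsqrtd.ext h4 h5)

end Pool.AML.HH
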