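import Pool.Agent.AML.H.Gdef

/-!
# Side (H): finite numerical checks (all by `decide +kernel`)
-/

set_option linter.style.longLine false

open Matrix Topology
open scoped MatrixGroups ComplexConjugate ComplexOrder

namespace Pool.AML.HH

/-- identity quadruple. -/
def q1 : O2 × O2 × O2 × O2 := (1, 0, 0, 1)

theorem num_fl : ∀ (p : Flag) (X : Fin 4), fl (fl p X) X = p ∧ fl p X ≠ p := by decide +kernel

/-- the cones are nondegenerate. -/
theorem num_det : ∀ p : Flag, det4 (EZ q1 p 0) (EZ q1 p 1) (EZ q1 p 2) (EZ q1 p 3) ≠ 0 := by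
  decide +kernel

/-- adjacent cones share a facet. -/
theorem num_share : ∀ (p : Flag) (X Y : Fin 4), Y ≠ X → ∀ i : Fin 4,
    EZ (glM p X) (fl p X) Y i = EZ q1 p Y i := by
  decide +kernel

/-- `EZ q1 p` with the vertex `X` replaced by the moved vertex of the neighbour. -/
def EZr (p : Flag) (X Y : Fin 4) : Fin 4 → ℤ :=
  if Y = X then EZ (glM p X) (fl p X) X else EZ q1 p Y

/-- adjacent cones lie on different sides of the common facet. -/
theorem num_side : ∀ (p : Flag) (X : Fin 4),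
    det4 (EZr p X 0) (EZr p X 1) (EZr p X 2) (EZr p X 3) *
      det4 (EZ q1 p 0) (EZ q1 p 1) (EZ q1 p 2) (EZ q1 p 3) < 0 := by
  decide +kernel

/-- product of quadruples. -/
def mulQQ (g h : O2 × O2 × O2 × O2) : O2 × O2 × O2 × O2 :=
  (g.1 * h.1 + g.2.1 * h.2.2.1, g.1 * h.2.1 + g.2.1 * h.2.2.2,
    g.2.2.1 * h.1 + g.2.2.2 * h.2.2.1, g.2.2.1 * h.2.1 + g.2.2.2 * h.2.2.2)

theorem num_invQ : ∀ (p : Flag) (X : Fin 4), mulQQ (glM p X) (glM (fl p X) X) = (1, 0, 0, 1) ∨
    mulQQ (glM p X) (glM (fl p X) X) = (-1, 0, 0, -1) := by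
  decide +kernel

/-- the gluing of `fl p X` is the inverse of the gluing of `p` up to sign. -/
theorem num_inv (p : Flag) (X : Fin 4) : glS p X * glS (fl p X) X = 1 ∨
    glS p X * glS (fl p X) X = -1 := by
  have key : (glS p X * glS (fl p X) X).1 =
      !![(mulQQ (glM p X) (glM (fl p X) X)).1, (mulQQ (glM p X) (glM (fl p X) X)).2.1;
        (mulQQ (glM p X) (glM (fl p X) X)).2.2.1, (mulQQ (glM p X) (glM (fl p X) X)).2.2.2] := by
    rw [sl_mul_val]
    simp only [glS, mulQQ, Matrix.mul_fin_two]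
  rcases num_invQ p X with h | h
  · left
    apply Subtype.ext
    rw [key, h]
    exact Matrix.one_fin_two.symm
  · right
    apply Subtype.ext
    rw [key, h]
    change _ = -(1 : Matrix (Fin 2) (Fin 2) O2)
    rw [Matrix.one_fin_two]
    apply Matrix.ext
    intro i j
    fin_cases i <;> fin_cases j <;> simp

/-- independence of the vectors of a corner, and bound of the determinants. -/
theorem num_dt : ∀ p : Flag,
    (dt uI (uM p) ≠ 0 ∧ dt uI (uB p) ≠ 0 ∧ dt uI (uC p) ≠ 0 ∧ dt (uM p) (uB p) ≠ 0 ∧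
      dt (uM p) (uC p) ≠ 0 ∧ dt (uB p) (uC p) ≠ 0) ∧
    ((dt uI (uM p)).norm ≤ 144 ∧ (dt uI (uB p)).norm ≤ 144 ∧ (dt uI (uC p)).norm ≤ 144 ∧
      (dt (uM p) (uB p)).norm ≤ 144 ∧ (dt (uM p) (uC p)).norm ≤ 144 ∧
      (dt (uB p) (uC p)).norm ≤ 144) := by
  decide +kernel

end Pool.AML.HH
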