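import Pool.Agent.AML.H.F6
import Pool.Agent.AML.H.FR
import Pool.Agent.AML.H.D1
import Pool.Agent.AML.H.G4
import Pool.Agent.AML.H.E6
set_option linter.style.longLine false
open Matrix Topology
open scoped MatrixGroups ComplexConjugate ComplexOrder

namespace Pool.AML.HH

theorem partH : ∃ Γ : Subgroup SL(2, ℂ), Γ ≤ slC.range ∧ Γ.relIndex slC.range ≠ 0 ∧
    (∀ g ∈ Γ, ∀ x : H3, g • x = x → g = 1 ∨ g = -1) ∧
    ProperlyDiscontinuousSMul Γ H3 ∧
    Nonempty (Quot WStep ≃ₜ MulAction.orbitRel.Quotient Γ H3) := by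
  obtain ⟨f, hf⟩ := exists_isCos
  have hG := good hf
  refine ⟨GamC f, (relIndex_GamC f).1, (relIndex_GamC f).2, ?_, propDisc _, quot_homeo hG⟩
  rintro _ ⟨g, hg, rfl⟩ x hx
  have h1 : rho (slC g) (hvv x) = hvv x := by
    rw [← hvv_smul]; exact congrArg hvv hx
  rcases free hG g hg (hvv x) (hvv_mem x) h1 with h | h
  · left
    rw [h, map_one]
  · right
    rw [h, slC_neg, map_one]

end Pool.AML.HH
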